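import Pool.Agent.Helper861.InvD

/-!
# Every product of involutive holomorphic germs is a product of boundedly many

In the group of biholomorphic germs `(ℂ, 0) → (ℂ, 0)` there is an integer `n` such that every finite
composition of involutions is a composition of `n` involutions.
-/

set_option autoImplicit false

namespace Pool.Agent.Results.MP_40a019_an.Bounded

open Pool.Agent.Helper861.Inv

theorem result : ∃ n : ℕ, 1 ≤ n ∧ IInf = IPow n := by
  obtain ⟨m, hm⟩ := mem_of_good
  refine ⟨2 * m + 2, by omega, ?_⟩
  ext f
  simp only [IInf, Set.mem_iUnion]
  constructor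
  · rintro ⟨k, _, hk⟩
    exact hm f (good_of_mem hk)
  · intro h
    exact ⟨2 * m + 2, by omega, h⟩

end Pool.Agent.Results.MP_40a019_an.Bounded
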