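import Mathlib

namespace Pool.Agent.Results.MP_40a019_an.BoundedWidth

section V1
open Complex Set Filter Topology Metric

/-- every point at distance at most `δ` from `Ω'` lies in `Ω` -/
def Sh (δ : ℝ) (Ω' Ω : Set ℂ) : Prop := ∀ w ∈ Ω', ∀ z : ℂ, ‖z - w‖ ≤ δ → z ∈ Ω

theorem Sh.sub {δ : ℝ} {Ω' Ω : Set ℂ} (h : Sh δ Ω' Ω) (hδ : 0 ≤ δ) : Ω' ⊆ Ω := by
  intro w hw
  exact h w hw w (by simpa using hδ)

theorem Sh.mono {δ δ' : ℝ} {Ω' Ω : Set ℂ} (h : Sh δ Ω' Ω) (hδ : δ' ≤ δ) : Sh δ' Ω' Ω :=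
  fun w hw z hz => h w hw z (hz.trans hδ)

theorem lipL {g : ℂ → ℂ} {Ω : Set ℂ} (hΩ : IsOpen Ω) (hg : DifferentiableOn ℂ g Ω) {α : ℝ}
    (hb : ∀ w ∈ Ω, ‖g w‖ ≤ α) {w : ℂ} {δ : ℝ} (hδ : 0 < δ)
    (hball : ∀ z, ‖z - w‖ ≤ 2 * δ → z ∈ Ω) {z1 z2 : ℂ} (h1 : ‖z1 - w‖ ≤ δ)
    (h2 : ‖z2 - w‖ ≤ δ) : ‖g z1 - g z2‖ ≤ α / δ * ‖z1 - z2‖ := by
  have key : ∀ z ∈ closedBall w δ, ‖deriv g z‖ ≤ α / δ := by
    intro z hz
    have hz' : ‖z - w‖ ≤ δ := by simpa [dist_eq_norm] using hz
    have hsub : closedBall z δ ⊆ Ω := by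
      intro y hy
      have hy' : ‖y - z‖ ≤ δ := by simpa [dist_eq_norm] using hy
      apply hball
      calc ‖y - w‖ = ‖(y - z) + (z - w)‖ := by ring_nf
        _ ≤ ‖y - z‖ + ‖z - w‖ := norm_add_le _ _
        _ ≤ 2 * δ := by linarith
    apply Complex.norm_deriv_le_of_forall_mem_sphere_norm_le hδ
    · apply DifferentiableOn.diffContOnCl
      rw [closure_ball _ hδ.ne']
      exact hg.mono hsub
    · intro y hy
      exact hb y (hsub (sphere_subset_closedBall hy))
  have hd : ∀ z ∈ closedBall w δ, DifferentiableAt ℂ g z := by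
    intro z hz
    have hz' : ‖z - w‖ ≤ δ := by simpa [dist_eq_norm] using hz
    exact (hg z (hball z (by linarith))).differentiableAt
      (hΩ.mem_nhds (hball z (by linarith)))
  exact (convex_closedBall w δ).norm_image_sub_le_of_norm_deriv_le (f := g) hd key
    (by simpa [dist_eq_norm] using h2) (by simpa [dist_eq_norm] using h1)

section fam

variable {ι : Type}

/-- A family of functions on `Ω`, bounded by `α`, Lipschitz in the parameter, vanishing
at infinity. -/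
structure Fam (d : ι → ι → ℝ) (Ω : Set ℂ) (α : ℝ) (e : ι → ℂ → ℂ) : Prop where
  diff : ∀ i, DifferentiableOn ℂ (e i) Ω
  bd : ∀ i, ∀ w ∈ Ω, ‖e i w‖ ≤ α
  lip : ∀ i j, ∀ w ∈ Ω, ‖e i w - e j w‖ ≤ α * d i j
  lim : ∀ i, Tendsto (e i) (Bornology.cobounded ℂ) (𝓝 0)

variable {d : ι → ι → ℝ} {Ω Ω' : Set ℂ} {α β δ : ℝ} {e b a : ι → ℂ → ℂ}

theorem Fam.mono (h : Fam d Ω α e) (hs : Ω' ⊆ Ω) : Fam d Ω' α e :=
  ⟨fun i => (h.diff i).mono hs, fun i w hw => h.bd i w (hs hw),
    fun i j w hw => h.lip i j w (hs hw), h.lim⟩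

theorem Fam.le (h : Fam d Ω α e) (hd : ∀ i j, 0 ≤ d i j) (hs : α ≤ β) : Fam d Ω β e :=
  ⟨h.diff, fun i w hw => (h.bd i w hw).trans hs,
    fun i j w hw => (h.lip i j w hw).trans (mul_le_mul_of_nonneg_right hs (hd i j)), h.lim⟩

theorem Fam.neg (h : Fam d Ω α e) : Fam d Ω α (fun i w => - e i w) := by
  refine ⟨fun i => (h.diff i).neg, fun i w hw => by simpa using h.bd i w hw,
    fun i j w hw => ?_, fun i => by simpa using (h.lim i).neg⟩
  have := h.lip i j w hw
  rw [← norm_neg] at this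
  have h2 : -(e i w - e j w) = - e i w - - e j w := by ring
  rwa [h2] at this

theorem tendsto_add_cobounded {b : ℂ → ℂ}
    (hb : Tendsto b (Bornology.cobounded ℂ) (𝓝 0)) :
    Tendsto (fun w => w + b w) (Bornology.cobounded ℂ) (Bornology.cobounded ℂ) := by
  rw [← tendsto_norm_atTop_iff_cobounded]
  have h1 : Tendsto (fun w : ℂ => ‖w‖ - ‖b w‖) (Bornology.cobounded ℂ) atTop := by
    have h2 : Tendsto (fun w : ℂ => - ‖b w‖) (Bornology.cobounded ℂ) (𝓝 0) := by
      simpa using hb.norm.neg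
    have := Tendsto.atTop_add tendsto_norm_cobounded_atTop h2
    simpa [sub_eq_add_neg] using this
  refine tendsto_atTop_mono (fun w => ?_) h1
  have := norm_sub_norm_le w (-(b w))
  rw [norm_neg, sub_neg_eq_add] at this
  exact this

/-- second-order estimate -/
theorem Fam.incr (h : Fam d Ω α e) (hb : Fam d Ω' β b) (hd : ∀ i j, 0 ≤ d i j)
    (hΩ : IsOpen Ω) (hδ : 0 < δ) (hβ : β ≤ δ) (hβ0 : 0 ≤ β) (hα0 : 0 ≤ α)
    (hs : Sh (2 * δ) Ω' Ω) :
    Fam d Ω' (2 * α * β / δ) (fun i w => e i (w + b i w) - e i w) := by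
  have hsub : Ω' ⊆ Ω := hs.sub (by positivity)
  have hmem : ∀ i, ∀ w ∈ Ω', w + b i w ∈ Ω := by
    intro i w hw
    apply hs w hw
    have := hb.bd i w hw
    simp only [add_sub_cancel_left]
    linarith
  refine ⟨?_, ?_, ?_, ?_⟩
  · intro i
    have h1 : DifferentiableOn ℂ (fun w => w + b i w) Ω' := differentiableOn_id.add (hb.diff i)
    exact ((h.diff i).comp h1 (fun w hw => hmem i w hw)).sub ((h.diff i).mono hsub)
  · intro i w hw
    have h1 := lipL hΩ (h.diff i) (h.bd i) hδ (hs w hw) (z1 := w + b i w) (z2 := w)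
      (by simpa using (hb.bd i w hw).trans hβ) (by simpa using hδ.le)
    have h2 := hb.bd i w hw
    simp only [add_sub_cancel_left] at h1
    calc ‖e i (w + b i w) - e i w‖ ≤ α / δ * ‖b i w‖ := h1
      _ ≤ α / δ * β := by gcongr
      _ ≤ 2 * α * β / δ := by
        have : 0 ≤ α * β / δ := by positivity
        calc α / δ * β = α * β / δ := by ring
          _ ≤ α * β / δ + α * β / δ := by linarith
          _ = 2 * α * β / δ := by ring
  · intro i j w hw
    have h1 := lipL hΩ ((h.diff i).sub (h.diff j)) (h.lip i j) hδ (hs w hw)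
      (z1 := w + b i w) (z2 := w)
      (by simpa using (hb.bd i w hw).trans hβ) (by simpa using hδ.le)
    have h2 := lipL hΩ (h.diff j) (h.bd j) hδ (hs w hw)
      (z1 := w + b i w) (z2 := w + b j w)
      (by simpa using (hb.bd i w hw).trans hβ) (by simpa using (hb.bd j w hw).trans hβ)
    have h3 := hb.bd i w hw
    have h4 := hb.lip i j w hw
    simp only [add_sub_cancel_left, Pi.sub_apply] at h1
    simp only [add_sub_add_left_eq_sub] at h2
    have hdd := hd i j
    calc ‖e i (w + b i w) - e i w - (e j (w + b j w) - e j w)‖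
        = ‖(e i (w + b i w) - e j (w + b i w) - (e i w - e j w))
            + (e j (w + b i w) - e j (w + b j w))‖ := by ring_nf
      _ ≤ ‖(e i (w + b i w) - e j (w + b i w) - (e i w - e j w))‖
            + ‖e j (w + b i w) - e j (w + b j w)‖ := norm_add_le _ _
      _ ≤ α * d i j / δ * ‖b i w‖ + α / δ * ‖b i w - b j w‖ := add_le_add h1 h2
      _ ≤ α * d i j / δ * β + α / δ * (β * d i j) := by gcongr
      _ = 2 * α * β / δ * d i j := by ring
  · intro i
    have h1 := (h.lim i).comp (tendsto_add_cobounded (hb.lim i))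
    simpa using h1.sub (h.lim i)

/-- composition of near-identity families -/
theorem Fam.comp (h : Fam d Ω α e) (hb : Fam d Ω' β b) (hd : ∀ i j, 0 ≤ d i j)
    (hΩ : IsOpen Ω) (hδ : 0 < δ) (hβ : β ≤ δ) (hβ0 : 0 ≤ β) (hα0 : 0 ≤ α)
    (hs : Sh (2 * δ) Ω' Ω) :
    Fam d Ω' (α + β + α * β / δ) (fun i w => b i w + e i (w + b i w)) := by
  have hsub : Ω' ⊆ Ω := hs.sub (by positivity)
  have hmem : ∀ i, ∀ w ∈ Ω', w + b i w ∈ Ω := by
    intro i w hw
    apply hs w hw
    have := hb.bd i w hw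
    simp only [add_sub_cancel_left]
    linarith
  have hpos : 0 ≤ α * β / δ := by positivity
  refine ⟨?_, ?_, ?_, ?_⟩
  · intro i
    have h1 : DifferentiableOn ℂ (fun w => w + b i w) Ω' := differentiableOn_id.add (hb.diff i)
    exact (hb.diff i).add ((h.diff i).comp h1 (fun w hw => hmem i w hw))
  · intro i w hw
    have h1 := h.bd i _ (hmem i w hw)
    have h2 := hb.bd i w hw
    calc ‖b i w + e i (w + b i w)‖ ≤ ‖b i w‖ + ‖e i (w + b i w)‖ := norm_add_le _ _
      _ ≤ α + β + α * β / δ := by linarith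
  · intro i j w hw
    have h1 := h.lip i j _ (hmem i w hw)
    have h2 := lipL hΩ (h.diff j) (h.bd j) hδ (hs w hw)
      (z1 := w + b i w) (z2 := w + b j w)
      (by simpa using (hb.bd i w hw).trans hβ) (by simpa using (hb.bd j w hw).trans hβ)
    have h4 := hb.lip i j w hw
    simp only [add_sub_add_left_eq_sub] at h2
    have hdd := hd i j
    calc ‖b i w + e i (w + b i w) - (b j w + e j (w + b j w))‖
        = ‖(b i w - b j w) + (e i (w + b i w) - e j (w + b i w))
            + (e j (w + b i w) - e j (w + b j w))‖ := by ring_nf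
      _ ≤ ‖b i w - b j w‖ + ‖e i (w + b i w) - e j (w + b i w)‖
            + ‖e j (w + b i w) - e j (w + b j w)‖ := norm_add₃_le
      _ ≤ β * d i j + α * d i j + α / δ * ‖b i w - b j w‖ := by gcongr
      _ ≤ β * d i j + α * d i j + α / δ * (β * d i j) := by gcongr
      _ = (α + β + α * β / δ) * d i j := by ring
  · intro i
    have h1 := (h.lim i).comp (tendsto_add_cobounded (hb.lim i))
    simpa using (hb.lim i).add h1

/-- injectivity of near-identity maps on small balls -/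
theorem near_inj {a : ℂ → ℂ} {Ω : Set ℂ} {α δ : ℝ} (hΩ : IsOpen Ω)
    (ha : DifferentiableOn ℂ a Ω) (hb : ∀ w ∈ Ω, ‖a w‖ ≤ α) (hδ : 0 < δ) (hα : α ≤ δ / 2)
    {w : ℂ} (hball : ∀ z, ‖z - w‖ ≤ 2 * δ → z ∈ Ω) {z1 z2 : ℂ} (h1 : ‖z1 - w‖ ≤ δ)
    (h2 : ‖z2 - w‖ ≤ δ) : ‖z1 - z2‖ ≤ 2 * ‖(z1 + a z1) - (z2 + a z2)‖ := by
  have h := lipL hΩ ha hb hδ hball h1 h2
  have h3 : α / δ ≤ 1 / 2 := by rw [div_le_iff₀ hδ]; linarith
  have h4 : ‖z1 - z2‖ ≤ ‖(z1 + a z1) - (z2 + a z2)‖ + ‖a z1 - a z2‖ := by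
    calc ‖z1 - z2‖ = ‖((z1 + a z1) - (z2 + a z2)) - (a z1 - a z2)‖ := by ring_nf
      _ ≤ _ := norm_sub_le _ _
  have h5 : α / δ * ‖z1 - z2‖ ≤ 1 / 2 * ‖z1 - z2‖ := by gcongr
  linarith

theorem inv_point {a : ℂ → ℂ} {Ω : Set ℂ} {α δ : ℝ} (hΩ : IsOpen Ω)
    (ha : DifferentiableOn ℂ a Ω) (hb : ∀ w ∈ Ω, ‖a w‖ ≤ α) (hδ : 0 < δ) (hα : α ≤ δ / 2)
    {w : ℂ} (hball : ∀ z, ‖z - w‖ ≤ 2 * δ → z ∈ Ω) :
    ∃ h : ℂ, ‖h‖ ≤ α ∧ (w + h) + a (w + h) = w := by
  have h3 : α / δ ≤ 1 / 2 := by rw [div_le_iff₀ hδ]; linarith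
  let T : ℂ → ℂ := fun z => w - a z
  have hmaps : MapsTo T (closedBall w δ) (closedBall w δ) := by
    intro z hz
    have hz' : ‖z - w‖ ≤ δ := by simpa [dist_eq_norm] using hz
    have := hb z (hball z (by linarith))
    simp only [T, mem_closedBall, dist_eq_norm, sub_sub_cancel_left, norm_neg]
    linarith
  have hcon : ContractingWith (1 / 2) (hmaps.restrict T _ _) := by
    refine ⟨by norm_num, ?_⟩
    apply LipschitzWith.of_dist_le_mul
    intro x y
    have hx : ‖(x : ℂ) - w‖ ≤ δ := by have := x.2; rwa [mem_closedBall, dist_eq_norm] at this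
    have hy : ‖(y : ℂ) - w‖ ≤ δ := by have := y.2; rwa [mem_closedBall, dist_eq_norm] at this
    have h := lipL hΩ ha hb hδ hball hy hx
    rw [Subtype.dist_eq, Subtype.dist_eq, dist_eq_norm, dist_eq_norm]
    simp only [MapsTo.val_restrict_apply, T]
    calc ‖w - a x - (w - a y)‖ = ‖a y - a x‖ := by ring_nf
      _ ≤ α / δ * ‖(y : ℂ) - x‖ := h
      _ ≤ 1 / 2 * ‖(y : ℂ) - x‖ := by gcongr
      _ = _ := by rw [norm_sub_rev]; norm_num
  obtain ⟨y, hy, hfix, -⟩ := ContractingWith.exists_fixedPoint' (isClosed_closedBall.isComplete)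
    hmaps hcon (x := w) (by simp [hδ.le]) (by simp [edist_ne_top])
  have hy' : ‖y - w‖ ≤ δ := by simpa [dist_eq_norm] using hy
  have hfix' : w - a y = y := hfix
  refine ⟨y - w, ?_, ?_⟩
  · have : y - w = - a y := by rw [← hfix']; rw [hfix']; linear_combination -hfix'
    rw [this, norm_neg]
    exact hb y (hball y (by linarith))
  · have : w + (y - w) = y := by ring
    rw [this]
    linear_combination -hfix'

theorem Fam.inv (h : Fam d Ω α a) (hd : ∀ i j, 0 ≤ d i j)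
    (hΩ : IsOpen Ω) (hΩ' : IsOpen Ω') (hδ : 0 < δ) (hα : α ≤ δ / 2) (hα0 : 0 ≤ α)
    (hco : ∀ᶠ w in Bornology.cobounded ℂ, w ∈ Ω')
    (hs : Sh (2 * δ) Ω' Ω) :
    ∃ h : ι → ℂ → ℂ, Fam d Ω' (2 * α) h ∧
      ∀ i, ∀ w ∈ Ω', (w + h i w) + a i (w + h i w) = w := by
  classical
  have hex : ∀ i, ∀ w ∈ Ω', ∃ h : ℂ, ‖h‖ ≤ α ∧ (w + h) + a i (w + h) = w :=
    fun i w hw => inv_point hΩ (h.diff i) (h.bd i) hδ hα (hs w hw)
  choose! g hg using hex
  have hgb : ∀ i, ∀ w ∈ Ω', ‖g i w‖ ≤ α := fun i w hw => (hg i w hw).1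
  have hge : ∀ i, ∀ w ∈ Ω', (w + g i w) + a i (w + g i w) = w := fun i w hw => (hg i w hw).2
  have hcont : ∀ i, ∀ w ∈ Ω', ContinuousAt (fun w => w + g i w) w := by
    intro i w hw
    rw [Metric.continuousAt_iff]
    intro ε hε
    obtain ⟨r, hr, hrs⟩ := Metric.isOpen_iff.1 hΩ' w hw
    refine ⟨min r (min (δ / 2) (ε / 2)), by positivity, ?_⟩
    intro y hy
    have hy1 : y ∈ Ω' := hrs (lt_of_lt_of_le hy (min_le_left _ _))
    have hy2 : dist y w < δ / 2 :=
      lt_of_lt_of_le hy ((min_le_right _ _).trans (min_le_left _ _))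
    have hy3 : dist y w < ε / 2 :=
      lt_of_lt_of_le hy ((min_le_right _ _).trans (min_le_right _ _))
    rw [dist_eq_norm] at hy2 hy3 ⊢
    have hb1 := hgb i y hy1
    have hb2 := hgb i w hw
    have := near_inj hΩ (h.diff i) (h.bd i) hδ hα (hs w hw) (z1 := y + g i y) (z2 := w + g i w)
      (by
        calc ‖y + g i y - w‖ = ‖(y - w) + g i y‖ := by ring_nf
          _ ≤ ‖y - w‖ + ‖g i y‖ := norm_add_le _ _
          _ ≤ δ := by linarith)
      (by simpa using by linarith)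
    rw [hge i y hy1, hge i w hw] at this
    linarith
  refine ⟨g, ⟨?_, ?_, ?_, ?_⟩, hge⟩
  · intro i w hw
    have hmem : w + g i w ∈ Ω := by
      apply hs w hw
      have := hgb i w hw
      simp only [add_sub_cancel_left]
      linarith
    have hda : DifferentiableAt ℂ (a i) (w + g i w) :=
      ((h.diff i) _ hmem).differentiableAt (hΩ.mem_nhds hmem)
    have hder : HasDerivAt (fun z => z + a i z) (1 + deriv (a i) (w + g i w)) (w + g i w) :=
      (hasDerivAt_id _).add hda.hasDerivAt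
    have hne : (1 + deriv (a i) (w + g i w)) ≠ 0 := by
      intro h0
      have hn : ‖deriv (a i) (w + g i w)‖ ≤ α / δ := by
        apply Complex.norm_deriv_le_of_forall_mem_sphere_norm_le hδ
        · apply DifferentiableOn.diffContOnCl
          rw [closure_ball _ hδ.ne']
          apply (h.diff i).mono
          intro y hy
          have hy' : ‖y - (w + g i w)‖ ≤ δ := by simpa [dist_eq_norm] using hy
          apply hs w hw
          calc ‖y - w‖ = ‖(y - (w + g i w)) + g i w‖ := by ring_nf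
            _ ≤ ‖y - (w + g i w)‖ + ‖g i w‖ := norm_add_le _ _
            _ ≤ 2 * δ := by have := hgb i w hw; linarith
        · intro y hy
          have hy' : ‖y - (w + g i w)‖ ≤ δ := by
            have := sphere_subset_closedBall hy
            simpa [dist_eq_norm] using this
          apply h.bd i
          apply hs w hw
          calc ‖y - w‖ = ‖(y - (w + g i w)) + g i w‖ := by ring_nf
            _ ≤ ‖y - (w + g i w)‖ + ‖g i w‖ := norm_add_le _ _
            _ ≤ 2 * δ := by have := hgb i w hw; linarith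
      have h3 : α / δ ≤ 1 / 2 := by rw [div_le_iff₀ hδ]; linarith
      have h4 : deriv (a i) (w + g i w) = -1 := by linear_combination h0
      rw [h4] at hn
      norm_num at hn
      linarith
    have hloc : ∀ᶠ y in 𝓝 w, (fun z => z + a i z) ((fun w => w + g i w) y) = y := by
      filter_upwards [hΩ'.mem_nhds hw] with y hy
      exact hge i y hy
    have hd1 := HasDerivAt.of_local_left_inverse (hcont i w hw) hder hne hloc
    have hd2 : DifferentiableAt ℂ (fun w => (w + g i w) - w) w :=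
      hd1.differentiableAt.sub differentiableAt_id
    have : (fun w => (w + g i w) - w) = g i := by funext w; ring
    rw [this] at hd2
    exact hd2.differentiableWithinAt
  · intro i w hw
    linarith [hgb i w hw]
  · intro i j w hw
    have hmem : ∀ i, w + g i w ∈ Ω := by
      intro i
      apply hs w hw
      have := hgb i w hw
      simp only [add_sub_cancel_left]
      linarith
    have h1 := h.lip i j _ (hmem i)
    have h2 := lipL hΩ (h.diff j) (h.bd j) hδ (hs w hw)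
      (z1 := w + g i w) (z2 := w + g j w)
      (by simpa using (hgb i w hw).trans (by linarith))
      (by simpa using (hgb j w hw).trans (by linarith))
    simp only [add_sub_add_left_eq_sub] at h2
    have h3 : α / δ ≤ 1 / 2 := by rw [div_le_iff₀ hδ]; linarith
    have h4 : ‖g i w - g j w‖ ≤ α * d i j + 1 / 2 * ‖g i w - g j w‖ := by
      calc ‖g i w - g j w‖ = ‖-(a i (w + g i w) - a j (w + g i w))
            - (a j (w + g i w) - a j (w + g j w))‖ := by
            congr 1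
            linear_combination hge i w hw - hge j w hw
        _ ≤ ‖-(a i (w + g i w) - a j (w + g i w))‖ + ‖a j (w + g i w) - a j (w + g j w)‖ :=
            norm_sub_le _ _
        _ ≤ α * d i j + α / δ * ‖g i w - g j w‖ := by rw [norm_neg]; gcongr
        _ ≤ α * d i j + 1 / 2 * ‖g i w - g j w‖ := by gcongr
    have := hd i j
    nlinarith
  · intro i
    -- `w + g i w → ∞` because `g` is bounded
    have hbig : Tendsto (fun w => w + g i w) (Bornology.cobounded ℂ)
        (Bornology.cobounded ℂ) := by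
      rw [← tendsto_norm_atTop_iff_cobounded]
      have h1 : Tendsto (fun w : ℂ => ‖w‖ - α) (Bornology.cobounded ℂ) atTop :=
        tendsto_atTop_add_const_right _ _ tendsto_norm_cobounded_atTop
      refine tendsto_atTop_mono' _ ?_ h1
      filter_upwards [hco] with w hw
      have h2 := hgb i w hw
      have := norm_sub_norm_le w (-(g i w))
      rw [norm_neg, sub_neg_eq_add] at this
      linarith
    have h1 := ((h.lim i).comp hbig).neg
    rw [neg_zero] at h1
    refine h1.congr' ?_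
    filter_upwards [hco] with w hw
    have := hge i w hw
    simp only [Function.comp]
    linear_combination -this

end fam

end V1

section V2
open Complex Set Filter Topology Metric

/-- abstract geometry for the splitting -/
structure Geo (X A B : ℝ → Set ℂ) : Prop where
  oX : ∀ t, IsOpen (X t)
  oA : ∀ t, IsOpen (A t)
  oB : ∀ t, IsOpen (B t)
  sX : ∀ t δ, 0 ≤ δ → Sh δ (X (t + δ)) (X t)
  sA : ∀ t δ, 0 ≤ δ → Sh δ (A (t + δ)) (A t)
  sB : ∀ t δ, 0 ≤ δ → Sh δ (B (t + δ)) (B t)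
  XA : ∀ t, X t ⊆ A t
  XB : ∀ t, X t ⊆ B t
  co : ∀ t, ∀ᶠ w in Bornology.cobounded ℂ, w ∈ X t

section
variable {ι : Type} {d : ι → ι → ℝ} {X A B : ℝ → Set ℂ} {Λ : ℝ}

theorem newton_step (G : Geo X A B) (hd : ∀ i j, 0 ≤ d i j) (hΛ : 1 ≤ Λ)
    (hS : ∀ (t δ α : ℝ) (e : ι → ℂ → ℂ), 0 ≤ t → 0 < δ → t + δ ≤ 1 → 0 ≤ α → Fam d (X t) α e →
      ∃ a b, Fam d (A (t + δ)) (Λ * α / δ) a ∧ Fam d (B (t + δ)) (Λ * α / δ) b ∧
        ∀ i, ∀ w ∈ X (t + δ), e i w = a i w + b i w)
    {t δ α : ℝ} {e : ι → ℂ → ℂ} (ht : 0 ≤ t) (hδ : 0 < δ) (hδ1 : δ ≤ 1)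
    (htδ : t + 6 * δ ≤ 1) (hα0 : 0 ≤ α)
    (hα : 16 * Λ * α ≤ δ ^ 2) (he : Fam d (X t) α e) :
    ∃ a b e', Fam d (A (t + δ)) (Λ * α / δ) a ∧ Fam d (B (t + δ)) (Λ * α / δ) b ∧
      Fam d (X (t + 6 * δ)) (4 * Λ * α ^ 2 / δ ^ 2) e' ∧
      ∀ i, ∀ w ∈ X (t + 6 * δ), (w + b i w) + e i (w + b i w) = (w + e' i w) + a i (w + e' i w)
      := by
  obtain ⟨a, b', ha, hb', hsplit⟩ := hS t δ α e ht hδ (by linarith) hα0 he
  set β := Λ * α / δ with hβdef
  have hβ0 : 0 ≤ β := by positivity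
  have hβδ : β ≤ δ / 16 := by
    rw [hβdef, div_le_iff₀ hδ]; nlinarith
  have hαδ : α ≤ δ / 16 := by
    have h1 : α ≤ Λ * α := by nlinarith
    nlinarith
  have hb := hb'.neg
  set b : ι → ℂ → ℂ := fun i w => - b' i w with hbdef
  have hXmono : ∀ s r, s ≤ r → X r ⊆ X s := by
    intro s r hsr
    have := (G.sX s (r - s) (by linarith)).sub (by linarith)
    rwa [add_sub_cancel] at this
  -- inverse of 1 + a
  obtain ⟨h, hh, hhe⟩ := ha.inv (Ω' := A (t + 3 * δ)) (δ := δ) hd (G.oA _) (G.oA _) hδ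
    (by linarith) hβ0 ((G.co _).mono fun w hw => G.XA _ hw)
    (by
      have := G.sA (t + δ) (2 * δ) (by positivity)
      have e1 : t + δ + 2 * δ = t + 3 * δ := by ring
      rwa [e1] at this)
  -- composition γ ∘ (1 + b)
  have hbX : Fam d (X (t + 2 * δ)) β b :=
    hb.mono ((hXmono (t + δ) (t + 2 * δ) (by linarith)).trans (G.XB _))
  have hc := he.comp hbX hd (G.oX _) hδ (by linarith) hβ0 hα0 (G.sX t (2 * δ) (by positivity))
  have hx := he.incr hbX hd (G.oX _) hδ (by linarith) hβ0 hα0 (G.sX t (2 * δ) (by positivity))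
  set c : ι → ℂ → ℂ := fun i w => b i w + e i (w + b i w) with hcdef
  have hγ1 : α * β / δ ≤ α / 16 := by
    have : β / δ ≤ 1 / 16 := by rw [div_le_iff₀ hδ]; linarith
    calc α * β / δ = α * (β / δ) := by ring
      _ ≤ α * (1 / 16) := by gcongr
      _ = _ := by ring
  have hγ0 : 0 ≤ α * β / δ := by positivity
  set γ := α + β + α * β / δ with hγdef
  have hγ : γ ≤ δ / 4 := by rw [hγdef]; linarith
  have hcX : Fam d (X (t + 6 * δ)) γ c := hc.mono (hXmono _ _ (by linarith))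
  have he' := hh.comp hcX hd (G.oA _) hδ (by linarith) (by positivity) (by positivity)
    (by
      intro w hw z hz
      apply G.XA
      apply hXmono (t + 3 * δ) (t + 4 * δ) (by linarith)
      have := G.sX (t + 4 * δ) (2 * δ) (by positivity)
      apply this w _ z hz
      have e1 : t + 4 * δ + 2 * δ = t + 6 * δ := by ring
      rwa [e1])
  set e' : ι → ℂ → ℂ := fun i w => c i w + h i (w + c i w) with he'def
  have hcrude : 2 * β + γ + 2 * β * γ / δ ≤ δ := by
    have h1 : γ / δ ≤ 1 / 4 := by rw [div_le_iff₀ hδ]; linarith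
    have h2 : 2 * β * γ / δ ≤ 2 * β * (1 / 4) := by
      calc 2 * β * γ / δ = 2 * β * (γ / δ) := by ring
        _ ≤ _ := by gcongr
    linarith
  have he'b : ∀ i, ∀ w ∈ X (t + 6 * δ), ‖e' i w‖ ≤ δ := fun i w hw =>
    (he'.bd i w hw).trans hcrude
  -- relation
  have hrel : ∀ i, ∀ w ∈ X (t + 6 * δ),
      (w + b i w) + e i (w + b i w) = (w + e' i w) + a i (w + e' i w) := by
    intro i w hw
    have hmem : w + c i w ∈ A (t + 3 * δ) := by
      apply G.XA
      have := G.sX (t + 3 * δ) (3 * δ) (by positivity)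
      have e1 : t + 3 * δ + 3 * δ = t + 6 * δ := by ring
      rw [e1] at this
      apply this w hw
      have := hcX.bd i w hw
      simp only [add_sub_cancel_left]
      linarith
    have h1 := hhe i _ hmem
    have h2 : w + e' i w = w + c i w + h i (w + c i w) := by simp only [he'def]; ring
    rw [h2, h1]
    simp only [hcdef]; ring
  have hid : ∀ i, ∀ w ∈ X (t + 6 * δ),
      e' i w = (e i (w + b i w) - e i w) - (a i (w + e' i w) - a i w) := by
    intro i w hw
    have h1 := hrel i w hw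
    have h2 := hsplit i w (hXmono (t + δ) (t + 6 * δ) (by linarith) hw)
    have h3 : b i w = - b' i w := rfl
    linear_combination -h1 + h2 + h3
  have hballA : ∀ w ∈ X (t + 6 * δ), ∀ z : ℂ, ‖z - w‖ ≤ 2 * δ → z ∈ A (t + δ) := by
    intro w hw z hz
    apply G.XA
    have := G.sX (t + δ) (5 * δ) (by positivity)
    have e1 : t + δ + 5 * δ = t + 6 * δ := by ring
    rw [e1] at this
    exact this w hw z (by linarith)
  have hβδ' : β / δ ≤ 1 / 16 := by rw [div_le_iff₀ hδ]; linarith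
  have hval : 2 * α * β / δ = 2 * (Λ * α ^ 2 / δ ^ 2) := by rw [hβdef]; field_simp
  have hbd : ∀ i, ∀ w ∈ X (t + 6 * δ), ‖e' i w‖ ≤ 16 / 15 * (2 * (Λ * α ^ 2 / δ ^ 2)) := by
    intro i w hw
    have h1 := hx.bd i w (hXmono _ _ (by linarith) hw)
    have h2 := lipL (G.oA _) (ha.diff i) (ha.bd i) hδ (hballA w hw) (z1 := w + e' i w) (z2 := w)
      (by simpa using he'b i w hw) (by simpa using hδ.le)
    rw [add_sub_cancel_left] at h2
    have h3 : ‖e' i w‖ ≤ 2 * α * β / δ + β / δ * ‖e' i w‖ := by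
      calc ‖e' i w‖ = ‖(e i (w + b i w) - e i w) - (a i (w + e' i w) - a i w)‖ := by
            rw [← hid i w hw]
        _ ≤ ‖e i (w + b i w) - e i w‖ + ‖a i (w + e' i w) - a i w‖ := norm_sub_le _ _
        _ ≤ _ := add_le_add h1 h2
    have h4 : β / δ * ‖e' i w‖ ≤ 1 / 16 * ‖e' i w‖ := by gcongr
    rw [hval] at h3
    linarith
  have hT0 : 0 ≤ Λ * α ^ 2 / δ ^ 2 := by positivity
  have hlip : ∀ i j, ∀ w ∈ X (t + 6 * δ),
      ‖e' i w - e' j w‖ ≤ 4 * Λ * α ^ 2 / δ ^ 2 * d i j := by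
    intro i j w hw
    have h1 := hx.lip i j w (hXmono _ _ (by linarith) hw)
    have h2 := lipL (G.oA _) ((ha.diff i).sub (ha.diff j)) (ha.lip i j) hδ (hballA w hw)
      (z1 := w + e' i w) (z2 := w)
      (by simpa using he'b i w hw) (by simpa using hδ.le)
    have h3 := lipL (G.oA _) (ha.diff j) (ha.bd j) hδ (hballA w hw)
      (z1 := w + e' i w) (z2 := w + e' j w)
      (by simpa using he'b i w hw) (by simpa using he'b j w hw)
    simp only [add_sub_cancel_left, Pi.sub_apply] at h2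
    simp only [add_sub_add_left_eq_sub] at h3
    have hdd := hd i j
    have h4 : ‖e' i w - e' j w‖ ≤ 2 * α * β / δ * d i j + β * d i j / δ * ‖e' i w‖
        + β / δ * ‖e' i w - e' j w‖ := by
      calc ‖e' i w - e' j w‖ = ‖(e i (w + b i w) - e i w - (e j (w + b j w) - e j w))
            - (a i (w + e' i w) - a j (w + e' i w) - (a i w - a j w))
            - (a j (w + e' i w) - a j (w + e' j w))‖ := by
            congr 1
            linear_combination hid i w hw - hid j w hw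
        _ ≤ ‖(e i (w + b i w) - e i w - (e j (w + b j w) - e j w))
            - (a i (w + e' i w) - a j (w + e' i w) - (a i w - a j w))‖
            + ‖(a j (w + e' i w) - a j (w + e' j w))‖ := norm_sub_le _ _
        _ ≤ ‖(e i (w + b i w) - e i w - (e j (w + b j w) - e j w))‖
            + ‖(a i (w + e' i w) - a j (w + e' i w) - (a i w - a j w))‖
            + ‖(a j (w + e' i w) - a j (w + e' j w))‖ := by
            gcongr; exact norm_sub_le _ _
        _ ≤ _ := add_le_add (add_le_add h1 h2) h3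
    have h5 : β * d i j / δ * ‖e' i w‖ ≤ 1 / 16 * d i j * (16 / 15 * (2 * (Λ * α ^ 2 / δ ^ 2)))
        := by
      calc β * d i j / δ * ‖e' i w‖ = β / δ * d i j * ‖e' i w‖ := by ring
        _ ≤ _ := by gcongr; exact hbd i w hw
    have h6 : β / δ * ‖e' i w - e' j w‖ ≤ 1 / 16 * ‖e' i w - e' j w‖ := by gcongr
    rw [hval] at h4
    have h7 : 4 * Λ * α ^ 2 / δ ^ 2 * d i j = 4 * (Λ * α ^ 2 / δ ^ 2 * d i j) := by ring
    have h8 : 2 * (Λ * α ^ 2 / δ ^ 2) * d i j = 2 * (Λ * α ^ 2 / δ ^ 2 * d i j) := by ring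
    have h9 : 1 / 16 * d i j * (16 / 15 * (2 * (Λ * α ^ 2 / δ ^ 2)))
        = 2 / 15 * (Λ * α ^ 2 / δ ^ 2 * d i j) := by ring
    have h10 : 0 ≤ Λ * α ^ 2 / δ ^ 2 * d i j := by positivity
    rw [h7]
    rw [h8] at h4
    rw [h9] at h5
    linarith
  refine ⟨a, b, e', ha, hb, ⟨he'.diff, ?_, hlip, he'.lim⟩, hrel⟩
  intro i w hw
  have := hbd i w hw
  calc ‖e' i w‖ ≤ 16 / 15 * (2 * (Λ * α ^ 2 / δ ^ 2)) := this
    _ ≤ 4 * (Λ * α ^ 2 / δ ^ 2) := by linarith
    _ = _ := by ring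

end

end V2

section V3
open Complex Set Filter Topology Metric

theorem limit_seq {Ω : Set ℂ} (hΩ : IsOpen Ω) {C : ℝ} {p : ℕ → ℂ → ℂ}
    (hd : ∀ n, DifferentiableOn ℂ (p n) Ω)
    (hc : ∀ n, ∀ w ∈ Ω, ‖p (n + 1) w - p n w‖ ≤ C / 2 / 2 ^ n) :
    ∃ q : ℂ → ℂ, DifferentiableOn ℂ q Ω ∧ (∀ n, ∀ w ∈ Ω, ‖p n w - q w‖ ≤ C / 2 ^ n) ∧
      (∀ w ∈ Ω, Tendsto (fun n => p n w) atTop (𝓝 (q w))) := by
  have h1 : ∀ w ∈ Ω, ∃ l, Tendsto (fun n => p n w) atTop (𝓝 l) := by
    intro w hw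
    apply cauchySeq_tendsto_of_complete
    apply cauchySeq_of_le_geometric_two (C := C)
    intro n
    rw [dist_comm, dist_eq_norm]
    exact hc n w hw
  choose! q hq using h1
  have h2 : ∀ n, ∀ w ∈ Ω, ‖p n w - q w‖ ≤ C / 2 ^ n := by
    intro n w hw
    rw [← dist_eq_norm]
    apply dist_le_of_le_geometric_two_of_tendsto (f := fun n => p n w) (C := C) _ (hq w hw)
    intro n
    rw [dist_comm, dist_eq_norm]
    exact hc n w hw
  refine ⟨q, ?_, h2, hq⟩
  have hu : TendstoUniformlyOn p q atTop Ω := by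
    rw [Metric.tendstoUniformlyOn_iff]
    intro ε hε
    have h3 : Tendsto (fun n : ℕ => C / 2 ^ n) atTop (𝓝 0) := by
      have : Tendsto (fun n : ℕ => C * (1 / 2) ^ n) atTop (𝓝 (C * 0)) :=
        (tendsto_pow_atTop_nhds_zero_of_lt_one (by norm_num) (by norm_num)).const_mul C
      rw [mul_zero] at this
      refine this.congr (fun n => ?_)
      rw [one_div, inv_pow]; rfl
    filter_upwards [h3.eventually_lt_const hε] with n hn w hw
    rw [dist_comm, dist_eq_norm]
    exact lt_of_le_of_lt (h2 n w hw) hn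
  exact hu.tendstoLocallyUniformlyOn.differentiableOn (Eventually.of_forall hd) hΩ

section
variable {ι : Type} {d : ι → ι → ℝ} {X A B : ℝ → Set ℂ} {Λ : ℝ}

noncomputable def tt (n : ℕ) : ℝ := 3 / 4 * (1 - (1 / 2) ^ n)
noncomputable def dd (n : ℕ) : ℝ := 1 / 16 * (1 / 2) ^ n

theorem tt_zero : tt 0 = 0 := by simp [tt]
theorem tt_succ (n : ℕ) : tt (n + 1) = tt n + 6 * dd n := by
  unfold tt dd; rw [pow_succ]; ring
theorem dd_pos (n : ℕ) : 0 < dd n := by unfold dd; positivity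
theorem dd_le (n : ℕ) : dd n ≤ 1 := by
  unfold dd
  have : (1 / 2 : ℝ) ^ n ≤ 1 := pow_le_one₀ (by norm_num) (by norm_num)
  linarith
theorem tt_nonneg (n : ℕ) : 0 ≤ tt n := by
  unfold tt
  have : (1 / 2 : ℝ) ^ n ≤ 1 := pow_le_one₀ (by norm_num) (by norm_num)
  linarith
theorem tt_lt (n : ℕ) : tt n < 3 / 4 := by
  unfold tt
  have : (0 : ℝ) < (1 / 2 : ℝ) ^ n := by positivity
  linarith

/-- infinite right composition -/
noncomputable def PP (b : ℕ → ι → ℂ → ℂ) : ℕ → ι → ℂ → ℂ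
  | 0 => fun _ _ => 0
  | (n + 1) => fun i w => b n i w + PP b n i (w + b n i w)

theorem prod_limit (S : ℝ → Set ℂ) (oS : ∀ t, IsOpen (S t))
    (sS : ∀ t δ, 0 ≤ δ → Sh δ (S (t + δ)) (S t)) (hd : ∀ i j, 0 ≤ d i j)
    (hco : ∀ t, ∀ᶠ w in Bornology.cobounded ℂ, w ∈ S t)
    {β : ℝ} (hβ0 : 0 ≤ β) (hβ : β ≤ 1 / 64) (b : ℕ → ι → ℂ → ℂ)
    (hb : ∀ n, Fam d (S (tt n + dd n)) (β * (1 / 4) ^ n) (b n)) :
    (∀ n, Fam d (S (tt n)) (4 * β * (1 - (1 / 2) ^ n)) (PP b n)) ∧
    ∃ q, Fam d (S (3 / 4)) (4 * β) q ∧ ∀ n, ∀ i, ∀ w ∈ S (3 / 4),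
      ‖PP b n i w - q i w‖ ≤ 4 * β / 2 ^ n := by
  have hmono : ∀ s r, s ≤ r → S r ⊆ S s := by
    intro s r hsr
    have := (sS s (r - s) (by linarith)).sub (by linarith)
    rwa [add_sub_cancel] at this
  have hsh : ∀ n, Sh (2 * dd n) (S (tt (n + 1))) (S (tt n)) := by
    intro n
    have h1 := sS (tt n) (6 * dd n) (by have := dd_pos n; positivity)
    rw [← tt_succ] at h1
    exact h1.mono (by have := dd_pos n; linarith)
  have hb' : ∀ n, Fam d (S (tt (n + 1))) (β * (1 / 4) ^ n) (b n) := fun n =>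
    (hb n).mono (hmono _ _ (by rw [tt_succ]; have := dd_pos n; linarith))
  have hle : ∀ n : ℕ, β * (1 / 4) ^ n ≤ dd n := by
    intro n
    unfold dd
    have h1 : ((1 : ℝ) / 4) ^ n ≤ (1 / 2) ^ n := by gcongr; norm_num
    have h2 : (0 : ℝ) < (1 / 2) ^ n := by positivity
    calc β * (1 / 4) ^ n ≤ 1 / 16 * (1 / 2) ^ n := by
          apply mul_le_mul (by linarith) h1 (by positivity) (by norm_num)
      _ = _ := by ring
  have hp1 : ∀ n : ℕ, 0 ≤ 1 - ((1 : ℝ) / 2) ^ n := by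
    intro n
    have : (1 / 2 : ℝ) ^ n ≤ 1 := pow_le_one₀ (by norm_num) (by norm_num)
    linarith
  have hq : ∀ n : ℕ, 4 * β * (1 - (1 / 2) ^ n) / dd n * (β * (1 / 4) ^ n) ≤ β * (1 / 2) ^ n := by
    intro n
    have h1 : 4 * β * (1 - (1 / 2) ^ n) / dd n ≤ 2 ^ n := by
      rw [div_le_iff₀ (dd_pos n)]
      unfold dd
      have h3 : (2 : ℝ) ^ n * (1 / 16 * (1 / 2) ^ n) = 1 / 16 := by
        have : (2 : ℝ) ^ n * (1 / 2) ^ n = 1 := by rw [← mul_pow]; norm_num
        linear_combination 1 / 16 * this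
      rw [h3]
      have h4 : (0 : ℝ) < (1 / 2) ^ n := by positivity
      nlinarith
    have h2 : (2 : ℝ) ^ n * (1 / 4) ^ n = (1 / 2) ^ n := by rw [← mul_pow]; norm_num
    calc 4 * β * (1 - (1 / 2) ^ n) / dd n * (β * (1 / 4) ^ n) ≤ 2 ^ n * (β * (1 / 4) ^ n) := by
          gcongr
      _ = β * (2 ^ n * (1 / 4) ^ n) := by ring
      _ = β * (1 / 2) ^ n := by rw [h2]
  have h14 : ∀ n : ℕ, ((1 : ℝ) / 4) ^ n ≤ (1 / 2) ^ n := by
    intro n; gcongr; norm_num
  have hF : ∀ n, Fam d (S (tt n)) (4 * β * (1 - (1 / 2) ^ n)) (PP b n) := by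
    intro n
    induction n with
    | zero =>
      refine ⟨fun i => differentiableOn_const _, fun i w hw => by simp [PP],
        fun i j w hw => by simp [PP], fun i => by simp [PP]⟩
    | succ n ih =>
      have h1 := ih.comp (hb' n) hd (oS _) (dd_pos n) (hle n) (by positivity)
        (by have := hp1 n; positivity) (hsh n)
      refine Fam.le h1 hd ?_
      have h2 := hq n
      have h3 : 4 * β * (1 - (1 / 2) ^ n) * (β * (1 / 4) ^ n) / dd n
          = 4 * β * (1 - (1 / 2) ^ n) / dd n * (β * (1 / 4) ^ n) := by ring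
      rw [h3, pow_succ]
      have h4 := mul_le_mul_of_nonneg_left (h14 n) hβ0
      nlinarith
  refine ⟨hF, ?_⟩
  have hinc : ∀ n, ∀ i, ∀ w ∈ S (3 / 4), ‖PP b (n + 1) i w - PP b n i w‖
      ≤ 4 * β / 2 / 2 ^ n := by
    intro n i w hw
    have hw' : w ∈ S (tt (n + 1)) := hmono _ _ (tt_lt (n + 1)).le hw
    have hbn := (hb' n).bd i w hw'
    have h1 := lipL (oS _) ((hF n).diff i) ((hF n).bd i) (dd_pos n) (hsh n w hw')
      (z1 := w + b n i w) (z2 := w) (by simpa using hbn.trans (hle n))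
      (by simpa using (dd_pos n).le)
    rw [add_sub_cancel_left] at h1
    have hpos : 0 ≤ 4 * β * (1 - (1 / 2) ^ n) / dd n := by
      have := hp1 n; have := dd_pos n; positivity
    have h2 : ‖PP b n i (w + b n i w) - PP b n i w‖ ≤ β * (1 / 2) ^ n :=
      h1.trans ((mul_le_mul_of_nonneg_left hbn hpos).trans (hq n))
    have h3 : (4 * β / 2 / 2 ^ n : ℝ) = 2 * (β * (1 / 2) ^ n) := by
      rw [one_div, inv_pow]; field_simp; ring
    rw [h3]
    calc ‖PP b (n + 1) i w - PP b n i w‖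
        = ‖b n i w + (PP b n i (w + b n i w) - PP b n i w)‖ := by
          simp only [PP]; ring_nf
      _ ≤ ‖b n i w‖ + ‖PP b n i (w + b n i w) - PP b n i w‖ := norm_add_le _ _
      _ ≤ β * (1 / 4) ^ n + β * (1 / 2) ^ n := add_le_add hbn h2
      _ ≤ 2 * (β * (1 / 2) ^ n) := by
        have := mul_le_mul_of_nonneg_left (h14 n) hβ0
        linarith
  have hlim := fun i => limit_seq (oS (3 / 4)) (C := 4 * β) (p := fun n => PP b n i)
    (fun n => ((hF n).diff i).mono (hmono _ _ (tt_lt n).le))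
    (fun n w hw => hinc n i w hw)
  choose q hq1 hq2 hq3 using hlim
  have hle4 : ∀ n : ℕ, 4 * β * (1 - (1 / 2) ^ n) ≤ 4 * β := by
    intro n
    have : (0 : ℝ) < (1 / 2) ^ n := by positivity
    nlinarith
  refine ⟨q, ⟨hq1, ?_, ?_, ?_⟩, fun n i w hw => hq2 i n w hw⟩
  · intro i w hw
    refine le_of_tendsto (hq3 i w hw).norm (Eventually.of_forall fun n => ?_)
    exact ((hF n).bd i w (hmono _ _ (tt_lt n).le hw)).trans (hle4 n)
  · intro i j w hw
    refine le_of_tendsto ((hq3 i w hw).sub (hq3 j w hw)).norm (Eventually.of_forall fun n => ?_)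
    exact ((hF n).lip i j w (hmono _ _ (tt_lt n).le hw)).trans
      (mul_le_mul_of_nonneg_right (hle4 n) (hd i j))
  · intro i
    rw [Metric.tendsto_nhds]
    intro ε hε
    have h3 : Tendsto (fun n : ℕ => 4 * β / 2 ^ n) atTop (𝓝 0) := by
      have : Tendsto (fun n : ℕ => 4 * β * (1 / 2) ^ n) atTop (𝓝 (4 * β * 0)) :=
        (tendsto_pow_atTop_nhds_zero_of_lt_one (by norm_num) (by norm_num)).const_mul _
      rw [mul_zero] at this
      refine this.congr (fun n => ?_)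
      rw [one_div, inv_pow]; rfl
    obtain ⟨n, hn⟩ := (h3.eventually_lt_const (half_pos hε)).exists
    have h4 := (Metric.tendsto_nhds.1 ((hF n).lim i)) (ε / 2) (half_pos hε)
    filter_upwards [h4, hco (3 / 4)] with w hw1 hw2
    have h5 := hq2 i n w hw2
    rw [dist_zero_right] at hw1 ⊢
    calc ‖q i w‖ = ‖PP b n i w - (PP b n i w - q i w)‖ := by ring_nf
      _ ≤ ‖PP b n i w‖ + ‖PP b n i w - q i w‖ := norm_sub_le _ _
      _ < ε := by linarith

/-- Nonlinear splitting of near-identity families. -/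
theorem cousin (G : Geo X A B) (hd : ∀ i j, 0 ≤ d i j) (hΛ : 1 ≤ Λ)
    (hS : ∀ (t δ α : ℝ) (e : ι → ℂ → ℂ), 0 ≤ t → 0 < δ → t + δ ≤ 1 → 0 ≤ α → Fam d (X t) α e →
      ∃ a b, Fam d (A (t + δ)) (Λ * α / δ) a ∧ Fam d (B (t + δ)) (Λ * α / δ) b ∧
        ∀ i, ∀ w ∈ X (t + δ), e i w = a i w + b i w)
    {α : ℝ} {e : ι → ℂ → ℂ} (hα0 : 0 ≤ α) (hα : 8192 * Λ * α ≤ 1) (he : Fam d (X 0) α e) :
    ∃ p q : ι → ℂ → ℂ, Fam d (B 1) (64 * Λ * α) p ∧ Fam d (A 1) (64 * Λ * α) q ∧
      ∀ i, ∀ w ∈ X 1, (w + p i w) + e i (w + p i w) = w + q i w := by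
  have hXmono : ∀ s r, s ≤ r → X r ⊆ X s := by
    intro s r hsr
    have := (G.sX s (r - s) (by linarith)).sub (by linarith)
    rwa [add_sub_cancel] at this
  have hAmono : ∀ s r, s ≤ r → A r ⊆ A s := by
    intro s r hsr
    have := (G.sA s (r - s) (by linarith)).sub (by linarith)
    rwa [add_sub_cancel] at this
  have hBmono : ∀ s r, s ≤ r → B r ⊆ B s := by
    intro s r hsr
    have := (G.sB s (r - s) (by linarith)).sub (by linarith)
    rwa [add_sub_cancel] at this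
  have hstep : ∀ (n : ℕ) (e : ι → ℂ → ℂ), Fam d (X (tt n)) (α * (1 / 8) ^ n) e →
      ∃ a b e', Fam d (A (tt n + dd n)) (16 * Λ * α * (1 / 4) ^ n) a ∧
        Fam d (B (tt n + dd n)) (16 * Λ * α * (1 / 4) ^ n) b ∧
        Fam d (X (tt (n + 1))) (α * (1 / 8) ^ (n + 1)) e' ∧
        ∀ i, ∀ w ∈ X (tt (n + 1)),
          (w + b i w) + e i (w + b i w) = (w + e' i w) + a i (w + e' i w) := by
    intro n e he
    have h8 : (dd n) ^ 2 = 1 / 256 * (1 / 4) ^ n := by
      unfold dd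
      rw [mul_pow, ← pow_mul, mul_comm n 2, pow_mul]
      norm_num
    have h48 : ((1 : ℝ) / 8) ^ n ≤ (1 / 4) ^ n := by gcongr; norm_num
    have h8p : (0 : ℝ) < (1 / 8) ^ n := by positivity
    have h4p : (0 : ℝ) < (1 / 4) ^ n := by positivity
    have hΛα : 0 ≤ Λ * α := by positivity
    have hcond : 32 * Λ * (α * (1 / 8) ^ n) ≤ (dd n) ^ 2 := by
      rw [h8]
      calc 32 * Λ * (α * (1 / 8) ^ n) = 32 * (Λ * α) * (1 / 8) ^ n := by ring
        _ ≤ 1 / 256 * (1 / 4) ^ n := by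
          apply mul_le_mul _ h48 h8p.le (by norm_num)
          linarith
    obtain ⟨a, b, e', ha, hb, he', hr⟩ := newton_step G hd hΛ hS (t := tt n) (δ := dd n)
      (tt_nonneg n) (dd_pos n) (dd_le n) (by rw [← tt_succ]; have := tt_lt (n + 1); linarith)
      (by positivity) (by nlinarith [hcond, mul_nonneg hΛα h8p.le]) he
    rw [← tt_succ] at he' hr
    have hval : Λ * (α * (1 / 8) ^ n) / dd n = 16 * Λ * α * (1 / 4) ^ n := by
      rw [div_eq_iff (dd_pos n).ne']
      unfold dd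
      have : ((1 : ℝ) / 8) ^ n = (1 / 4) ^ n * (1 / 2) ^ n := by rw [← mul_pow]; norm_num
      rw [this]; ring
    rw [hval] at ha hb
    refine ⟨a, b, e', ha, hb, Fam.le he' hd ?_, hr⟩
    rw [div_le_iff₀ (by have := dd_pos n; positivity)]
    calc 4 * Λ * (α * (1 / 8) ^ n) ^ 2 = (α * (1 / 8) ^ (n + 1)) * (32 * Λ * (α * (1 / 8) ^ n))
        := by rw [pow_succ]; ring
      _ ≤ (α * (1 / 8) ^ (n + 1)) * (dd n) ^ 2 := by gcongr
  choose! fa fb fe hfa hfb hfe hfr using hstep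
  let E : ℕ → ι → ℂ → ℂ := fun n => Nat.rec e (fun n e => fe n e) n
  have hE : ∀ n, Fam d (X (tt n)) (α * (1 / 8) ^ n) (E n) := by
    intro n
    induction n with
    | zero => simpa [tt_zero, E] using he
    | succ n ih => exact hfe n (E n) ih
  let a : ℕ → ι → ℂ → ℂ := fun n => fa n (E n)
  let b : ℕ → ι → ℂ → ℂ := fun n => fb n (E n)
  have hΛα : 0 ≤ Λ * α := by positivity
  obtain ⟨hP, p, hp, hpl⟩ := prod_limit B G.oB G.sB hd
    (fun t => (G.co t).mono fun w hw => G.XB t hw) (β := 16 * Λ * α) (by positivity)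
    (by nlinarith) b (fun n => hfb n (E n) (hE n))
  obtain ⟨hQ, q, hq, hql⟩ := prod_limit A G.oA G.sA hd
    (fun t => (G.co t).mono fun w hw => G.XA t hw) (β := 16 * Λ * α) (by positivity)
    (by nlinarith) a (fun n => hfa n (E n) (hE n))
  have hrel : ∀ n, ∀ i, ∀ w ∈ X (tt n), (w + PP b n i w) + e i (w + PP b n i w)
      = (w + E n i w) + PP a n i (w + E n i w) := by
    intro n
    induction n with
    | zero =>
      intro i w hw
      simp [PP, E]
    | succ n ih =>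
      intro i w hw
      have hbn : ‖b n i w‖ ≤ 16 * Λ * α * (1 / 4) ^ n := by
        refine (hfb n (E n) (hE n)).bd i w (hBmono _ _ ?_ (G.XB _ hw))
        rw [tt_succ]; have := dd_pos n; linarith
      have hle : 16 * Λ * α * (1 / 4) ^ n ≤ dd n := by
        unfold dd
        have h1 : ((1 : ℝ) / 4) ^ n ≤ (1 / 2) ^ n := by gcongr; norm_num
        exact mul_le_mul (by nlinarith) h1 (by positivity) (by norm_num)
      have hmem : w + b n i w ∈ X (tt n) := by
        have h1 := G.sX (tt n) (6 * dd n) (by have := dd_pos n; positivity)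
        rw [← tt_succ] at h1
        apply h1 w hw
        simp only [add_sub_cancel_left]
        have := dd_pos n
        linarith
      have h2 := ih i _ hmem
      have h3 := hfr n (E n) (hE n) i w hw
      have e1 : w + PP b (n + 1) i w = (w + b n i w) + PP b n i (w + b n i w) := by
        simp only [PP]; ring
      have e2 : (w + E (n + 1) i w) + PP a (n + 1) i (w + E (n + 1) i w)
          = (w + E (n + 1) i w + a n i (w + E (n + 1) i w))
            + PP a n i (w + E (n + 1) i w + a n i (w + E (n + 1) i w)) := by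
        simp only [PP]; ring
      have h3' : (w + b n i w) + E n i (w + b n i w)
          = (w + E (n + 1) i w) + a n i (w + E (n + 1) i w) := h3
      rw [e1, h2, e2, h3']
  refine ⟨p, q, ?_, ?_, ?_⟩
  · have := hp.mono (hBmono (3 / 4) 1 (by norm_num))
    refine Fam.le this hd (by linarith)
  · have := hq.mono (hAmono (3 / 4) 1 (by norm_num))
    refine Fam.le this hd (by linarith)
  · intro i w hw
    have hw34 : w ∈ X (3 / 4) := hXmono _ _ (by norm_num) hw
    have htn : ∀ n, w ∈ X (tt n) := fun n => hXmono _ _ (tt_lt n).le hw34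
    -- left side
    have hzero : Tendsto (fun n : ℕ => 4 * (16 * Λ * α) / 2 ^ n) atTop (𝓝 0) := by
      have : Tendsto (fun n : ℕ => 4 * (16 * Λ * α) * (1 / 2) ^ n) atTop
          (𝓝 (4 * (16 * Λ * α) * 0)) :=
        (tendsto_pow_atTop_nhds_zero_of_lt_one (by norm_num) (by norm_num)).const_mul _
      rw [mul_zero] at this
      refine this.congr (fun n => ?_)
      rw [one_div, inv_pow]; rfl
    have hPl : Tendsto (fun n => PP b n i w) atTop (𝓝 (p i w)) := by
      rw [tendsto_iff_norm_sub_tendsto_zero]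
      exact squeeze_zero (fun n => norm_nonneg _) (fun n => hpl n i w (G.XB _ hw34)) hzero
    have hmemX : w + p i w ∈ X 0 := by
      have h1 := G.sX 0 1 (by norm_num)
      rw [zero_add] at h1
      apply h1 w hw
      have := hp.bd i w (G.XB _ hw34)
      simp only [add_sub_cancel_left]
      linarith
    have hcont : ContinuousAt (fun z => z + e i z) (w + p i w) :=
      continuousAt_id.add (((he.diff i) _ hmemX).differentiableAt
        ((G.oX 0).mem_nhds hmemX)).continuousAt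
    have hL : Tendsto (fun n => (w + PP b n i w) + e i (w + PP b n i w)) atTop
        (𝓝 ((w + p i w) + e i (w + p i w))) :=
      hcont.tendsto.comp (hPl.const_add w)
    -- right side
    have hEl : Tendsto (fun n => E n i w) atTop (𝓝 0) := by
      apply squeeze_zero_norm (a := fun n : ℕ => α * (1 / 8) ^ n)
        (fun n => (hE n).bd i w (htn n))
      have : Tendsto (fun n : ℕ => α * (1 / 8) ^ n) atTop (𝓝 (α * 0)) :=
        (tendsto_pow_atTop_nhds_zero_of_lt_one (by norm_num) (by norm_num)).const_mul _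
      rwa [mul_zero] at this
    have hQl : Tendsto (fun n => PP a n i (w + E n i w)) atTop (𝓝 (q i w)) := by
      -- `w + E n` stays in `A (3/4)`
      have hmemA : ∀ n, w + E n i w ∈ A (3 / 4) := by
        intro n
        have h1 := G.sA (3 / 4) (1 / 4) (by norm_num)
        have e1 : (3 / 4 + 1 / 4 : ℝ) = 1 := by norm_num
        rw [e1] at h1
        apply h1 w (G.XA _ hw)
        have h2 := (hE n).bd i w (htn n)
        have h3 : α * (1 / 8) ^ n ≤ α * 1 := by
          gcongr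
          exact pow_le_one₀ (by norm_num) (by norm_num)
        simp only [add_sub_cancel_left]
        have : α ≤ Λ * α := by nlinarith
        linarith
      have hqc : ContinuousAt (q i) w := by
        have : w ∈ A (3 / 4) := G.XA _ hw34
        exact (((hq.diff i) _ this).differentiableAt ((G.oA _).mem_nhds this)).continuousAt
      have h1 : Tendsto (fun n => q i (w + E n i w)) atTop (𝓝 (q i w)) := by
        have h2 : Tendsto (fun n => w + E n i w) atTop (𝓝 (w + 0)) := hEl.const_add w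
        rw [add_zero] at h2
        exact hqc.tendsto.comp h2
      have h3 : Tendsto (fun n => PP a n i (w + E n i w) - q i (w + E n i w)) atTop (𝓝 0) := by
        apply squeeze_zero_norm (fun n => hql n i _ (hmemA n)) hzero
      have := h3.add h1
      simpa using this
    have hR : Tendsto (fun n => (w + E n i w) + PP a n i (w + E n i w)) atTop
        (𝓝 (w + q i w)) := by
      have h2 : Tendsto (fun n => w + E n i w) atTop (𝓝 (w + 0)) := hEl.const_add w
      rw [add_zero] at h2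
      exact h2.add hQl
    refine tendsto_nhds_unique hL (hR.congr fun n => ?_)
    exact (hrel n i w (htn n)).symm

end

end V3

section V4
open Complex Set Filter Topology Metric MeasureTheory

noncomputable def HI (f : ℂ → ℂ) (x1 x2 y : ℝ) : ℂ := ∫ x in x1..x2, f ((x : ℂ) + (y : ℂ) * I)
noncomputable def VI (f : ℂ → ℂ) (x y1 y2 : ℝ) : ℂ := ∫ y in y1..y2, f ((x : ℂ) + (y : ℂ) * I)
noncomputable def bd (f : ℂ → ℂ) (x1 x2 y1 y2 : ℝ) : ℂ :=
  HI f x1 x2 y1 - HI f x1 x2 y2 + I * VI f x2 y1 y2 - I * VI f x1 y1 y2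

theorem ii_h {f : ℂ → ℂ} {S : Set ℂ} {x1 x2 y : ℝ} (hf : ContinuousOn f S) (h12 : x1 ≤ x2)
    (h : ∀ x ∈ Icc x1 x2, ((x : ℂ) + (y : ℂ) * I) ∈ S) :
    IntervalIntegrable (fun x : ℝ => f ((x : ℂ) + (y : ℂ) * I)) volume x1 x2 :=
  (ContinuousOn.comp hf (by fun_prop) h).intervalIntegrable_of_Icc h12

theorem ii_v {f : ℂ → ℂ} {S : Set ℂ} {x y1 y2 : ℝ} (hf : ContinuousOn f S) (h12 : y1 ≤ y2)
    (h : ∀ y ∈ Icc y1 y2, ((x : ℂ) + (y : ℂ) * I) ∈ S) :
    IntervalIntegrable (fun y : ℝ => f ((x : ℂ) + (y : ℂ) * I)) volume y1 y2 :=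
  (ContinuousOn.comp hf (by fun_prop) h).intervalIntegrable_of_Icc h12

theorem bd_zero {f : ℂ → ℂ} {x1 x2 y1 y2 : ℝ} (hx : x1 ≤ x2) (hy : y1 ≤ y2)
    (hf : DifferentiableOn ℂ f {s | s.re ∈ Icc x1 x2 ∧ s.im ∈ Icc y1 y2}) :
    bd f x1 x2 y1 y2 = 0 := by
  have := Complex.integral_boundary_rect_eq_zero_of_differentiableOn f
    ((x1 : ℂ) + (y1 : ℂ) * I) ((x2 : ℂ) + (y2 : ℂ) * I) (by
      apply hf.mono
      intro s hs
      simp only [add_re, ofReal_re, mul_re, I_re, mul_zero, ofReal_im, I_im, mul_one, sub_self,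
        add_zero, add_im, mul_im, zero_add, Complex.mem_reProdIm, uIcc_of_le hx,
        uIcc_of_le hy] at hs
      exact hs)
  simp only [add_re, ofReal_re, mul_re, I_re, mul_zero, ofReal_im, I_im, mul_one, sub_self,
        add_zero, add_im, mul_im, zero_add, smul_eq_mul] at this
  exact this

theorem bd_annulus {f : ℂ → ℂ} {x1 x2 y1 y2 a1 a2 b1 b2 : ℝ} (hx1 : x1 ≤ a1) (ha : a1 ≤ a2)
    (hx2 : a2 ≤ x2) (hy1 : y1 ≤ b1) (hb : b1 ≤ b2) (hy2 : b2 ≤ y2)
    (hf : DifferentiableOn ℂ f {s | ¬ (a1 < s.re ∧ s.re < a2 ∧ b1 < s.im ∧ s.im < b2)}) :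
    bd f x1 x2 y1 y2 = bd f a1 a2 b1 b2 := by
  have hc := hf.continuousOn
  have z1 : bd f x1 a1 y1 y2 = 0 := bd_zero hx1 (by linarith) (hf.mono (by
    rintro s ⟨h1, h2⟩ ⟨h3, -⟩; exact absurd h1.2 (by linarith)))
  have z2 : bd f a2 x2 y1 y2 = 0 := bd_zero hx2 (by linarith) (hf.mono (by
    rintro s ⟨h1, h2⟩ ⟨h3, h4, -⟩; exact absurd h1.1 (by linarith)))
  have z3 : bd f a1 a2 y1 b1 = 0 := bd_zero ha hy1 (hf.mono (by
    rintro s ⟨h1, h2⟩ ⟨-, -, h3, -⟩; exact absurd h2.2 (by linarith)))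
  have z4 : bd f a1 a2 b2 y2 = 0 := bd_zero ha hy2 (hf.mono (by
    rintro s ⟨h1, h2⟩ ⟨-, -, -, h3⟩; exact absurd h2.1 (by linarith)))
  have hh : ∀ y, (y ≤ b1 ∨ b2 ≤ y) → HI f x1 x2 y = HI f x1 a1 y + HI f a1 a2 y + HI f a2 x2 y := by
    intro y hy
    have hmem : ∀ x : ℝ, ((x : ℂ) + (y : ℂ) * I) ∈
        {s : ℂ | ¬ (a1 < s.re ∧ s.re < a2 ∧ b1 < s.im ∧ s.im < b2)} := by
      intro x ⟨_, _, h3, h4⟩
      simp at h3 h4
      rcases hy with hy | hy <;> linarith
    unfold HI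
    rw [intervalIntegral.integral_add_adjacent_intervals (ii_h hc hx1 fun x _ => hmem x)
      (ii_h hc ha fun x _ => hmem x), intervalIntegral.integral_add_adjacent_intervals
      (ii_h hc (hx1.trans ha) fun x _ => hmem x) (ii_h hc hx2 fun x _ => hmem x)]
  have hv : ∀ x, (x = a1 ∨ x = a2) → VI f x y1 y2 = VI f x y1 b1 + VI f x b1 b2 + VI f x b2 y2 := by
    intro x hx
    have hmem : ∀ y : ℝ, ((x : ℂ) + (y : ℂ) * I) ∈
        {s : ℂ | ¬ (a1 < s.re ∧ s.re < a2 ∧ b1 < s.im ∧ s.im < b2)} := by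
      intro y ⟨h3, h4, _, _⟩
      simp at h3 h4
      rcases hx with hx | hx <;> linarith
    unfold VI
    rw [intervalIntegral.integral_add_adjacent_intervals (ii_v hc hy1 fun x _ => hmem x)
      (ii_v hc hb fun x _ => hmem x), intervalIntegral.integral_add_adjacent_intervals
      (ii_v hc (hy1.trans hb) fun x _ => hmem x) (ii_v hc hy2 fun x _ => hmem x)]
  have e1 := hh y1 (Or.inl hy1)
  have e2 := hh y2 (Or.inr hy2)
  have e3 := hv a1 (Or.inl rfl)
  have e4 := hv a2 (Or.inr rfl)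
  unfold bd at *
  rw [e1, e2]
  rw [e3] at z1
  rw [e4] at z2
  linear_combination z1 + z2 + z3 + z4

theorem integral_arctan_aux {M : ℝ} (hM : 0 < M) :
    ∫ u in (-M)..M, M / (u ^ 2 + M ^ 2) = Real.pi / 2 := by
  have hder : ∀ u : ℝ, HasDerivAt (fun u => Real.arctan (u / M)) (M / (u ^ 2 + M ^ 2)) u := by
    intro u
    have h1 : HasDerivAt (fun u : ℝ => u / M) (1 / M) u := (hasDerivAt_id u).div_const M
    have h2 := h1.arctan
    convert h2 using 1
    have : (0 : ℝ) < u ^ 2 + M ^ 2 := by positivity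
    have h3 : (1 + (u / M) ^ 2) = (u ^ 2 + M ^ 2) / M ^ 2 := by field_simp; ring
    rw [h3]
    field_simp
  have hcont : Continuous (fun u : ℝ => M / (u ^ 2 + M ^ 2)) := by
    apply Continuous.div continuous_const (by fun_prop)
    intro u
    have : (0 : ℝ) < u ^ 2 + M ^ 2 := by positivity
    exact this.ne'
  rw [intervalIntegral.integral_eq_sub_of_hasDerivAt (fun u _ => hder u)
    (hcont.intervalIntegrable _ _)]
  rw [div_self hM.ne', neg_div, div_self hM.ne', Real.arctan_neg, Real.arctan_one]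
  ring

theorem shift_int (F : ℝ → ℂ) (c M : ℝ) :
    ∫ x in (c - M)..(c + M), F (x - c) = ∫ u in (-M)..M, F u := by
  rw [intervalIntegral.integral_comp_sub_right]
  congr 1 <;> ring

theorem bd_inv (w : ℂ) {M : ℝ} (hM : 0 < M) :
    bd (fun s => 1 / (s - w)) (w.re - M) (w.re + M) (w.im - M) (w.im + M)
      = 2 * Real.pi * I := by
  have hne : ∀ u v : ℝ, (u ≠ 0 ∨ v ≠ 0) → (u : ℂ) + (v : ℂ) * I ≠ 0 := by
    intro u v h h0
    have h1 : (((u : ℂ) + (v : ℂ) * I)).re = 0 := by rw [h0]; rfl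
    have h2 : (((u : ℂ) + (v : ℂ) * I)).im = 0 := by rw [h0]; rfl
    simp at h1 h2
    rcases h with h | h <;> contradiction
  have hH : ∀ r : ℝ, HI (fun s => 1 / (s - w)) (w.re - M) (w.re + M) (w.im + r)
      = ∫ u in (-M)..M, 1 / ((u : ℂ) + (r : ℂ) * I) := by
    intro r
    unfold HI
    rw [← shift_int (fun u : ℝ => 1 / ((u : ℂ) + (r : ℂ) * I)) w.re M]
    apply intervalIntegral.integral_congr
    intro x _
    simp only
    congr 1
    apply Complex.ext <;> simp
  have hV : ∀ r : ℝ, VI (fun s => 1 / (s - w)) (w.re + r) (w.im - M) (w.im + M)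
      = ∫ u in (-M)..M, 1 / ((r : ℂ) + (u : ℂ) * I) := by
    intro r
    unfold VI
    rw [← shift_int (fun u : ℝ => 1 / ((r : ℂ) + (u : ℂ) * I)) w.im M]
    apply intervalIntegral.integral_congr
    intro x _
    simp only
    congr 1
    apply Complex.ext <;> simp
  have e1 := hH (-M)
  have e2 := hH M
  have e3 := hV M
  have e4 := hV (-M)
  rw [← sub_eq_add_neg] at e1 e4
  have ci : ∀ g : ℝ → ℂ, (∀ u, g u ≠ 0) → Continuous g →
      IntervalIntegrable (fun u => 1 / g u) volume (-M) M := by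
    intro g hg hgc
    exact (Continuous.div continuous_const hgc hg).intervalIntegrable _ _
  have c1 := ci (fun u : ℝ => (u : ℂ) + ((-M : ℝ) : ℂ) * I)
    (fun u => hne u (-M) (Or.inr (by linarith [neg_lt_zero.2 hM]; ))) (by fun_prop)
  have c2 := ci (fun u : ℝ => (u : ℂ) + ((M : ℝ) : ℂ) * I)
    (fun u => hne u M (Or.inr hM.ne')) (by fun_prop)
  have c3 := ci (fun u : ℝ => ((M : ℝ) : ℂ) + (u : ℂ) * I)
    (fun u => hne M u (Or.inl hM.ne')) (by fun_prop)
  have c4 := ci (fun u : ℝ => ((-M : ℝ) : ℂ) + (u : ℂ) * I)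
    (fun u => hne (-M) u (Or.inl (neg_ne_zero.2 hM.ne'))) (by fun_prop)
  unfold bd
  rw [e1, e2, e3, e4]
  have hcomb : (∫ u in (-M)..M, 1 / ((u : ℂ) + ((-M : ℝ) : ℂ) * I))
      - (∫ u in (-M)..M, 1 / ((u : ℂ) + ((M : ℝ) : ℂ) * I))
      + I * (∫ u in (-M)..M, 1 / (((M : ℝ) : ℂ) + (u : ℂ) * I))
      - I * (∫ u in (-M)..M, 1 / (((-M : ℝ) : ℂ) + (u : ℂ) * I))
      = ∫ u in (-M)..M, (4 * I) * ((M / (u ^ 2 + M ^ 2) : ℝ) : ℂ) := by
    rw [← intervalIntegral.integral_const_mul, ← intervalIntegral.integral_const_mul,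
      ← intervalIntegral.integral_sub c1 c2,
      ← intervalIntegral.integral_add (c1.sub c2) (c3.const_mul I),
      ← intervalIntegral.integral_sub ((c1.sub c2).add (c3.const_mul I)) (c4.const_mul I)]
    apply intervalIntegral.integral_congr
    intro u _
    have n1 := hne u (-M) (Or.inr (neg_ne_zero.2 hM.ne'))
    have n2 := hne u M (Or.inr hM.ne')
    have n3 := hne M u (Or.inl hM.ne')
    have n4 := hne (-M) u (Or.inl (neg_ne_zero.2 hM.ne'))
    have n5 : ((u : ℂ) ^ 2 + (M : ℂ) ^ 2) ≠ 0 := by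
      have : (0 : ℝ) < u ^ 2 + M ^ 2 := by positivity
      exact_mod_cast this.ne'
    push_cast at n1 n2 n3 n4 ⊢
    have f1 : 1 / ((u : ℂ) + -(M : ℂ) * I) = ((u : ℂ) + M * I) / ((u : ℂ) ^ 2 + (M : ℂ) ^ 2) := by
      rw [div_eq_div_iff n1 n5]
      linear_combination ((M : ℂ) ^ 2) * I_sq
    have f2 : 1 / ((u : ℂ) + (M : ℂ) * I) = ((u : ℂ) - M * I) / ((u : ℂ) ^ 2 + (M : ℂ) ^ 2) := by
      rw [div_eq_div_iff n2 n5]
      linear_combination ((M : ℂ) ^ 2) * I_sq
    have f3 : 1 / ((M : ℂ) + (u : ℂ) * I) = ((M : ℂ) - u * I) / ((u : ℂ) ^ 2 + (M : ℂ) ^ 2) := by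
      rw [div_eq_div_iff n3 n5]
      linear_combination ((u : ℂ) ^ 2) * I_sq
    have f4 : 1 / (-(M : ℂ) + (u : ℂ) * I) = (-(M : ℂ) - u * I) / ((u : ℂ) ^ 2 + (M : ℂ) ^ 2) := by
      rw [div_eq_div_iff n4 n5]
      linear_combination ((u : ℂ) ^ 2) * I_sq
    rw [f1, f2, f3, f4]
    field_simp
    ring
  rw [hcomb, intervalIntegral.integral_const_mul, intervalIntegral.integral_ofReal,
    integral_arctan_aux hM]
  push_cast
  ring

end V4

section V5
open Complex Set Filter Topology Metric MeasureTheory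

/-- boundary of a rectangle -/
def Fr (a1 a2 b1 b2 : ℝ) : Set ℂ :=
  {s | s.re ∈ Icc a1 a2 ∧ s.im ∈ Icc b1 b2 ∧ (s.re = a1 ∨ s.re = a2 ∨ s.im = b1 ∨ s.im = b2)}

/-- exterior of a rectangle -/
def Ext (a1 a2 b1 b2 : ℝ) : Set ℂ := {s | s.re < a1 ∨ a2 < s.re ∨ s.im < b1 ∨ b2 < s.im}

theorem Ext_open (a1 a2 b1 b2 : ℝ) : IsOpen (Ext a1 a2 b1 b2) := by
  have h1 : IsOpen {s : ℂ | s.re < a1} := isOpen_lt continuous_re continuous_const
  have h2 : IsOpen {s : ℂ | a2 < s.re} := isOpen_lt continuous_const continuous_re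
  have h3 : IsOpen {s : ℂ | s.im < b1} := isOpen_lt continuous_im continuous_const
  have h4 : IsOpen {s : ℂ | b2 < s.im} := isOpen_lt continuous_const continuous_im
  exact h1.union (h2.union (h3.union h4))

section lin
variable {a1 a2 b1 b2 : ℝ} {f g : ℂ → ℂ}

theorem fr_h1 (_ha : a1 ≤ a2) (hb : b1 ≤ b2) : ∀ x ∈ Icc a1 a2, ((x : ℂ) + (b1 : ℂ) * I) ∈ Fr a1 a2 b1 b2 := by
  intro x hx; simpa [Fr] using ⟨hx, hb⟩
theorem fr_h2 (_ha : a1 ≤ a2) (hb : b1 ≤ b2) : ∀ x ∈ Icc a1 a2, ((x : ℂ) + (b2 : ℂ) * I) ∈ Fr a1 a2 b1 b2 := by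
  intro x hx; simpa [Fr] using ⟨hx, hb⟩
theorem fr_v1 (ha : a1 ≤ a2) (_hb : b1 ≤ b2) : ∀ y ∈ Icc b1 b2, ((a1 : ℂ) + (y : ℂ) * I) ∈ Fr a1 a2 b1 b2 := by
  intro x hx; simpa [Fr] using ⟨ha, hx⟩
theorem fr_v2 (ha : a1 ≤ a2) (_hb : b1 ≤ b2) : ∀ y ∈ Icc b1 b2, ((a2 : ℂ) + (y : ℂ) * I) ∈ Fr a1 a2 b1 b2 := by
  intro x hx; simpa [Fr] using ⟨ha, hx⟩

theorem bd_congr (ha : a1 ≤ a2) (hb : b1 ≤ b2) (h : EqOn f g (Fr a1 a2 b1 b2)) :
    bd f a1 a2 b1 b2 = bd g a1 a2 b1 b2 := by
  unfold bd HI VI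
  rw [intervalIntegral.integral_congr (g := fun x : ℝ => g ((x : ℂ) + (b1 : ℂ) * I))
      (fun x hx => h (fr_h1 ha hb x (by rwa [uIcc_of_le ha] at hx))),
    intervalIntegral.integral_congr (g := fun x : ℝ => g ((x : ℂ) + (b2 : ℂ) * I))
      (fun x hx => h (fr_h2 ha hb x (by rwa [uIcc_of_le ha] at hx))),
    intervalIntegral.integral_congr (g := fun x : ℝ => g ((a2 : ℂ) + (x : ℂ) * I))
      (fun x hx => h (fr_v2 ha hb x (by rwa [uIcc_of_le hb] at hx))),
    intervalIntegral.integral_congr (g := fun x : ℝ => g ((a1 : ℂ) + (x : ℂ) * I))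
      (fun x hx => h (fr_v1 ha hb x (by rwa [uIcc_of_le hb] at hx)))]

theorem bd_add_smul (ha : a1 ≤ a2) (hb : b1 ≤ b2) (hf : ContinuousOn f (Fr a1 a2 b1 b2))
    (hg : ContinuousOn g (Fr a1 a2 b1 b2)) (c : ℂ) :
    bd (fun s => f s + c * g s) a1 a2 b1 b2 = bd f a1 a2 b1 b2 + c * bd g a1 a2 b1 b2 := by
  unfold bd HI VI
  rw [intervalIntegral.integral_add (ii_h hf ha (fr_h1 ha hb))
      ((ii_h hg ha (fr_h1 ha hb)).const_mul c),
    intervalIntegral.integral_add (ii_h hf ha (fr_h2 ha hb))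
      ((ii_h hg ha (fr_h2 ha hb)).const_mul c),
    intervalIntegral.integral_add (ii_v hf hb (fr_v2 ha hb))
      ((ii_v hg hb (fr_v2 ha hb)).const_mul c),
    intervalIntegral.integral_add (ii_v hf hb (fr_v1 ha hb))
      ((ii_v hg hb (fr_v1 ha hb)).const_mul c)]
  simp only [intervalIntegral.integral_const_mul]
  ring

theorem bd_norm (ha : a1 ≤ a2) (hb : b1 ≤ b2) {C : ℝ} (hf : ∀ s ∈ Fr a1 a2 b1 b2, ‖f s‖ ≤ C) :
    ‖bd f a1 a2 b1 b2‖ ≤ C * (2 * (a2 - a1) + 2 * (b2 - b1)) := by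
  have h1 : ‖HI f a1 a2 b1‖ ≤ C * |a2 - a1| := by
    apply intervalIntegral.norm_integral_le_of_norm_le_const
    intro x hx
    rw [uIoc_of_le ha] at hx
    exact hf _ (fr_h1 ha hb x ⟨hx.1.le, hx.2⟩)
  have h2 : ‖HI f a1 a2 b2‖ ≤ C * |a2 - a1| := by
    apply intervalIntegral.norm_integral_le_of_norm_le_const
    intro x hx
    rw [uIoc_of_le ha] at hx
    exact hf _ (fr_h2 ha hb x ⟨hx.1.le, hx.2⟩)
  have h3 : ‖VI f a2 b1 b2‖ ≤ C * |b2 - b1| := by
    apply intervalIntegral.norm_integral_le_of_norm_le_const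
    intro x hx
    rw [uIoc_of_le hb] at hx
    exact hf _ (fr_v2 ha hb x ⟨hx.1.le, hx.2⟩)
  have h4 : ‖VI f a1 b1 b2‖ ≤ C * |b2 - b1| := by
    apply intervalIntegral.norm_integral_le_of_norm_le_const
    intro x hx
    rw [uIoc_of_le hb] at hx
    exact hf _ (fr_v1 ha hb x ⟨hx.1.le, hx.2⟩)
  rw [abs_of_nonneg (by linarith)] at h1 h2 h3 h4
  unfold bd
  calc ‖HI f a1 a2 b1 - HI f a1 a2 b2 + I * VI f a2 b1 b2 - I * VI f a1 b1 b2‖
      ≤ ‖HI f a1 a2 b1‖ + ‖HI f a1 a2 b2‖ + ‖I * VI f a2 b1 b2‖ + ‖I * VI f a1 b1 b2‖ := by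
        refine (norm_sub_le _ _).trans ?_
        gcongr
        refine (norm_add_le _ _).trans ?_
        gcongr
        exact norm_sub_le _ _
    _ ≤ _ := by
      rw [norm_mul, norm_mul, norm_I, one_mul, one_mul]
      linarith

end lin

theorem ext_cauchy {e : ℂ → ℂ} {Ω : Set ℂ} (hΩ : IsOpen Ω) (he : DifferentiableOn ℂ e Ω)
    {a1 a2 b1 b2 : ℝ} (ha : a1 ≤ a2) (hb : b1 ≤ b2)
    (hS : ∀ s : ℂ, ¬ (a1 < s.re ∧ s.re < a2 ∧ b1 < s.im ∧ s.im < b2) → s ∈ Ω)
    (hlim : Tendsto e (Bornology.cobounded ℂ) (𝓝 0)) {w : ℂ} (hw : w ∈ Ext a1 a2 b1 b2) :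
    bd (fun s => e s / (s - w)) a1 a2 b1 b2 = -(2 * Real.pi * I) * e w := by
  have hwΩ : w ∈ Ω := by
    apply hS
    rintro ⟨h1, h2, h3, h4⟩
    rcases hw with h | h | h | h <;> linarith
  set g := dslope e w with hg
  have hgd : DifferentiableOn ℂ g Ω :=
    (Complex.differentiableOn_dslope (hΩ.mem_nhds hwΩ)).2 he
  have hgS : DifferentiableOn ℂ g {s : ℂ | ¬ (a1 < s.re ∧ s.re < a2 ∧ b1 < s.im ∧ s.im < b2)} :=
    hgd.mono fun s hs => hS s hs
  have hnw : ∀ s ∈ Fr a1 a2 b1 b2, s ≠ w := by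
    rintro s ⟨h1, h2, -⟩ rfl
    rcases hw with h | h | h | h
    · linarith [h1.1]
    · linarith [h1.2]
    · linarith [h2.1]
    · linarith [h2.2]
  have hdec : ∀ s, s ≠ w → e s / (s - w) = g s + e w * (1 / (s - w)) := by
    intro s hs
    have hsw : s - w ≠ 0 := sub_ne_zero.2 hs
    rw [hg, dslope_of_ne _ hs, slope_def_field]
    field_simp
    ring
  have hcont1 : ∀ T : Set ℂ, w ∉ T → ContinuousOn (fun s => 1 / (s - w)) T := by
    intro T hT
    apply ContinuousOn.div continuousOn_const (by fun_prop)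
    intro s hs h0
    apply hT
    rw [sub_eq_zero] at h0
    rwa [← h0]
  -- inner
  have hFrΩ : Fr a1 a2 b1 b2 ⊆ Ω := by
    rintro s ⟨h1, h2, h3⟩
    apply hS
    rintro ⟨h4, h5, h6, h7⟩
    rcases h3 with h | h | h | h <;> linarith
  have hin0 : bd (fun s => 1 / (s - w)) a1 a2 b1 b2 = 0 := by
    apply bd_zero ha hb
    intro s hs
    apply DifferentiableAt.differentiableWithinAt
    apply DifferentiableAt.div (differentiableAt_const _) (by fun_prop)
    intro h0
    rw [sub_eq_zero] at h0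
    rw [← h0] at hw
    rcases hw with h | h | h | h
    · linarith [hs.1.1]
    · linarith [hs.1.2]
    · linarith [hs.2.1]
    · linarith [hs.2.2]
  have hin : bd (fun s => e s / (s - w)) a1 a2 b1 b2 = bd g a1 a2 b1 b2 := by
    rw [bd_congr ha hb (g := fun s => g s + e w * (1 / (s - w)))
      (fun s hs => hdec s (hnw s hs)),
      bd_add_smul ha hb (hgd.continuousOn.mono hFrΩ) (hcont1 _ (fun h => hnw w h rfl)), hin0]
    ring
  rw [hin]
  -- outer
  have hout : ∀ M : ℝ, 0 < M → w.re - M ≤ a1 → a2 ≤ w.re + M → w.im - M ≤ b1 → b2 ≤ w.im + M →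
      bd g a1 a2 b1 b2 = bd (fun s => e s / (s - w)) (w.re - M) (w.re + M) (w.im - M) (w.im + M)
        - e w * (2 * Real.pi * I) := by
    intro M hM h1 h2 h3 h4
    rw [← bd_annulus h1 ha h2 h3 hb h4 hgS]
    have hFr' : Fr (w.re - M) (w.re + M) (w.im - M) (w.im + M) ⊆ Ω := by
      rintro s ⟨g1, g2, g3⟩
      apply hS
      rintro ⟨h4, h5, h6, h7⟩
      rcases g3 with h | h | h | h <;> linarith
    have hnw' : ∀ s ∈ Fr (w.re - M) (w.re + M) (w.im - M) (w.im + M), s ≠ w := by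
      rintro s ⟨h1, h2, h3⟩ rfl
      rcases h3 with h | h | h | h <;> linarith
    rw [bd_congr (f := fun s => e s / (s - w)) (by linarith) (by linarith)
      (g := fun s => g s + e w * (1 / (s - w)))
      (fun s hs => hdec s (hnw' s hs)),
      bd_add_smul (by linarith) (by linarith) (hgd.continuousOn.mono hFr')
      (hcont1 _ (fun h => hnw' w h rfl)), bd_inv w hM]
    ring
  -- let M → ∞
  have hzero : ∀ ε : ℝ, 0 < ε → ‖bd g a1 a2 b1 b2 + e w * (2 * Real.pi * I)‖ ≤ ε := by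
    intro ε hε
    have hev : ∀ᶠ s in Bornology.cobounded ℂ, ‖e s‖ < ε / 8 := by
      have := Metric.tendsto_nhds.1 hlim (ε / 8) (by positivity)
      simpa [dist_zero_right] using this
    obtain ⟨R, -, hR⟩ := (hasBasis_cobounded_norm (E := ℂ)).eventually_iff.1 hev
    -- choose M
    set M : ℝ := 1 + |R| + ‖w‖ + |a1| + |a2| + |b1| + |b2| + |w.re| + |w.im| with hMdef
    have hM : 0 < M := by positivity
    have k1 := abs_le.1 (le_refl |a1|)
    have k2 := abs_le.1 (le_refl |a2|)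
    have k3 := abs_le.1 (le_refl |b1|)
    have k4 := abs_le.1 (le_refl |b2|)
    have k5 := abs_le.1 (le_refl |w.re|)
    have k6 := abs_le.1 (le_refl |w.im|)
    have n0 := norm_nonneg w
    have nR := abs_nonneg R
    have n1 := abs_nonneg a1
    have n2 := abs_nonneg a2
    have n3 := abs_nonneg b1
    have n4 := abs_nonneg b2
    have n5 := abs_nonneg w.re
    have n6 := abs_nonneg w.im
    have h1 := hout M hM (by linarith) (by linarith) (by linarith) (by linarith)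
    have h2 : ∀ s ∈ Fr (w.re - M) (w.re + M) (w.im - M) (w.im + M),
        ‖e s / (s - w)‖ ≤ ε / 8 / M := by
      rintro s ⟨g1, g2, g3⟩
      have hdist : M ≤ ‖s - w‖ := by
        rcases g3 with h | h | h | h
        · calc M = |(s - w).re| := by
                rw [sub_re, h, sub_sub_cancel_left, abs_neg, abs_of_pos hM]
            _ ≤ _ := abs_re_le_norm _
        · calc M = |(s - w).re| := by
                rw [sub_re, h, add_sub_cancel_left, abs_of_pos hM]
            _ ≤ _ := abs_re_le_norm _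
        · calc M = |(s - w).im| := by
                rw [sub_im, h, sub_sub_cancel_left, abs_neg, abs_of_pos hM]
            _ ≤ _ := abs_im_le_norm _
        · calc M = |(s - w).im| := by
                rw [sub_im, h, add_sub_cancel_left, abs_of_pos hM]
            _ ≤ _ := abs_im_le_norm _
      have hs : ‖e s‖ < ε / 8 := by
        apply hR
        show R ≤ ‖s‖
        have : ‖s - w‖ ≤ ‖s‖ + ‖w‖ := norm_sub_le _ _
        linarith [le_abs_self R]
      rw [norm_div]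
      exact div_le_div₀ (by positivity) hs.le hM hdist
    have h3 := bd_norm (f := fun s => e s / (s - w)) (by linarith) (by linarith) h2
    rw [h1]
    calc ‖bd (fun s => e s / (s - w)) (w.re - M) (w.re + M) (w.im - M) (w.im + M)
          - e w * (2 * Real.pi * I) + e w * (2 * Real.pi * I)‖
        = ‖bd (fun s => e s / (s - w)) (w.re - M) (w.re + M) (w.im - M) (w.im + M)‖ := by
          rw [sub_add_cancel]
      _ ≤ _ := h3
      _ = ε / 8 / M * (8 * M) := by ring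
      _ = ε := by field_simp
  have : ‖bd g a1 a2 b1 b2 + e w * (2 * Real.pi * I)‖ ≤ 0 :=
    le_of_forall_pos_le_add (fun ε hε => by simpa using hzero ε hε)
  have h0 := norm_le_zero_iff.1 this
  linear_combination h0

end V5

section V6
open Complex Set Filter Topology Metric MeasureTheory

/-- Cauchy-type integral along a path -/
noncomputable def J (e : ℂ → ℂ) (σ : ℝ → ℂ) (a b : ℝ) (w : ℂ) : ℂ :=
  ∫ x in a..b, e (σ x) / (σ x - w)

theorem J_ii {e : ℂ → ℂ} {σ : ℝ → ℂ} {a b : ℝ} (hab : a ≤ b) (hσ : Continuous σ)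
    (he : ContinuousOn (fun x => e (σ x)) (Icc a b)) {w : ℂ} (hw : ∀ x ∈ Icc a b, σ x ≠ w) :
    IntervalIntegrable (fun x => e (σ x) / (σ x - w)) volume a b := by
  apply ContinuousOn.intervalIntegrable_of_Icc hab
  apply he.div (by fun_prop)
  intro x hx
  exact sub_ne_zero.2 (hw x hx)

theorem J_sub {e e' : ℂ → ℂ} {σ : ℝ → ℂ} {a b : ℝ} (hab : a ≤ b) (hσ : Continuous σ)
    (he : ContinuousOn (fun x => e (σ x)) (Icc a b))
    (he' : ContinuousOn (fun x => e' (σ x)) (Icc a b)) {w : ℂ} (hw : ∀ x ∈ Icc a b, σ x ≠ w) :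
    J e σ a b w - J e' σ a b w = J (fun s => e s - e' s) σ a b w := by
  unfold J
  rw [← intervalIntegral.integral_sub (J_ii hab hσ he hw) (J_ii hab hσ he' hw)]
  apply intervalIntegral.integral_congr
  intro x _
  simp only [sub_div]

theorem J_bound {e : ℂ → ℂ} {σ : ℝ → ℂ} {a b C D : ℝ} (hab : a ≤ b) {w : ℂ} (hD : 0 < D)
    (hC : ∀ x ∈ Icc a b, ‖e (σ x)‖ ≤ C) (hDw : ∀ x ∈ Icc a b, D ≤ ‖σ x - w‖) :
    ‖J e σ a b w‖ ≤ (b - a) * (C / D) := by
  have h : ‖J e σ a b w‖ ≤ C / D * |b - a| := by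
    apply intervalIntegral.norm_integral_le_of_norm_le_const
    intro x hx
    rw [uIoc_of_le hab] at hx
    have hx' : x ∈ Icc a b := ⟨hx.1.le, hx.2⟩
    rw [norm_div]
    have h0 : 0 ≤ C := (norm_nonneg _).trans (hC x hx')
    exact div_le_div₀ h0 (hC x hx') hD (hDw x hx')
  rw [abs_of_nonneg (by linarith)] at h
  linarith

theorem J_tendsto {e : ℂ → ℂ} {σ : ℝ → ℂ} {a b C ρ : ℝ} (hab : a ≤ b)
    (hC : ∀ x ∈ Icc a b, ‖e (σ x)‖ ≤ C) (hρ : ∀ x ∈ Icc a b, ‖σ x‖ ≤ ρ) :
    Tendsto (J e σ a b) (Bornology.cobounded ℂ) (𝓝 0) := by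
  have h1 : Tendsto (fun w : ℂ => (b - a) * (C / (‖w‖ - ρ))) (Bornology.cobounded ℂ) (𝓝 0) := by
    have h2 : Tendsto (fun w : ℂ => ‖w‖ - ρ) (Bornology.cobounded ℂ) atTop :=
      tendsto_atTop_add_const_right _ _ tendsto_norm_cobounded_atTop
    have h3 := (h2.const_div_atTop C).const_mul (b - a)
    simpa using h3
  apply squeeze_zero_norm' _ h1
  have h4 : ∀ᶠ w : ℂ in Bornology.cobounded ℂ, ρ < ‖w‖ :=
    tendsto_norm_cobounded_atTop.eventually_gt_atTop ρ
  filter_upwards [h4] with w hw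
  apply J_bound hab (by linarith) hC
  intro x hx
  have := hρ x hx
  have h5 : ‖w‖ ≤ ‖σ x‖ + ‖σ x - w‖ := by
    calc ‖w‖ = ‖σ x - (σ x - w)‖ := by ring_nf
      _ ≤ _ := norm_sub_le _ _
  linarith

theorem J_diff {e : ℂ → ℂ} {σ : ℝ → ℂ} {a b : ℝ} (hab : a ≤ b) (hσ : Continuous σ)
    (he : ContinuousOn (fun x => e (σ x)) (Icc a b)) {U : Set ℂ} (hU : IsOpen U)
    (hw : ∀ x ∈ Icc a b, σ x ∉ U) : DifferentiableOn ℂ (J e σ a b) U := by
  intro w0 hw0
  obtain ⟨r, hr, hrU⟩ := Metric.isOpen_iff.1 hU w0 hw0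
  obtain ⟨C, hC⟩ := (isCompact_Icc.image_of_continuousOn he).isBounded.exists_norm_le
  have hC' : ∀ x ∈ Icc a b, ‖e (σ x)‖ ≤ C := fun x hx => hC _ (mem_image_of_mem _ hx)
  have hdist : ∀ x ∈ Icc a b, ∀ w ∈ ball w0 (r / 2), r / 2 ≤ ‖σ x - w‖ := by
    intro x hx w hw'
    have h1 : r ≤ ‖σ x - w0‖ := by
      by_contra hlt
      rw [not_le] at hlt
      exact hw x hx (hrU (by rwa [mem_ball, dist_eq_norm]))
    rw [mem_ball, dist_eq_norm] at hw'
    have h2 : ‖σ x - w0‖ ≤ ‖σ x - w‖ + ‖w - w0‖ := by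
      calc ‖σ x - w0‖ = ‖(σ x - w) + (w - w0)‖ := by ring_nf
        _ ≤ _ := norm_add_le _ _
    linarith
  have hne : ∀ x ∈ Icc a b, ∀ w ∈ ball w0 (r / 2), σ x - w ≠ 0 := by
    intro x hx w hw' h0
    have := hdist x hx w hw'
    rw [h0, norm_zero] at this
    linarith
  have hmain := intervalIntegral.hasDerivAt_integral_of_dominated_loc_of_deriv_le
    (μ := volume) (F := fun (w : ℂ) x => e (σ x) / (σ x - w))
    (F' := fun (w : ℂ) x => e (σ x) / (σ x - w) ^ 2) (x₀ := w0) (s := ball w0 (r / 2))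
    (a := a) (b := b) (bound := fun _ => C / (r / 2) ^ 2)
    (ball_mem_nhds _ (by linarith))
    (by
      filter_upwards [ball_mem_nhds w0 (show (0 : ℝ) < r / 2 by linarith)] with w hw'
      have : ContinuousOn (fun x => e (σ x) / (σ x - w)) (Icc a b) :=
        he.div (by fun_prop) (fun x hx => hne x hx w hw')
      exact (intervalIntegrable_iff.1 (this.intervalIntegrable_of_Icc hab)).aestronglyMeasurable)
    (J_ii hab hσ he (fun x hx h0 => hne x hx w0 (mem_ball_self (by linarith))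
      (sub_eq_zero.2 h0)))
    (by
      have : ContinuousOn (fun x => e (σ x) / (σ x - w0) ^ 2) (Icc a b) :=
        he.div (by fun_prop) (fun x hx => pow_ne_zero 2
          (hne x hx w0 (mem_ball_self (by linarith))))
      exact (intervalIntegrable_iff.1 (this.intervalIntegrable_of_Icc hab)).aestronglyMeasurable)
    (by
      refine Eventually.of_forall fun x hx w hw' => ?_
      rw [uIoc_of_le hab] at hx
      have hx' : x ∈ Icc a b := ⟨hx.1.le, hx.2⟩
      rw [norm_div, norm_pow]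
      have h0 : 0 ≤ C := (norm_nonneg _).trans (hC' x hx')
      have := hdist x hx' w hw'
      exact div_le_div₀ h0 (hC' x hx') (by positivity) (by gcongr))
    (by simp)
    (by
      refine Eventually.of_forall fun x hx w hw' => ?_
      rw [uIoc_of_le hab] at hx
      have hx' : x ∈ Icc a b := ⟨hx.1.le, hx.2⟩
      have h1 : HasDerivAt (fun w : ℂ => σ x - w) (-1) w := by
        simpa using (hasDerivAt_id w).const_sub (σ x)
      have h2 := (hasDerivAt_const w (e (σ x))).div h1 (hne x hx' w hw')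
      refine HasDerivAt.congr_deriv (f := fun w => e (σ x) / (σ x - w)) h2 ?_
      ring)
  exact hmain.2.differentiableAt.differentiableWithinAt

end V6

section V7
open Complex Set Filter Topology Metric MeasureTheory

theorem tri_fam {ι : Type} {d : ι → ι → ℝ} {Ω U : Set ℂ} {α δ L ρ : ℝ} {e : ι → ℂ → ℂ}
    (he : Fam d Ω α e) (hd : ∀ i j, 0 ≤ d i j) (hU : IsOpen U) (hδ : 0 < δ)
    (hα0 : 0 ≤ α) (σ : Fin 3 → ℝ → ℂ) (l r : Fin 3 → ℝ) (c : Fin 3 → ℂ)
    (hc : ∀ k, ‖c k‖ = 1) (hlr : ∀ k, l k ≤ r k) (hσ : ∀ k, Continuous (σ k))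
    (hmem : ∀ k, ∀ x ∈ Icc (l k) (r k), σ k x ∈ Ω)
    (hfar : ∀ k, ∀ x ∈ Icc (l k) (r k), ∀ w ∈ U, δ / 2 ≤ ‖σ k x - w‖)
    (hρ : ∀ k, ∀ x ∈ Icc (l k) (r k), ‖σ k x‖ ≤ ρ) (hL : ∑ k, (r k - l k) ≤ L) :
    Fam d U (L * α / δ)
      (fun i w => -(1 / (2 * Real.pi * I)) * ∑ k, c k * J (e i) (σ k) (l k) (r k) w) := by
  have hcont : ∀ i k, ContinuousOn (fun x => e i (σ k x)) (Icc (l k) (r k)) := fun i k =>
    (he.diff i).continuousOn.comp (hσ k).continuousOn (hmem k)
  have hpre : ‖-(1 / (2 * Real.pi * I) : ℂ)‖ = 1 / (2 * Real.pi) := by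
    rw [norm_neg, norm_div, norm_one, norm_mul, norm_mul, norm_I, mul_one]
    simp [abs_of_pos Real.pi_pos]
  have hpi : (1 : ℝ) ≤ Real.pi := by linarith [Real.pi_gt_three]
  have hfin : ∀ C : ℝ, 0 ≤ C → (1 / (2 * Real.pi)) * ∑ k, (r k - l k) * (C / (δ / 2))
      ≤ L * C / δ := by
    intro C hC
    rw [← Finset.sum_mul]
    have h0 : 0 ≤ ∑ k, (r k - l k) := Finset.sum_nonneg fun k _ => by linarith [hlr k]
    have h1 : (1 / (2 * Real.pi)) * ((∑ k, (r k - l k)) * (C / (δ / 2)))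
        = ((∑ k, (r k - l k)) * C / δ) * (1 / Real.pi) := by field_simp
    rw [h1]
    have h2 : 1 / Real.pi ≤ 1 := by rw [div_le_one Real.pi_pos]; exact hpi
    have h3 : 0 ≤ (∑ k, (r k - l k)) * C / δ := by positivity
    calc ((∑ k, (r k - l k)) * C / δ) * (1 / Real.pi)
        ≤ ((∑ k, (r k - l k)) * C / δ) * 1 := by gcongr
      _ ≤ L * C / δ := by rw [mul_one]; gcongr
  refine ⟨?_, ?_, ?_, ?_⟩
  · intro i
    apply DifferentiableOn.const_mul
    apply DifferentiableOn.fun_sum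
    intro k _
    apply DifferentiableOn.const_mul
    apply J_diff (hlr k) (hσ k) (hcont i k) hU
    intro x hx hxU
    have := hfar k x hx _ hxU
    rw [sub_self, norm_zero] at this
    linarith
  · intro i w hw
    rw [norm_mul, hpre]
    refine le_trans ?_ (hfin α hα0)
    gcongr
    refine (norm_sum_le _ _).trans (Finset.sum_le_sum fun k _ => ?_)
    rw [norm_mul, hc, one_mul]
    exact J_bound (hlr k) (by positivity) (fun x hx => he.bd i _ (hmem k x hx))
      (fun x hx => hfar k x hx w hw)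
  · intro i j w hw
    rw [← mul_sub, ← Finset.sum_sub_distrib, norm_mul, hpre]
    have hdd := hd i j
    have h1 := hfin (α * d i j) (by positivity)
    have h2 : L * (α * d i j) / δ = L * α / δ * d i j := by ring
    rw [h2] at h1
    refine le_trans ?_ h1
    gcongr
    refine (norm_sum_le _ _).trans (Finset.sum_le_sum fun k _ => ?_)
    have hne : ∀ x ∈ Icc (l k) (r k), σ k x ≠ w := by
      intro x hx h0
      have := hfar k x hx w hw
      rw [h0, sub_self, norm_zero] at this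
      linarith
    rw [← mul_sub, norm_mul, hc, one_mul, J_sub (hlr k) (hσ k) (hcont i k) (hcont j k) hne]
    exact J_bound (hlr k) (by positivity) (fun x hx => he.lip i j _ (hmem k x hx))
      (fun x hx => hfar k x hx w hw)
  · intro i
    have h1 : Tendsto (fun w => ∑ k, c k * J (e i) (σ k) (l k) (r k) w)
        (Bornology.cobounded ℂ) (𝓝 (∑ k : Fin 3, c k * 0)) := by
      apply tendsto_finsetSum
      intro k _
      exact (J_tendsto (hlr k) (fun x hx => he.bd i _ (hmem k x hx)) (hρ k)).const_mul _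
    have h2 := h1.const_mul (-(1 / (2 * Real.pi * I)))
    simpa using h2

theorem sh_ext (a1 a2 b1 b2 δ : ℝ) :
    Sh δ (Ext (a1 - δ) (a2 + δ) (b1 - δ) (b2 + δ)) (Ext a1 a2 b1 b2) := by
  intro w hw z hz
  have h1 : |z.re - w.re| ≤ δ := by
    rw [← sub_re]; exact (abs_re_le_norm _).trans hz
  have h2 : |z.im - w.im| ≤ δ := by
    rw [← sub_im]; exact (abs_im_le_norm _).trans hz
  rw [abs_le] at h1 h2
  rcases hw with h | h | h | h
  · left; linarith
  · right; left; linarith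
  · right; right; left; linarith
  · right; right; right; linarith

theorem co_ext (a1 a2 b1 b2 : ℝ) : ∀ᶠ w in Bornology.cobounded ℂ, w ∈ Ext a1 a2 b1 b2 := by
  have h4 : ∀ᶠ w : ℂ in Bornology.cobounded ℂ, |a1| + |a2| + |b1| + |b2| < ‖w‖ :=
    tendsto_norm_cobounded_atTop.eventually_gt_atTop _
  filter_upwards [h4] with w hw
  by_contra hcon
  simp only [Ext, mem_ofPred_eq, not_or, not_lt] at hcon
  obtain ⟨h1, h2, h3, h5⟩ := hcon
  have h6 : |w.re| ≤ |a1| + |a2| := by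
    rw [abs_le]; constructor
    · linarith [neg_abs_le a1, abs_nonneg a2]
    · linarith [le_abs_self a2, abs_nonneg a1]
  have h7 : |w.im| ≤ |b1| + |b2| := by
    rw [abs_le]; constructor
    · linarith [neg_abs_le b1, abs_nonneg b2]
    · linarith [le_abs_self b2, abs_nonneg b1]
  have := norm_le_abs_re_add_abs_im w
  linarith

def XS (x y t : ℝ) : Set ℂ := Ext (-(x + t)) (x + t) (-(y + t)) (y + t)
def AS (x y t : ℝ) : Set ℂ := Ext (-(x + t)) t (-(y + t)) (y + t)
def BS (x y t : ℝ) : Set ℂ := Ext (-t) (x + t) (-(y + t)) (y + t)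

theorem geo {x y : ℝ} (hx : 0 ≤ x) : Geo (XS x y) (AS x y) (BS x y) where
  oX _ := Ext_open _ _ _ _
  oA _ := Ext_open _ _ _ _
  oB _ := Ext_open _ _ _ _
  sX t δ _ := by
    have := sh_ext (-(x + t)) (x + t) (-(y + t)) (y + t) δ
    unfold XS
    convert this using 2 <;> ring
  sA t δ _ := by
    have := sh_ext (-(x + t)) t (-(y + t)) (y + t) δ
    unfold AS
    convert this using 2 <;> ring
  sB t δ _ := by
    have := sh_ext (-t) (x + t) (-(y + t)) (y + t) δ
    unfold BS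
    convert this using 2 <;> ring
  XA t := by
    rintro s (h | h | h | h)
    · left; exact h
    · right; left; linarith
    · right; right; left; exact h
    · right; right; right; exact h
  XB t := by
    rintro s (h | h | h | h)
    · left; linarith
    · right; left; exact h
    · right; right; left; exact h
    · right; right; right; exact h
  co _ := co_ext _ _ _ _

theorem dist_re (s w : ℂ) {δ : ℝ} (h : δ ≤ |s.re - w.re|) : δ ≤ ‖s - w‖ :=
  h.trans (by rw [← sub_re]; exact abs_re_le_norm _)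
theorem dist_im (s w : ℂ) {δ : ℝ} (h : δ ≤ |s.im - w.im|) : δ ≤ ‖s - w‖ :=
  h.trans (by rw [← sub_im]; exact abs_im_le_norm _)

/-- a point of the closed rectangle is far from the exterior of the thickened rectangle -/
theorem far_ext {a1 a2 b1 b2 δ : ℝ} {s w : ℂ} (h1 : s.re ∈ Icc a1 a2) (h2 : s.im ∈ Icc b1 b2)
    (hw : w ∈ Ext (a1 - δ) (a2 + δ) (b1 - δ) (b2 + δ)) : δ ≤ ‖s - w‖ := by
  rcases hw with h | h | h | h
  · apply dist_re
    exact le_trans (by linarith [h1.1]) (le_abs_self _)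
  · apply dist_re
    exact le_trans (by linarith [h1.2]) (neg_le_abs _)
  · apply dist_im
    exact le_trans (by linarith [h2.1]) (le_abs_self _)
  · apply dist_im
    exact le_trans (by linarith [h2.2]) (neg_le_abs _)

theorem split {ι : Type} {d : ι → ι → ℝ} (hd : ∀ i j, 0 ≤ d i j) {x y : ℝ} (hx : 0 ≤ x)
    (hy : 0 ≤ y) (t δ α : ℝ) (e : ι → ℂ → ℂ) (ht : 0 ≤ t) (hδ : 0 < δ) (htδ : t + δ ≤ 1)
    (hα0 : 0 ≤ α) (he : Fam d (XS x y t) α e) :
    ∃ a b, Fam d (AS x y (t + δ)) ((2 * x + 2 * y + 4) * α / δ) a ∧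
      Fam d (BS x y (t + δ)) ((2 * x + 2 * y + 4) * α / δ) b ∧
        ∀ i, ∀ w ∈ XS x y (t + δ), e i w = a i w + b i w := by
  set W := x + t + δ / 2 with hW
  set H := y + t + δ / 2 with hH
  have hW0 : 0 < W := by positivity
  have hH0 : 0 < H := by positivity
  -- points on the contour
  have hpt : ∀ s : ℂ, ¬ (-W < s.re ∧ s.re < W ∧ -H < s.im ∧ s.im < H) → s ∈ XS x y t := by
    intro s hs
    by_contra hcon
    simp only [XS, Ext, mem_ofPred_eq, not_or, not_lt] at hcon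
    apply hs
    obtain ⟨h1, h2, h3, h4⟩ := hcon
    refine ⟨by linarith, by linarith, by linarith, by linarith⟩
  have hρ : ∀ s : ℂ, s.re ∈ Icc (-W) W → s.im ∈ Icc (-H) H → ‖s‖ ≤ W + H := by
    intro s h1 h2
    have h3 := norm_le_abs_re_add_abs_im s
    have h4 : |s.re| ≤ W := abs_le.2 ⟨h1.1, h1.2⟩
    have h5 : |s.im| ≤ H := abs_le.2 ⟨h2.1, h2.2⟩
    linarith
  let σA : Fin 3 → ℝ → ℂ := ![fun u => (u : ℂ) + ((-H : ℝ) : ℂ) * I,
    fun u => (u : ℂ) + ((H : ℝ) : ℂ) * I, fun v => ((-W : ℝ) : ℂ) + (v : ℂ) * I]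
  let σB : Fin 3 → ℝ → ℂ := ![fun u => (u : ℂ) + ((-H : ℝ) : ℂ) * I,
    fun u => (u : ℂ) + ((H : ℝ) : ℂ) * I, fun v => ((W : ℝ) : ℂ) + (v : ℂ) * I]
  let lA : Fin 3 → ℝ := ![-W, -W, -H]
  let rA : Fin 3 → ℝ := ![0, 0, H]
  let lB : Fin 3 → ℝ := ![0, 0, -H]
  let rB : Fin 3 → ℝ := ![W, W, H]
  let cA : Fin 3 → ℂ := ![1, -1, -I]
  let cB : Fin 3 → ℂ := ![1, -1, I]
  have hwx : ∀ w ∈ AS x y (t + δ), w ∈ Ext (-W - δ / 2) (0 + δ / 2) (-H - δ / 2) (H + δ / 2) := by
    rintro w (h | h | h | h)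
    · left; linarith
    · right; left; linarith
    · right; right; left; linarith
    · right; right; right; linarith
  have hwx' : ∀ w ∈ BS x y (t + δ), w ∈ Ext (0 - δ / 2) (W + δ / 2) (-H - δ / 2) (H + δ / 2) := by
    rintro w (h | h | h | h)
    · left; linarith
    · right; left; linarith
    · right; right; left; linarith
    · right; right; right; linarith
  have hrectA : ∀ k, ∀ u ∈ Icc (lA k) (rA k), (σA k u).re ∈ Icc (-W) 0 ∧
      (σA k u).im ∈ Icc (-H) H ∧ ((σA k u).re = -W ∨ (σA k u).im = -H ∨ (σA k u).im = H) := by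
    intro k u hu
    fin_cases k
    · simp [lA, rA, σA] at hu ⊢
      exact ⟨hu, by linarith⟩
    · simp [lA, rA, σA] at hu ⊢
      exact ⟨hu, by linarith⟩
    · simp [lA, rA, σA] at hu ⊢
      exact ⟨hW0.le, hu⟩
  have hrectB : ∀ k, ∀ u ∈ Icc (lB k) (rB k), (σB k u).re ∈ Icc 0 W ∧
      (σB k u).im ∈ Icc (-H) H ∧ ((σB k u).re = W ∨ (σB k u).im = -H ∨ (σB k u).im = H) := by
    intro k u hu
    fin_cases k
    · simp [lB, rB, σB] at hu ⊢
      exact ⟨hu, by linarith⟩
    · simp [lB, rB, σB] at hu ⊢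
      exact ⟨hu, by linarith⟩
    · simp [lB, rB, σB] at hu ⊢
      exact ⟨hW0.le, hu⟩
  have hA := tri_fam he hd (U := AS x y (t + δ)) (L := 2 * x + 2 * y + 4) (ρ := W + H)
    (Ext_open _ _ _ _) hδ hα0 σA lA rA cA
    (by intro k; fin_cases k <;> simp [cA])
    (by intro k; fin_cases k <;> simp [lA, rA] <;> linarith)
    (by intro k; fin_cases k <;> simp [σA] <;> fun_prop)
    (by
      intro k u hu
      obtain ⟨h1, h2, h3⟩ := hrectA k u hu
      apply hpt
      rintro ⟨g1, g2, g3, g4⟩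
      rcases h3 with h | h | h <;> linarith)
    (by
      intro k u hu w hw
      obtain ⟨h1, h2, h3⟩ := hrectA k u hu
      exact far_ext h1 h2 (hwx w hw))
    (by
      intro k u hu
      obtain ⟨h1, h2, h3⟩ := hrectA k u hu
      exact hρ _ ⟨h1.1, h1.2.trans hW0.le⟩ h2)
    (by
      rw [Fin.sum_univ_three]
      simp [lA, rA]
      linarith)
  have hB := tri_fam he hd (U := BS x y (t + δ)) (L := 2 * x + 2 * y + 4) (ρ := W + H)
    (Ext_open _ _ _ _) hδ hα0 σB lB rB cB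
    (by intro k; fin_cases k <;> simp [cB])
    (by intro k; fin_cases k <;> simp [lB, rB] <;> linarith)
    (by intro k; fin_cases k <;> simp [σB] <;> fun_prop)
    (by
      intro k u hu
      obtain ⟨h1, h2, h3⟩ := hrectB k u hu
      apply hpt
      rintro ⟨g1, g2, g3, g4⟩
      rcases h3 with h | h | h <;> linarith)
    (by
      intro k u hu w hw
      obtain ⟨h1, h2, h3⟩ := hrectB k u hu
      exact far_ext h1 h2 (hwx' w hw))
    (by
      intro k u hu
      obtain ⟨h1, h2, h3⟩ := hrectB k u hu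
      exact hρ _ ⟨by linarith [h1.1], h1.2⟩ h2)
    (by
      rw [Fin.sum_univ_three]
      simp [lB, rB]
      linarith)
  refine ⟨_, _, hA, hB, ?_⟩
  intro i w hw
  have hwE : w ∈ Ext (-W) W (-H) H := by
    rcases hw with h | h | h | h
    · left; linarith
    · right; left; linarith
    · right; right; left; linarith
    · right; right; right; linarith
  have hcau := ext_cauchy (Ext_open _ _ _ _) (he.diff i) (a1 := -W) (a2 := W) (b1 := -H)
    (b2 := H) (by linarith) (by linarith) hpt (he.lim i) hwE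
  have hcl : ContinuousOn (fun s => e i s / (s - w)) (Fr (-W) W (-H) H) := by
    apply ContinuousOn.div ((he.diff i).continuousOn.mono _) (by fun_prop)
    · rintro s ⟨h1, h2, h3⟩ h0
      rw [sub_eq_zero] at h0
      rw [h0] at h1 h2
      rcases hwE with h | h | h | h
      · linarith [h1.1]
      · linarith [h1.2]
      · linarith [h2.1]
      · linarith [h2.2]
    · rintro s ⟨h1, h2, h3⟩
      apply hpt
      rintro ⟨g1, g2, g3, g4⟩
      rcases h3 with h | h | h | h <;> linarith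
  have hmemB : ∀ u ∈ Icc (-W) W, ((u : ℂ) + ((-H : ℝ) : ℂ) * I) ∈ Fr (-W) W (-H) H :=
    fr_h1 (by linarith) (by linarith)
  have hmemT : ∀ u ∈ Icc (-W) W, ((u : ℂ) + ((H : ℝ) : ℂ) * I) ∈ Fr (-W) W (-H) H :=
    fr_h2 (by linarith) (by linarith)
  have hs1 : HI (fun s => e i s / (s - w)) (-W) W (-H)
      = HI (fun s => e i s / (s - w)) (-W) 0 (-H) + HI (fun s => e i s / (s - w)) 0 W (-H) := by
    unfold HI
    rw [intervalIntegral.integral_add_adjacent_intervals
      (ii_h hcl (by linarith) fun u hu => hmemB u ⟨hu.1, by linarith [hu.2]⟩)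
      (ii_h hcl (by linarith) fun u hu => hmemB u ⟨by linarith [hu.1], hu.2⟩)]
  have hs2 : HI (fun s => e i s / (s - w)) (-W) W H
      = HI (fun s => e i s / (s - w)) (-W) 0 H + HI (fun s => e i s / (s - w)) 0 W H := by
    unfold HI
    rw [intervalIntegral.integral_add_adjacent_intervals
      (ii_h hcl (by linarith) fun u hu => hmemT u ⟨hu.1, by linarith [hu.2]⟩)
      (ii_h hcl (by linarith) fun u hu => hmemT u ⟨by linarith [hu.1], hu.2⟩)]
  have j1 : J (e i) (σA 0) (lA 0) (rA 0) w = HI (fun s => e i s / (s - w)) (-W) 0 (-H) := rfl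
  have j2 : J (e i) (σA 1) (lA 1) (rA 1) w = HI (fun s => e i s / (s - w)) (-W) 0 H := rfl
  have j3 : J (e i) (σA 2) (lA 2) (rA 2) w = VI (fun s => e i s / (s - w)) (-W) (-H) H := rfl
  have j4 : J (e i) (σB 0) (lB 0) (rB 0) w = HI (fun s => e i s / (s - w)) 0 W (-H) := rfl
  have j5 : J (e i) (σB 1) (lB 1) (rB 1) w = HI (fun s => e i s / (s - w)) 0 W H := rfl
  have j6 : J (e i) (σB 2) (lB 2) (rB 2) w = VI (fun s => e i s / (s - w)) W (-H) H := rfl
  simp only [Fin.sum_univ_three, j1, j2, j3, j4, j5, j6]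
  unfold bd at hcau
  rw [hs1, hs2] at hcau
  have hpine : (2 * Real.pi * I : ℂ) ≠ 0 := by
    simp [Real.pi_ne_zero, I_ne_zero]
  have c0 : cA 0 = 1 := rfl
  have c1 : cA 1 = -1 := rfl
  have c2 : cA 2 = -I := rfl
  have c3 : cB 0 = 1 := rfl
  have c4 : cB 1 = -1 := rfl
  have c5 : cB 2 = I := rfl
  rw [c0, c1, c2, c3, c4, c5]
  have hkey : e i w = -(1 / (2 * Real.pi * I)) * (-(2 * Real.pi * I) * e i w) := by
    field_simp
  rw [hkey, ← hcau]
  ring

end V7

section V8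
open Complex Set Filter Topology Metric Bornology

theorem ev_iff {P : ℂ → Prop} : (∀ᶠ w in cobounded ℂ, P w) ↔ ∃ R : ℝ, ∀ w : ℂ, R < ‖w‖ → P w := by
  constructor
  · intro h
    obtain ⟨R, -, hR⟩ := (hasBasis_cobounded_norm (E := ℂ)).eventually_iff.1 h
    exact ⟨R, fun w hw => hR (show R ≤ ‖w‖ from hw.le)⟩
  · rintro ⟨R, hR⟩
    filter_upwards [tendsto_norm_cobounded_atTop.eventually_gt_atTop R] with w hw
    exact hR w hw

theorem ev_nhds {P : ℂ → Prop} (h : ∀ᶠ w in cobounded ℂ, P w) :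
    ∀ᶠ w in cobounded ℂ, ∀ᶠ z in 𝓝 w, P z := by
  obtain ⟨R, hR⟩ := ev_iff.1 h
  rw [ev_iff]
  refine ⟨R, fun w hw => ?_⟩
  have : IsOpen {z : ℂ | R < ‖z‖} := isOpen_lt continuous_const continuous_norm
  filter_upwards [this.mem_nhds hw] with z hz
  exact hR z hz

/-- germ at infinity of a map fixing infinity, locally biholomorphic there -/
def Good (F : ℂ → ℂ) : Prop :=
  (∀ᶠ w in cobounded ℂ, DifferentiableAt ℂ F w) ∧
    ∃ c : ℂ, c ≠ 0 ∧ Tendsto (fun w => F w / w) (cobounded ℂ) (𝓝 c)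

theorem ne_zero_ev : ∀ᶠ w : ℂ in cobounded ℂ, w ≠ 0 := by
  rw [ev_iff]
  refine ⟨0, fun w hw => ?_⟩
  exact norm_pos_iff.1 hw

theorem Good.tendsto {F : ℂ → ℂ} (h : Good F) : Tendsto F (cobounded ℂ) (cobounded ℂ) := by
  obtain ⟨-, c, hc, hF⟩ := h
  rw [← tendsto_norm_atTop_iff_cobounded]
  have h1 : Tendsto (fun w : ℂ => ‖F w / w‖ * ‖w‖) (cobounded ℂ) atTop :=
    Tendsto.pos_mul_atTop (norm_pos_iff.2 hc) hF.norm tendsto_norm_cobounded_atTop
  refine h1.congr' ?_
  filter_upwards [ne_zero_ev] with w hw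
  rw [norm_div, div_mul_cancel₀ _ (norm_ne_zero_iff.2 hw)]

theorem Good.congr {F G : ℂ → ℂ} (h : Good F) (hFG : F =ᶠ[cobounded ℂ] G) : Good G := by
  obtain ⟨h1, c, hc, hF⟩ := h
  refine ⟨?_, c, hc, ?_⟩
  · filter_upwards [h1, ev_nhds hFG] with w hw1 hw2
    exact hw1.congr_of_eventuallyEq (hw2.mono fun z hz => hz.symm)
  · refine hF.congr' ?_
    filter_upwards [hFG] with w hw
    rw [hw]

theorem Good.comp {F G : ℂ → ℂ} (hF : Good F) (hG : Good G) : Good (F ∘ G) := by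
  have ht := hG.tendsto
  obtain ⟨h1, c, hc, h2⟩ := hF
  obtain ⟨g1, b, hb, g2⟩ := hG
  refine ⟨?_, c * b, mul_ne_zero hc hb, ?_⟩
  · filter_upwards [g1, ht.eventually h1] with w hw1 hw2
    exact DifferentiableAt.comp w hw2 hw1
  · have h3 := (h2.comp ht).mul g2
    refine h3.congr' ?_
    filter_upwards [ht.eventually ne_zero_ev, ne_zero_ev] with w hw1 hw2
    simp only [Function.comp]
    field_simp

theorem good_id : Good (id : ℂ → ℂ) := by
  refine ⟨Eventually.of_forall fun w => differentiableAt_id, 1, one_ne_zero, ?_⟩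
  refine tendsto_const_nhds.congr' ?_
  filter_upwards [ne_zero_ev] with w hw
  simp [hw]

/-- near-identity germs at infinity -/
def NI (F : ℂ → ℂ) : Prop :=
  (∀ᶠ w in cobounded ℂ, DifferentiableAt ℂ F w) ∧
    Tendsto (fun w => F w - w) (cobounded ℂ) (𝓝 0)

theorem NI.good_aux {F : ℂ → ℂ} (h1 : ∀ᶠ w in cobounded ℂ, DifferentiableAt ℂ F w) {l : ℂ}
    (h2 : Tendsto (fun w => F w - w) (cobounded ℂ) (𝓝 l)) : Good F := by
  refine ⟨h1, 1, one_ne_zero, ?_⟩
  have h3 : Tendsto (fun w : ℂ => w⁻¹) (cobounded ℂ) (𝓝 0) := tendsto_inv₀_cobounded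
  have h4 := (h2.mul h3).add_const 1
  rw [mul_zero, zero_add] at h4
  refine h4.congr' ?_
  filter_upwards [ne_zero_ev] with w hw
  field_simp
  ring

theorem NI.good {F : ℂ → ℂ} (h : NI F) : Good F := NI.good_aux h.1 h.2

theorem good_trans (v : ℂ) : Good (fun w => w + v) := by
  apply NI.good_aux (l := v)
  · exact Eventually.of_forall fun w => by fun_prop
  · simp

theorem NI.congr {F G : ℂ → ℂ} (h : NI F) (hFG : F =ᶠ[cobounded ℂ] G) : NI G := by
  refine ⟨(h.good.congr hFG).1, h.2.congr' ?_⟩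
  filter_upwards [hFG] with w hw
  rw [hw]

theorem NI.comp {F G : ℂ → ℂ} (hF : NI F) (hG : NI G) : NI (F ∘ G) := by
  refine ⟨(hF.good.comp hG.good).1, ?_⟩
  have h1 := (hF.2.comp hG.good.tendsto).add hG.2
  rw [add_zero] at h1
  refine h1.congr fun w => ?_
  simp only [Function.comp]
  ring

theorem NI.conj_trans {F : ℂ → ℂ} (hF : NI F) (v : ℂ) : NI (fun w => F (w - v) + v) := by
  have ht : Tendsto (fun w : ℂ => w - v) (cobounded ℂ) (cobounded ℂ) := by
    have := (good_trans (-v)).tendsto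
    simpa [sub_eq_add_neg] using this
  refine ⟨?_, ?_⟩
  · filter_upwards [ht.eventually hF.1] with w hw
    have h1 : DifferentiableAt ℂ (fun w : ℂ => w - v) w := by fun_prop
    exact (DifferentiableAt.comp w hw h1).add_const v
  · have h1 := hF.2.comp ht
    refine h1.congr fun w => ?_
    simp only [Function.comp]
    ring

theorem NI.inv {F : ℂ → ℂ} (hF : NI F) :
    ∃ K, NI K ∧ (F ∘ K =ᶠ[cobounded ℂ] id) ∧ (K ∘ F =ᶠ[cobounded ℂ] id) := by
  set p : ℂ → ℂ := fun w => F w - w with hp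
  have hsmall : ∀ᶠ w in cobounded ℂ, ‖p w‖ ≤ 1 / 4 := by
    have := Metric.tendsto_nhds.1 hF.2 (1 / 4) (by norm_num)
    filter_upwards [this] with w hw
    rw [dist_zero_right] at hw
    exact hw.le
  obtain ⟨R, hR⟩ := ev_iff.1 (hF.1.and hsmall)
  have hRd : ∀ w : ℂ, R < ‖w‖ → DifferentiableAt ℂ F w := fun w hw => (hR w hw).1
  have hRs : ∀ w : ℂ, R < ‖w‖ → ‖p w‖ ≤ 1 / 4 := fun w hw => (hR w hw).2
  have hop : ∀ r : ℝ, IsOpen {w : ℂ | r < ‖w‖} := fun r =>
    isOpen_lt continuous_const continuous_norm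
  have hpd : DifferentiableOn ℂ p {w : ℂ | R < ‖w‖} := fun w hw =>
    ((hRd w hw).sub differentiableAt_id).differentiableWithinAt
  have hFam : Fam (ι := Unit) (fun _ _ => 0) {w : ℂ | R < ‖w‖} (1 / 4) (fun _ => p) :=
    ⟨fun _ => hpd, fun _ w hw => hRs w hw, fun _ _ w hw => by simp, fun _ => hF.2⟩
  have hsh : Sh (2 * (1 / 2)) {w : ℂ | R + 1 < ‖w‖} {w : ℂ | R < ‖w‖} := by
    intro w hw z hz
    have h1 : R + 1 < ‖w‖ := hw
    have h2 : ‖w‖ ≤ ‖z‖ + ‖z - w‖ := by
      calc ‖w‖ = ‖z - (z - w)‖ := by ring_nf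
        _ ≤ _ := norm_sub_le _ _
    show R < ‖z‖
    linarith
  obtain ⟨h, hh, hhe⟩ := hFam.inv (fun _ _ => le_refl _) (hop R) (hop (R + 1))
    (δ := 1 / 2) (by norm_num) (by norm_num) (by norm_num)
    (ev_iff.2 ⟨R + 1, fun w hw => hw⟩) hsh
  refine ⟨fun w => w + h () w, ⟨?_, ?_⟩, ?_, ?_⟩
  · rw [ev_iff]
    refine ⟨R + 1, fun w hw => ?_⟩
    exact differentiableAt_id.add (((hh.diff ()) w hw).differentiableAt ((hop _).mem_nhds hw))
  · simpa using hh.lim ()
  · show ∀ᶠ w in cobounded ℂ, _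
    rw [ev_iff]
    refine ⟨R + 1, fun w hw => ?_⟩
    have := hhe () w hw
    simp only [hp] at this
    simp only [Function.comp, id]
    linear_combination this
  · show ∀ᶠ w in cobounded ℂ, _
    rw [ev_iff]
    refine ⟨R + 2, fun w hw => ?_⟩
    have hw1 := hRs w (by linarith)
    have hu : R + 1 < ‖F w‖ := by
      have h2 : ‖w‖ ≤ ‖F w‖ + ‖p w‖ := by
        calc ‖w‖ = ‖F w - p w‖ := by simp only [hp]; ring_nf
          _ ≤ _ := norm_sub_le _ _
      linarith
    have h3 := hhe () (F w) hu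
    have h4 := hh.bd () (F w) hu
    have h5 := near_inj (hop R) hpd (fun w hw => hRs w hw) (δ := 1 / 2) (by norm_num)
      (by norm_num) (w := F w) (hsh (F w) hu) (z1 := F w + h () (F w)) (z2 := w)
      (by simp only [add_sub_cancel_left]; linarith)
      (by
        have : w - F w = - p w := by simp only [hp]; ring
        rw [this, norm_neg]; linarith)
    have h6 : (F w + h () (F w) + p (F w + h () (F w))) - (w + p w) = 0 := by
      rw [h3]; simp only [hp]; ring
    rw [h6, norm_zero, mul_zero] at h5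
    have h7 := norm_le_zero_iff.1 h5
    simp only [Function.comp, id]
    linear_combination h7

/-! ### products of involutions -/

def IsInvo (σ : ℂ → ℂ) : Prop := Good σ ∧ σ ∘ σ =ᶠ[cobounded ℂ] id

/-- `F` is a product of `n` involutive germs at infinity -/
def IP : ℕ → (ℂ → ℂ) → Prop
  | 0, F => F =ᶠ[cobounded ℂ] id
  | (n + 1), F => ∃ σ G, IsInvo σ ∧ IP n G ∧ F =ᶠ[cobounded ℂ] σ ∘ G

theorem IP.congr : ∀ {n : ℕ} {F F' : ℂ → ℂ}, IP n F → F =ᶠ[cobounded ℂ] F' → IP n F'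
  | 0, _, _, h, hF => hF.symm.trans h
  | (_ + 1), _, _, ⟨σ, G, h1, h2, h3⟩, hF => ⟨σ, G, h1, h2, hF.symm.trans h3⟩

theorem IP.good : ∀ {n : ℕ} {F : ℂ → ℂ}, IP n F → Good F
  | 0, _, h => good_id.congr h.symm
  | (_ + 1), _, ⟨_, _, h1, h2, h3⟩ => (h1.1.comp h2.good).congr h3.symm

theorem ev_comp {F F' G : ℂ → ℂ} (h : F =ᶠ[cobounded ℂ] F')
    (hG : Tendsto G (cobounded ℂ) (cobounded ℂ)) : F ∘ G =ᶠ[cobounded ℂ] F' ∘ G :=
  hG.eventually h

theorem ev_comp_left {F G G' : ℂ → ℂ} (h : G =ᶠ[cobounded ℂ] G') :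
    F ∘ G =ᶠ[cobounded ℂ] F ∘ G' := h.fun_comp F

theorem IP.comp : ∀ {n m : ℕ} {F G : ℂ → ℂ}, IP n F → IP m G → IP (n + m) (F ∘ G)
  | 0, m, F, G, h, hG => by
    rw [zero_add]
    exact hG.congr (ev_comp (F := F) h hG.good.tendsto).symm
  | (n + 1), m, F, G, ⟨σ, F', h1, h2, h3⟩, hG => by
    rw [add_right_comm]
    exact ⟨σ, F' ∘ G, h1, h2.comp hG, ev_comp h3 hG.good.tendsto⟩

theorem invo_conj {σ H K : ℂ → ℂ} (hσ : IsInvo σ) (hH : Good H) (hK : Good K)
    (_hHK : H ∘ K =ᶠ[cobounded ℂ] id) (hKH : K ∘ H =ᶠ[cobounded ℂ] id) (hHK : H ∘ K =ᶠ[cobounded ℂ] id) :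
    IsInvo (H ∘ σ ∘ K) := by
  refine ⟨hH.comp (hσ.1.comp hK), ?_⟩
  have ht1 : Tendsto (σ ∘ K) (cobounded ℂ) (cobounded ℂ) := hσ.1.tendsto.comp hK.tendsto
  filter_upwards [ht1.eventually hKH, hK.tendsto.eventually hσ.2, hHK] with w h1 h2 h3
  simp only [Function.comp, id] at h1 h2 h3 ⊢
  rw [h1, h2, h3]

theorem IP.conj {H K : ℂ → ℂ} (hH : Good H) (hK : Good K)
    (hHK : H ∘ K =ᶠ[cobounded ℂ] id) (hKH : K ∘ H =ᶠ[cobounded ℂ] id) :
    ∀ {n : ℕ} {F : ℂ → ℂ}, IP n F → IP n (H ∘ F ∘ K)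
  | 0, F, h => by
    show H ∘ F ∘ K =ᶠ[cobounded ℂ] id
    filter_upwards [hK.tendsto.eventually h, hHK] with w h1 h2
    simp only [Function.comp, id] at h1 h2 ⊢
    rw [h1, h2]
  | (n + 1), F, ⟨σ, G, h1, h2, h3⟩ => by
    refine ⟨H ∘ σ ∘ K, H ∘ G ∘ K, invo_conj h1 hH hK hHK hKH hHK, h2.conj hH hK hHK hKH, ?_⟩
    filter_upwards [hK.tendsto.eventually h3, (h2.good.tendsto.comp hK.tendsto).eventually hKH]
      with w g1 g2
    simp only [Function.comp, id] at g1 g2 ⊢
    rw [g1, g2]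

theorem invo_refl (v : ℂ) : IsInvo (fun w => v - w) := by
  refine ⟨⟨Eventually.of_forall fun w => by fun_prop, -1, by norm_num, ?_⟩, ?_⟩
  · have h3 : Tendsto (fun w : ℂ => w⁻¹) (cobounded ℂ) (𝓝 0) := tendsto_inv₀_cobounded
    have h4 := (h3.const_mul v).add_const (-1)
    rw [mul_zero, zero_add] at h4
    refine h4.congr' ?_
    filter_upwards [ne_zero_ev] with w hw
    field_simp
    ring
  · exact Eventually.of_forall fun w => by simp

theorem IP_trans (v : ℂ) : IP 2 (fun w => w + v) := by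
  refine ⟨fun w => v - w, fun w => 0 - w, invo_refl v, ⟨fun w => 0 - w, id, invo_refl 0,
    EventuallyEq.rfl, EventuallyEq.rfl⟩, ?_⟩
  exact Eventually.of_forall fun w => by simp [Function.comp, add_comm]

theorem IP_comm {H K : ℂ → ℂ} (hH : Good H) (hK : Good K)
    (hHK : H ∘ K =ᶠ[cobounded ℂ] id) (hKH : K ∘ H =ᶠ[cobounded ℂ] id) (v : ℂ) :
    IP 4 (fun w => H (K (w - v) + v)) := by
  have h1 := (IP_trans v).conj hH hK hHK hKH
  have h2 := h1.comp (IP_trans (-v))
  refine h2.congr (Eventually.of_forall fun w => ?_)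
  simp only [Function.comp, sub_eq_add_neg]

end V8

section V9
open Complex Set Filter Topology Metric Bornology

/-- the coefficient of `1/w` -/
def HasRes (F : ℂ → ℂ) (l : ℂ) : Prop :=
  Tendsto (fun w => w * (F w - w)) (cobounded ℂ) (𝓝 l)

theorem tendsto_inv_punct : Tendsto (fun z : ℂ => z⁻¹) (𝓝[≠] 0) (cobounded ℂ) :=
  tendsto_inv₀_nhdsNE_zero

theorem NI.res {F : ℂ → ℂ} (hF : NI F) : ∃ l, HasRes F l := by
  set g : ℂ → ℂ := fun z => F z⁻¹ - z⁻¹ with hg
  -- `g` is differentiable near `0` (punctured) and tends to `F 0 - 0`?  use `update`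
  set G : ℂ → ℂ := Function.update g 0 0 with hG
  have hGne : ∀ z, z ≠ 0 → G z = g z := fun z hz => by rw [hG, Function.update_of_ne hz]
  have hG0 : G 0 = 0 := by rw [hG, Function.update_self]
  have hd : ∀ᶠ z in 𝓝[≠] (0 : ℂ), DifferentiableAt ℂ G z := by
    filter_upwards [tendsto_inv_punct.eventually hF.1, self_mem_nhdsWithin] with z hz hz0
    have hz0' : z ≠ 0 := hz0
    have h1 : DifferentiableAt ℂ (fun z : ℂ => z⁻¹) z := differentiableAt_inv hz0'
    have h2 : DifferentiableAt ℂ g z := (DifferentiableAt.comp z hz h1).sub h1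
    refine h2.congr_of_eventuallyEq ?_
    filter_upwards [isOpen_ne.mem_nhds hz0'] with y hy
    exact hGne y hy
  have hlim : Tendsto g (𝓝[≠] 0) (𝓝 0) := hF.2.comp tendsto_inv_punct
  have hc : ContinuousAt G 0 := by
    rw [hG, continuousAt_update_same]
    exact hlim
  have han := Complex.analyticAt_of_differentiable_on_punctured_nhds_of_continuousAt hd hc
  have hder := han.differentiableAt.hasDerivAt
  rw [hasDerivAt_iff_tendsto_slope] at hder
  refine ⟨deriv G 0, ?_⟩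
  have h3 : Tendsto (fun w : ℂ => w⁻¹) (cobounded ℂ) (𝓝[≠] 0) := tendsto_inv₀_cobounded'
  have h4 := hder.comp h3
  refine h4.congr' ?_
  filter_upwards [ne_zero_ev] with w hw
  simp only [Function.comp, slope_def_field]
  rw [hGne _ (inv_ne_zero hw), hG0, hg]
  simp only [inv_inv, sub_zero]
  rw [div_inv_eq_mul]
  ring

theorem HasRes.congr {F G : ℂ → ℂ} {l : ℂ} (h : HasRes F l) (hFG : F =ᶠ[cobounded ℂ] G) :
    HasRes G l := by
  refine Tendsto.congr' ?_ h
  filter_upwards [hFG] with w hw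
  rw [hw]

theorem HasRes.comp {F G : ℂ → ℂ} {a b : ℂ} (hF : HasRes F a) (hG : HasRes G b) (hGn : NI G) :
    HasRes (F ∘ G) (a + b) := by
  have ht := hGn.good.tendsto
  have h1 : Tendsto (fun w => G w / w) (cobounded ℂ) (𝓝 1) := by
    have h3 : Tendsto (fun w : ℂ => w⁻¹) (cobounded ℂ) (𝓝 0) := tendsto_inv₀_cobounded
    have h4 := (hGn.2.mul h3).add_const 1
    rw [mul_zero, zero_add] at h4
    refine h4.congr' ?_
    filter_upwards [ne_zero_ev] with w hw
    field_simp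
    ring
  have h2 : Tendsto (fun w => w / G w) (cobounded ℂ) (𝓝 1) := by
    have := h1.inv₀ one_ne_zero
    rw [inv_one] at this
    refine this.congr fun w => ?_
    rw [inv_div]
  have hF' : Tendsto (fun w => w * (F w - w)) (cobounded ℂ) (𝓝 a) := hF
  have hG' : Tendsto (fun w => w * (G w - w)) (cobounded ℂ) (𝓝 b) := hG
  have h3 := (h2.mul (hF'.comp ht)).add hG'
  rw [one_mul] at h3
  refine h3.congr' ?_
  filter_upwards [ht.eventually ne_zero_ev] with w hw
  simp only [Function.comp]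
  field_simp
  ring

theorem HasRes.shift {F : ℂ → ℂ} {a : ℂ} (hF : HasRes F a) (v : ℂ) :
    HasRes (fun w => F (w - v) + v) a := by
  have ht : Tendsto (fun w : ℂ => w - v) (cobounded ℂ) (cobounded ℂ) := by
    have := (good_trans (-v)).tendsto
    simpa [sub_eq_add_neg] using this
  have h2 : Tendsto (fun w : ℂ => w / (w - v)) (cobounded ℂ) (𝓝 1) := by
    have h3 : Tendsto (fun w : ℂ => w⁻¹) (cobounded ℂ) (𝓝 0) := tendsto_inv₀_cobounded
    have h4 := ((h3.comp ht).const_mul v).add_const 1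
    rw [mul_zero, zero_add] at h4
    refine h4.congr' ?_
    filter_upwards [ht.eventually ne_zero_ev] with w hw
    simp only [Function.comp]
    field_simp
    ring
  have hF' : Tendsto (fun w => w * (F w - w)) (cobounded ℂ) (𝓝 a) := hF
  have h3 := h2.mul (hF'.comp ht)
  rw [one_mul] at h3
  refine h3.congr' ?_
  filter_upwards [ht.eventually ne_zero_ev] with w hw
  simp only [Function.comp]
  field_simp
  ring

theorem HasRes.unique {F : ℂ → ℂ} {a b : ℂ} (h1 : HasRes F a) (h2 : HasRes F b) : a = b :=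
  tendsto_nhds_unique h1 h2

theorem tendsto_refl (v : ℂ) : Tendsto (fun w : ℂ => v - w) (cobounded ℂ) (cobounded ℂ) :=
  (invo_refl v).1.tendsto

theorem NI.refl {F : ℂ → ℂ} (hF : NI F) (v : ℂ) : NI (fun w => v - F (v - w)) := by
  have ht := tendsto_refl v
  refine ⟨?_, ?_⟩
  · filter_upwards [ht.eventually hF.1] with w hw
    have h1 : DifferentiableAt ℂ (fun w : ℂ => v - w) w := by fun_prop
    exact (DifferentiableAt.comp w hw h1).const_sub v
  · have h1 := (hF.2.comp ht).neg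
    rw [neg_zero] at h1
    refine h1.congr fun w => ?_
    simp only [Function.comp]
    ring

theorem HasRes.refl {F : ℂ → ℂ} {a : ℂ} (hF : HasRes F a) (v : ℂ) :
    HasRes (fun w => v - F (v - w)) a := by
  have ht := tendsto_refl v
  have h2 : Tendsto (fun w : ℂ => w / (v - w)) (cobounded ℂ) (𝓝 (-1)) := by
    have h3 : Tendsto (fun w : ℂ => w⁻¹) (cobounded ℂ) (𝓝 0) := tendsto_inv₀_cobounded
    have h4 := ((h3.comp ht).const_mul v).add_const (-1)
    rw [mul_zero, zero_add] at h4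
    refine h4.congr' ?_
    filter_upwards [ht.eventually ne_zero_ev] with w hw
    simp only [Function.comp]
    field_simp
    ring
  have hF' : Tendsto (fun w => w * (F w - w)) (cobounded ℂ) (𝓝 a) := hF
  have h3 := (h2.mul (hF'.comp ht)).neg
  have e1 : -(-1 * a) = a := by ring
  rw [e1] at h3
  refine h3.congr' ?_
  filter_upwards [ht.eventually ne_zero_ev] with w hw
  simp only [Function.comp]
  field_simp
  ring

theorem IP_refl_comm {H K : ℂ → ℂ} (hH : Good H) (hK : Good K)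
    (hHK : H ∘ K =ᶠ[cobounded ℂ] id) (hKH : K ∘ H =ᶠ[cobounded ℂ] id) (v : ℂ) :
    IP 2 (fun w => H (v - K (v - w))) := by
  have h0 : IP 1 (fun w : ℂ => v - w) := ⟨_, id, invo_refl v, EventuallyEq.rfl, EventuallyEq.rfl⟩
  have h1 := h0.conj hH hK hHK hKH
  have h2 := h1.comp h0
  exact h2.congr (Eventually.of_forall fun w => rfl)

/-- group-theoretic part of the reduction -/
theorem red {F G : ℂ → ℂ} (hF : NI F) (hG : NI G) (u v : ℂ) :
    ∃ X, IP 4 X ∧
      F ∘ G =ᶠ[cobounded ℂ] X ∘ ((fun w => u - F (u - w)) ∘ (fun w => v - G (v - w))) := by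
  obtain ⟨K, hK, hFK, hKF⟩ := hF.inv
  obtain ⟨L, hL, hGL, hLG⟩ := hG.inv
  -- inverse of `F' = u - F (u - ·)`
  have hF' := hF.refl u
  have hK' := hK.refl u
  have hFK' : (fun w => u - F (u - w)) ∘ (fun w => u - K (u - w)) =ᶠ[cobounded ℂ] id := by
    filter_upwards [(tendsto_refl u).eventually hFK] with w h1
    simp only [Function.comp, id] at h1 ⊢
    rw [sub_sub_cancel, h1, sub_sub_cancel]
  have hKF' : (fun w => u - K (u - w)) ∘ (fun w => u - F (u - w)) =ᶠ[cobounded ℂ] id := by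
    filter_upwards [(tendsto_refl u).eventually hKF] with w h1
    simp only [Function.comp, id] at h1 ⊢
    rw [sub_sub_cancel, h1, sub_sub_cancel]
  have h1 := IP_refl_comm hF.good hK.good hFK hKF u
  have h2 := IP_refl_comm hG.good hL.good hGL hLG v
  have h3 := h1.comp (h2.conj hF'.good hK'.good hFK' hKF')
  refine ⟨_, h3, ?_⟩
  have hGv := (hG.refl v).good.tendsto
  filter_upwards [hGv.eventually hKF', (tendsto_refl v).eventually hLG, hG.good.tendsto.eventually
    ((tendsto_refl u).eventually hKF)] with w g1 g2 g3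
  simp only [Function.comp, id] at g1 g2 g3 ⊢
  rw [g1]
  simp only [sub_sub_cancel]
  rw [g2]
  simp only [sub_sub_cancel]
  rw [g3, sub_sub_cancel]

end V9

section V10
open Complex Set Filter Topology Metric Bornology

section
variable {ι : Type} {d : ι → ι → ℝ} {x y α : ℝ} {e : ι → ℂ → ℂ}

theorem decomp (hd : ∀ i j, 0 ≤ d i j) (hx : 0 ≤ x) (hy : 0 ≤ y) (hα0 : 0 ≤ α)
    (hα : 8192 * (2 * x + 2 * y + 4) * α ≤ 1) (he : Fam d (XS x y 0) α e) :
    ∃ p q : ι → ℂ → ℂ, Fam d (AS x y 1) (64 * (2 * x + 2 * y + 4) * α) p ∧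
      Fam d (BS x y 2) (128 * (2 * x + 2 * y + 4) * α) q ∧
      ∀ i, ∀ w ∈ XS x y 2, w + e i w = (w + q i w) + p i (w + q i w) := by
  have G := geo (x := x) (y := y) hx
  set Λ := 2 * x + 2 * y + 4 with hΛ
  have hΛ1 : 1 ≤ Λ := by rw [hΛ]; linarith
  obtain ⟨p, q, hp, hq, hr⟩ := cousin G hd hΛ1
    (fun t δ α e ht hδ htδ hα he => split hd hx hy t δ α e ht hδ htδ hα he) hα0 hα he
  have hΛα : 0 ≤ Λ * α := by positivity
  have s12 : Sh (2 * (1 / 2)) (BS x y 2) (BS x y 1) := by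
    have := G.sB 1 1 (by norm_num)
    norm_num at this ⊢
    exact this
  obtain ⟨g, hg, hge⟩ := hp.inv hd (G.oB 1) (G.oB 2) (δ := 1 / 2) (by norm_num)
    (by nlinarith) (by nlinarith) ((G.co 2).mono fun w hw => G.XB 2 hw) s12
  refine ⟨q, g, hq, hg.le hd (by linarith), ?_⟩
  intro i w hw
  have hz : w + g i w ∈ XS x y 1 := by
    have h1 := G.sX 1 1 (by norm_num)
    norm_num at h1
    apply h1 w hw
    have := hg.bd i w (G.XB 2 hw)
    simp only [add_sub_cancel_left]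
    nlinarith
  have h2 := hr i _ hz
  have h3 := hge i w (G.XB 2 hw)
  rw [h3] at h2
  exact h2

theorem Fam.shift {Ω : Set ℂ} {p : ι → ℂ → ℂ} (h : Fam d Ω α p) (v : ℂ) :
    Fam d {w | w - v ∈ Ω} α (fun i w => p i (w - v)) := by
  refine ⟨fun i => ?_, fun i w hw => h.bd i _ hw, fun i j w hw => h.lip i j _ hw, fun i => ?_⟩
  · exact (h.diff i).comp (by fun_prop) (fun w hw => hw)
  · have : Tendsto (fun w : ℂ => w - v) (cobounded ℂ) (cobounded ℂ) := by
      simpa [sub_eq_add_neg] using (good_trans (-v)).tendsto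
    exact (h.lim i).comp this

theorem Fam.refl {Ω : Set ℂ} {p : ι → ℂ → ℂ} (h : Fam d Ω α p) (v : ℂ) :
    Fam d {w | v - w ∈ Ω} α (fun i w => - p i (v - w)) := by
  refine ⟨fun i => ?_, fun i w hw => by rw [norm_neg]; exact h.bd i _ hw,
    fun i j w hw => ?_, fun i => ?_⟩
  · have h1 : DifferentiableOn ℂ (fun w : ℂ => v - w) {w | v - w ∈ Ω} := by fun_prop
    exact ((h.diff i).comp h1 (fun w hw => hw)).neg
  · have h1 := h.lip i j _ hw
    have h2 : -p i (v - w) - -p j (v - w) = -(p i (v - w) - p j (v - w)) := by ring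
    rw [h2, norm_neg]
    exact h1
  · have := ((h.lim i).comp (tendsto_refl v)).neg
    rw [neg_zero] at this
    exact this

theorem Fam.ni {Ω : Set ℂ} (h : Fam d Ω α e) (hΩ : IsOpen Ω)
    (hco : ∀ᶠ w in cobounded ℂ, w ∈ Ω) (i : ι) : NI (fun w => w + e i w) := by
  refine ⟨?_, ?_⟩
  · filter_upwards [hco] with w hw
    exact differentiableAt_id.add (((h.diff i) w hw).differentiableAt (hΩ.mem_nhds hw))
  · simpa using h.lim i

theorem reduce1 (hd : ∀ i j, 0 ≤ d i j) (hx : 0 ≤ x) (hy : 0 ≤ y) (hα0 : 0 ≤ α)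
    (hα : 8192 * (2 * x + 2 * y + 4) * α ≤ 1) (he : Fam d (XS x y 0) α e) :
    ∃ e1 : ι → ℂ → ℂ, Fam d (XS (x / 2) y 3) (200 * (2 * x + 2 * y + 4) * α) e1 ∧
      ∀ i, (∃ X, IP 4 X ∧ (fun w => w + e i w) =ᶠ[cobounded ℂ] X ∘ (fun w => w + e1 i w)) ∧
        (HasRes (fun w => w + e i w) 0 → HasRes (fun w => w + e1 i w) 0) := by
  obtain ⟨p, q, hp, hq, hr⟩ := decomp hd hx hy hα0 hα he
  have G := geo (x := x) (y := y) hx
  have G2 := geo (x := x / 2) (y := y) (by linarith)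
  set Λ := 2 * x + 2 * y + 4 with hΛ
  have hΛα : 0 ≤ Λ * α := by positivity
  set v : ℂ := ((x / 2 : ℝ) : ℂ) with hv
  have hvre : v.re = x / 2 := by simp [hv]
  have hvim : v.im = 0 := by simp [hv]
  have hp' : Fam d (XS (x / 2) y 1) (64 * Λ * α) (fun i w => - p i ((-v) - w)) := by
    apply (hp.refl (-v)).mono
    rintro w (h | h | h | h)
    · right; left; rw [sub_re, neg_re, hvre]; linarith
    · left; rw [sub_re, neg_re, hvre]; linarith
    · right; right; right; rw [sub_im, neg_im, hvim]; linarith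
    · right; right; left; rw [sub_im, neg_im, hvim]; linarith
  have hq' : Fam d (XS (x / 2) y 3) (128 * Λ * α) (fun i w => - q i (v - w)) := by
    apply (hq.refl v).mono
    rintro w (h | h | h | h)
    · right; left; rw [sub_re, hvre]; linarith
    · left; rw [sub_re, hvre]; linarith
    · right; right; right; rw [sub_im, hvim]; linarith
    · right; right; left; rw [sub_im, hvim]; linarith
  have s13 : Sh (2 * 1) (XS (x / 2) y 3) (XS (x / 2) y 1) := by
    have := G2.sX 1 2 (by norm_num)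
    norm_num at this ⊢
    exact this
  have hc := hp'.comp hq' hd (G2.oX 1) (δ := 1) (by norm_num) (by nlinarith)
    (by nlinarith) (by nlinarith) s13
  refine ⟨_, hc.le hd ?_, ?_⟩
  · have h1 : 64 * Λ * α * (128 * Λ * α) ≤ Λ * α := by nlinarith
    rw [div_one]
    linarith
  · intro i
    have nL : NI (fun w => w + p i w) := hp.ni (G.oA 1) ((G.co 1).mono fun w hw => G.XA 1 hw) i
    have nR : NI (fun w => w + q i w) := hq.ni (G.oB 2) ((G.co 2).mono fun w hw => G.XB 2 hw) i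
    have hFG : (fun w => w + e i w) =ᶠ[cobounded ℂ] (fun w => w + p i w) ∘ (fun w => w + q i w) := by
      filter_upwards [G.co 2] with w hw
      exact hr i w hw
    have hF1 : (fun w => w + (- q i (v - w) + - p i (-v - (w + - q i (v - w)))))
        = (fun w => -v - ((-v - w) + p i (-v - w))) ∘ (fun w => v - ((v - w) + q i (v - w))) := by
      funext w
      simp only [Function.comp]
      have e1 : v - ((v - w) + q i (v - w)) = w + - q i (v - w) := by ring
      rw [e1]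
      ring
    refine ⟨?_, ?_⟩
    · obtain ⟨X, hX, hXe⟩ := red nL nR (-v) v
      refine ⟨X, hX, ?_⟩
      rw [hF1]
      exact hFG.trans hXe
    · intro h0
      obtain ⟨a, ha⟩ := nL.res
      obtain ⟨b, hb⟩ := nR.res
      have h1 := ha.comp hb nR
      have h2 := h0.congr hFG
      have h3 : a + b = 0 := h1.unique h2
      have h4 := ha.refl (-v)
      have h5 := hb.refl v
      have h7 := h4.comp h5 (nR.refl v)
      rw [h3] at h7
      rw [hF1]
      exact h7

end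

end V10

section V11
open Complex Set Filter Topology Metric Bornology

section
variable {ι : Type} {d : ι → ι → ℝ} {x y α : ℝ} {e : ι → ℂ → ℂ}

theorem tendsto_mul_cobounded {c : ℂ} (hc : c ≠ 0) :
    Tendsto (fun w : ℂ => c * w) (cobounded ℂ) (cobounded ℂ) := by
  rw [← tendsto_norm_atTop_iff_cobounded]
  simp only [norm_mul]
  exact tendsto_norm_cobounded_atTop.const_mul_atTop (norm_pos_iff.2 hc)

/-- conjugation of a family by `w ↦ c * w`, `|c| = 1` -/
theorem Fam.rot {Ω : Set ℂ} (h : Fam d Ω α e) {c c' : ℂ} (hc : ‖c‖ = 1) (hc' : ‖c'‖ = 1) :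
    Fam d {w | c * w ∈ Ω} α (fun i w => c' * e i (c * w)) := by
  refine ⟨fun i => ?_, fun i w hw => ?_, fun i j w hw => ?_, fun i => ?_⟩
  · have h1 : DifferentiableOn ℂ (fun w : ℂ => c * w) {w | c * w ∈ Ω} := by fun_prop
    exact ((h.diff i).comp h1 (fun w hw => hw)).const_mul c'
  · rw [norm_mul, hc', one_mul]; exact h.bd i _ hw
  · rw [← mul_sub, norm_mul, hc', one_mul]; exact h.lip i j _ hw
  · have h1 := ((h.lim i).comp (tendsto_mul_cobounded (c := c)
      (by rintro rfl; simp at hc))).const_mul c'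
    rw [mul_zero] at h1
    exact h1

theorem good_mul {c : ℂ} (hc : c ≠ 0) : Good (fun w => c * w) := by
  refine ⟨Eventually.of_forall fun w => by fun_prop, c, hc, ?_⟩
  refine tendsto_const_nhds.congr' ?_
  filter_upwards [ne_zero_ev] with w hw
  field_simp

theorem IP.rot {n : ℕ} {X : ℂ → ℂ} (hX : IP n X) {c : ℂ} (hc : c ≠ 0) :
    IP n (fun w => c * X (c⁻¹ * w)) := by
  have := hX.conj (good_mul hc) (good_mul (inv_ne_zero hc))
    (Eventually.of_forall fun w => by simp [hc]) (Eventually.of_forall fun w => by simp [hc])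
  exact this

theorem HasRes.rot {F : ℂ → ℂ} (h : HasRes F 0) {c : ℂ} (hc : c ≠ 0) :
    HasRes (fun w => c⁻¹ * F (c * w)) 0 := by
  have h' : Tendsto (fun w => w * (F w - w)) (cobounded ℂ) (𝓝 0) := h
  have h1 := (h'.comp (tendsto_mul_cobounded hc)).const_mul (c⁻¹ * c⁻¹)
  rw [mul_zero] at h1
  refine h1.congr fun w => ?_
  simp only [Function.comp]
  field_simp

theorem reduceAll (hd : ∀ i j, 0 ≤ d i j) (hα0 : 0 ≤ α)
    (hα : α ≤ 1 / (8192 * 1000 * 200 * 1000)) (he : Fam d (XS 100 100 0) α e) :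
    ∃ e2 : ι → ℂ → ℂ, Fam d {w | 79 < ‖w‖} (200 * 1000 * (200 * 1000) * α) e2 ∧
      ∀ i, (∃ X, IP 8 X ∧ (fun w => w + e i w) =ᶠ[cobounded ℂ] X ∘ (fun w => w + e2 i w)) ∧
        (HasRes (fun w => w + e i w) 0 → HasRes (fun w => w + e2 i w) 0) := by
  obtain ⟨e1, he1, h1⟩ := reduce1 hd (by norm_num) (by norm_num) hα0 (by nlinarith) he
  have hr := he1.rot (c := I) (c' := -I) (by simp) (by simp)
  have hr' : Fam d (XS 103 53 0) (200 * (2 * 100 + 2 * 100 + 4) * α)
      (fun i w => -I * e1 i (I * w)) := by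
    apply hr.mono
    rintro w (h | h | h | h)
    · right; right; left
      simp only [mul_im, I_re, I_im, zero_mul, one_mul, zero_add]; linarith
    · right; right; right
      simp only [mul_im, I_re, I_im, zero_mul, one_mul, zero_add]; linarith
    · right; left
      simp only [mul_re, I_re, I_im, zero_mul, one_mul, zero_sub]; linarith
    · left
      simp only [mul_re, I_re, I_im, zero_mul, one_mul, zero_sub]; linarith
  obtain ⟨f, hf, h2⟩ := reduce1 hd (by norm_num) (by norm_num) (by positivity)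
    (by nlinarith) hr'
  have hf2 := hf.rot (c := -I) (c' := I) (by simp) (by simp)
  refine ⟨_, (hf2.mono ?_).le hd (by nlinarith), ?_⟩
  · intro w hw
    have hw' : 79 < ‖w‖ := hw
    by_contra hcon
    simp only [XS, Ext, mem_ofPred_eq, not_or, not_lt, mul_re, mul_im, neg_re, neg_im, I_re, I_im]
      at hcon
    obtain ⟨g1, g2, g3, g4⟩ := hcon
    have h5 : ‖w‖ ^ 2 ≤ 79 ^ 2 := by
      rw [← normSq_eq_norm_sq, normSq_apply]
      nlinarith
    nlinarith
  · intro i
    obtain ⟨⟨X, hX, hXe⟩, hres1⟩ := h1 i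
    obtain ⟨⟨Y, hY, hYe⟩, hres2⟩ := h2 i
    have hI : (I : ℂ)⁻¹ = -I := Complex.inv_I
    refine ⟨⟨X ∘ (fun w => I * Y (I⁻¹ * w)), hX.comp (hY.rot I_ne_zero), ?_⟩, ?_⟩
    · refine hXe.trans ?_
      have hYe' := (tendsto_mul_cobounded (c := -I) (by simp)).eventually hYe
      filter_upwards [hYe'] with w hw
      simp only [Function.comp] at hw ⊢
      congr 1
      have e3 : I * (-I * w) = w := by rw [← mul_assoc, mul_neg, I_mul_I]; ring
      rw [e3] at hw
      have e2 : I⁻¹ * (w + I * f i (-I * w)) = -I * w + f i (-I * w) := by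
        rw [hI]; linear_combination (-f i (-I * w)) * I_mul_I
      rw [e2, ← hw]
      linear_combination (w + e1 i w) * I_mul_I
    · intro h0
      have h3 := (hres1 h0).rot I_ne_zero
      have h4 : HasRes (fun w => w + -I * e1 i (I * w)) 0 := by
        refine h3.congr (Eventually.of_forall fun w => ?_)
        simp only [hI]
        linear_combination (-w) * I_mul_I
      have h5 := (hres2 h4).rot (c := -I) (by simp)
      refine h5.congr (Eventually.of_forall fun w => ?_)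
      have hI2 : (-I : ℂ)⁻¹ = I := by rw [inv_neg, hI, neg_neg]
      simp only [hI2]
      linear_combination (-w) * I_mul_I

end

end V11

section V12
open Complex Set Filter Topology Metric Bornology

theorem gbound {g : ℂ → ℂ} {C : ℝ} (hg : DifferentiableOn ℂ g (ball 0 (1 / 79)))
    (hb : ∀ z : ℂ, z ≠ 0 → ‖z‖ < 1 / 79 → ‖g z‖ * ‖z‖ ^ 2 ≤ C) {z : ℂ} (hz : ‖z‖ ≤ 1 / 80) :
    ‖g z‖ ≤ 6400 * C := by
  have hcl : closure (ball (0 : ℂ) (1 / 80)) = closedBall 0 (1 / 80) :=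
    closure_ball _ (by norm_num)
  apply Complex.norm_le_of_forall_mem_frontier_norm_le (U := ball (0 : ℂ) (1 / 80)) isBounded_ball
  · apply DifferentiableOn.diffContOnCl
    rw [hcl]
    apply hg.mono
    intro y hy
    rw [mem_closedBall, dist_zero_right] at hy
    rw [mem_ball, dist_zero_right]
    linarith
  · intro y hy
    rw [frontier_ball _ (by norm_num), mem_sphere, dist_zero_right] at hy
    have h1 := hb y (by intro h0; rw [h0, norm_zero] at hy; norm_num at hy)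
      (by rw [hy]; norm_num)
    rw [hy] at h1
    norm_num at h1 ⊢
    linarith
  · rw [hcl, mem_closedBall, dist_zero_right]
    exact hz

theorem prim {ε : ℂ → ℂ} (hd : DifferentiableOn ℂ ε {w | 79 < ‖w‖})
    (hres : Tendsto (fun w => w * ε w) (cobounded ℂ) (𝓝 0)) :
    ∃ g P : ℂ → ℂ, DifferentiableOn ℂ g (ball 0 (1 / 79)) ∧
      (∀ z : ℂ, z ≠ 0 → ‖z‖ < 1 / 79 → g z = ε z⁻¹ / z ^ 2) ∧
      (∀ z ∈ ball (0 : ℂ) (1 / 79), HasDerivAt P (g z) z) ∧ P 0 = 0 := by
  set G : ℂ → ℂ := fun z => if z = 0 then 0 else ε z⁻¹ with hG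
  have hGne : ∀ z, z ≠ 0 → G z = ε z⁻¹ := fun z hz => by rw [hG]; simp [hz]
  have hG0 : G 0 = 0 := by rw [hG]; simp
  have hop : IsOpen {w : ℂ | 79 < ‖w‖} := isOpen_lt continuous_const continuous_norm
  have hslope : Tendsto (fun z => z⁻¹ * G z) (𝓝[≠] 0) (𝓝 0) := by
    have h1 := hres.comp tendsto_inv_punct
    refine h1.congr' ?_
    filter_upwards [self_mem_nhdsWithin] with z hz
    simp only [Function.comp]
    rw [hGne z hz]
  have hder0 : HasDerivAt G 0 0 := by
    rw [hasDerivAt_iff_tendsto_slope]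
    refine hslope.congr fun z => ?_
    rw [slope_def_field, hG0, sub_zero, sub_zero]
    ring
  have hGd : DifferentiableOn ℂ G (ball 0 (1 / 79)) := by
    intro z hz
    rw [mem_ball, dist_zero_right] at hz
    by_cases hz0 : z = 0
    · rw [hz0]; exact hder0.differentiableAt.differentiableWithinAt
    · have hbig : (79 : ℝ) < ‖z⁻¹‖ := by
        rw [norm_inv]
        have hp : 0 < ‖z‖ := norm_pos_iff.2 hz0
        rw [lt_inv_comm₀ (by norm_num) hp]
        simpa using hz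
      have h1 : DifferentiableAt ℂ ε z⁻¹ := (hd _ hbig).differentiableAt (hop.mem_nhds hbig)
      have h2 : DifferentiableAt ℂ (fun z : ℂ => z⁻¹) z := differentiableAt_inv hz0
      have h3 : DifferentiableAt ℂ (fun z => ε z⁻¹) z := DifferentiableAt.comp z h1 h2
      refine (h3.congr_of_eventuallyEq ?_).differentiableWithinAt
      filter_upwards [isOpen_ne.mem_nhds hz0] with y hy
      exact hGne y hy
  have hn : ball (0 : ℂ) (1 / 79) ∈ 𝓝 (0 : ℂ) := ball_mem_nhds _ (by norm_num)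
  have h1 := (Complex.differentiableOn_dslope hn).2 hGd
  have h2 := (Complex.differentiableOn_dslope hn).2 h1
  set g := dslope (dslope G 0) 0 with hg
  obtain ⟨P, hP⟩ := h2.isExactOn_ball
  refine ⟨g, fun z => P z - P 0, h2, ?_, ?_, by simp⟩
  · intro z hz0 hz
    rw [hg, dslope_of_ne _ hz0, slope_def_field, dslope_of_ne _ hz0, slope_def_field, dslope_same,
      hder0.deriv, hG0, hGne z hz0]
    simp only [sub_zero]
    field_simp
  · intro z hz
    exact (hP z hz).sub_const _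

theorem outE {ε g P : ℂ → ℂ}
    (h2 : ∀ z : ℂ, z ≠ 0 → ‖z‖ < 1 / 79 → g z = ε z⁻¹ / z ^ 2)
    (h3 : ∀ z ∈ ball (0 : ℂ) (1 / 79), HasDerivAt P (g z) z) {w : ℂ} (hw : 79 < ‖w‖) :
    HasDerivAt (fun w => - P w⁻¹) (ε w) w := by
  have hw0 : w ≠ 0 := by intro h0; rw [h0, norm_zero] at hw; norm_num at hw
  have hs : ‖w⁻¹‖ < 1 / 79 := by
    rw [norm_inv, one_div]
    exact inv_strictAnti₀ (by norm_num) hw
  have h4 := h3 w⁻¹ (by rwa [mem_ball, dist_zero_right])
  have h5 : HasDerivAt (fun w : ℂ => w⁻¹) (-(w ^ 2)⁻¹) w := hasDerivAt_inv hw0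
  have h6 := (HasDerivAt.comp w h4 h5).neg
  refine h6.congr_deriv ?_
  rw [h2 _ (inv_ne_zero hw0) hs, inv_inv]
  field_simp

theorem boundE {g P : ℂ → ℂ} {C : ℝ} (hg : DifferentiableOn ℂ g (ball 0 (1 / 79)))
    (hb : ∀ z : ℂ, z ≠ 0 → ‖z‖ < 1 / 79 → ‖g z‖ * ‖z‖ ^ 2 ≤ C)
    (h3 : ∀ z ∈ ball (0 : ℂ) (1 / 79), HasDerivAt P (g z) z) (h0 : P 0 = 0) {w : ℂ}
    (hw : 80 < ‖w‖) : ‖P w⁻¹‖ ≤ 80 * C := by
  have hw0 : w ≠ 0 := by intro h0; rw [h0, norm_zero] at hw; norm_num at hw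
  have hs : ‖w⁻¹‖ ≤ 1 / 80 := by
    rw [norm_inv, one_div]
    exact inv_anti₀ (by norm_num) hw.le
  have hC0 : 0 ≤ 6400 * C := (norm_nonneg _).trans (gbound hg hb (z := 0) (by simp))
  have h4 := (convex_closedBall (0 : ℂ) (1 / 80)).norm_image_sub_le_of_norm_hasDerivWithin_le
    (f := P) (f' := g) (C := 6400 * C) (x := 0) (y := w⁻¹)
    (fun z hz => by
      rw [mem_closedBall, dist_zero_right] at hz
      exact (h3 z (by rw [mem_ball, dist_zero_right]; linarith)).hasDerivWithinAt)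
    (fun z hz => by
      rw [mem_closedBall, dist_zero_right] at hz
      exact gbound hg hb hz)
    (by simp) (by rwa [mem_closedBall, dist_zero_right])
  rw [h0, sub_zero, sub_zero] at h4
  calc ‖P w⁻¹‖ ≤ 6400 * C * ‖w⁻¹‖ := h4
    _ ≤ 6400 * C * (1 / 80) := by gcongr
    _ = 80 * C := by ring

section
variable {ι : Type} {d : ι → ι → ℝ} {α : ℝ} {e : ι → ℂ → ℂ}

theorem fam_prim (he : Fam d {w | 79 < ‖w‖} α e)
    (hres : ∀ i, Tendsto (fun w => w * e i w) (cobounded ℂ) (𝓝 0)) :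
    ∃ E : ι → ℂ → ℂ, Fam d {w | 80 < ‖w‖} (80 * α) E ∧
      ∀ i, ∀ w : ℂ, 79 < ‖w‖ → HasDerivAt (E i) (e i w) w := by
  have h := fun i => prim (he.diff i) (hres i)
  choose g P hg hgv hP hP0 using h
  have hgb : ∀ i, ∀ z : ℂ, z ≠ 0 → ‖z‖ < 1 / 79 → ‖g i z‖ * ‖z‖ ^ 2 ≤ α := by
    intro i z hz0 hz
    have hbig : (79 : ℝ) < ‖z⁻¹‖ := by
      rw [norm_inv]
      have hp : 0 < ‖z‖ := norm_pos_iff.2 hz0
      rw [lt_inv_comm₀ (by norm_num) hp]
      simpa using hz
    rw [hgv i z hz0 hz, norm_div, norm_pow, div_mul_cancel₀ _ (pow_ne_zero 2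
      (norm_ne_zero_iff.2 hz0))]
    exact he.bd i _ hbig
  have hgl : ∀ i j, ∀ z : ℂ, z ≠ 0 → ‖z‖ < 1 / 79 → ‖g i z - g j z‖ * ‖z‖ ^ 2 ≤ α * d i j := by
    intro i j z hz0 hz
    have hbig : (79 : ℝ) < ‖z⁻¹‖ := by
      rw [norm_inv]
      have hp : 0 < ‖z‖ := norm_pos_iff.2 hz0
      rw [lt_inv_comm₀ (by norm_num) hp]
      simpa using hz
    rw [hgv i z hz0 hz, hgv j z hz0 hz, ← sub_div, norm_div, norm_pow,
      div_mul_cancel₀ _ (pow_ne_zero 2 (norm_ne_zero_iff.2 hz0))]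
    exact he.lip i j _ hbig
  refine ⟨fun i w => - P i w⁻¹, ⟨?_, ?_, ?_, ?_⟩, ?_⟩
  · intro i w hw
    have hw' : 80 < ‖w‖ := hw
    exact (outE (hgv i) (hP i) (by linarith)).differentiableAt.differentiableWithinAt
  · intro i w hw
    rw [norm_neg]
    exact boundE (hg i) (hgb i) (hP i) (hP0 i) hw
  · intro i j w hw
    have h1 := boundE (g := fun z => g i z - g j z) (P := fun z => P i z - P j z)
      (C := α * d i j) ((hg i).sub (hg j)) (hgl i j)
      (fun z hz => (hP i z hz).sub (hP j z hz)) (by simp [hP0]) hw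
    have h2 : -P i w⁻¹ - -P j w⁻¹ = -(P i w⁻¹ - P j w⁻¹) := by ring
    rw [h2, norm_neg]
    linarith
  · intro i
    have h1 : Tendsto (fun w : ℂ => w⁻¹) (cobounded ℂ) (𝓝 0) := tendsto_inv₀_cobounded
    have h2 : ContinuousAt (P i) 0 := (hP i 0 (by simp)).continuousAt
    have h3 := (h2.tendsto.comp h1).neg
    rw [hP0 i, neg_zero] at h3
    exact h3
  · intro i w hw
    exact outE (hgv i) (hP i) hw

end

end V12

section V13
open Complex Set Filter Topology Metric Bornology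

theorem out_open (r : ℝ) : IsOpen {w : ℂ | r < ‖w‖} := isOpen_lt continuous_const continuous_norm

theorem out_sh (r δ : ℝ) : Sh δ {w : ℂ | r + δ < ‖w‖} {w : ℂ | r < ‖w‖} := by
  intro w hw z hz
  have h1 : r + δ < ‖w‖ := hw
  have h2 : ‖w‖ ≤ ‖z‖ + ‖z - w‖ := by
    calc ‖w‖ = ‖z - (z - w)‖ := by ring_nf
      _ ≤ _ := norm_sub_le _ _
  show r < ‖z‖
  linarith

theorem out_co (r : ℝ) : ∀ᶠ w in cobounded ℂ, w ∈ {w : ℂ | r < ‖w‖} :=
  ev_iff.2 ⟨r, fun _ hw => hw⟩

theorem psi_bound {ε E : ℂ → ℂ} {C a : ℝ} (ha : 0 < a) (ha1 : a ≤ 1)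
    (hd : DifferentiableOn ℂ ε {w | 79 < ‖w‖}) (hb : ∀ w ∈ {w : ℂ | 79 < ‖w‖}, ‖ε w‖ ≤ C)
    (hE : ∀ w : ℂ, 79 < ‖w‖ → HasDerivAt E (ε w) w) {w : ℂ} (hw : 81 < ‖w‖) :
    ‖ε w - (E w / a - E (w - a) / a)‖ ≤ a * C := by
  have hball : ∀ z : ℂ, ‖z - w‖ ≤ 2 * 1 → z ∈ {w : ℂ | 79 < ‖w‖} := by
    intro z hz
    apply out_sh 79 2 w _ z (by linarith)
    show (79 : ℝ) + 2 < ‖w‖
    linarith
  have hC0 : 0 ≤ C := (norm_nonneg _).trans (hb w (hball w (by simp)))
  have h1 := (convex_closedBall w a).norm_image_sub_le_of_norm_hasDerivWithin_le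
    (f := fun z => E z - z * ε w) (f' := fun z => ε z - ε w) (C := C * a) (x := w)
    (y := w - a)
    (fun z hz => by
      rw [mem_closedBall, dist_eq_norm] at hz
      have h2 : HasDerivAt (fun z => E z - z * ε w) (ε z - 1 * ε w) z :=
        (hE z (hball z (by linarith))).sub ((hasDerivAt_id z).mul_const (ε w))
      rw [one_mul] at h2
      exact h2.hasDerivWithinAt)
    (fun z hz => by
      rw [mem_closedBall, dist_eq_norm] at hz
      have h3 := lipL (out_open 79) hd hb (w := w) (δ := 1) one_pos hball (z1 := z) (z2 := w)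
        (by linarith) (by simp)
      rw [div_one] at h3
      calc ‖ε z - ε w‖ ≤ C * ‖z - w‖ := h3
        _ ≤ C * a := by gcongr)
    (by simp [ha.le])
    (by rw [mem_closedBall, dist_eq_norm, sub_sub_cancel_left, norm_neg]; simp [abs_of_pos ha])
  have h4 : w - (a : ℂ) - w = -a := by ring
  rw [h4, norm_neg, norm_real, Real.norm_of_nonneg ha.le] at h1
  have hane : (a : ℂ) ≠ 0 := by exact_mod_cast ha.ne'
  have h5 : ε w - (E w / a - E (w - a) / a)
      = ((E (w - a) - (w - a) * ε w) - (E w - w * ε w)) / a := by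
    field_simp
    ring
  rw [h5, norm_div, norm_real, Real.norm_of_nonneg ha.le, div_le_iff₀ ha]
  calc _ ≤ C * a * a := h1
    _ = a * C * a := by ring

theorem NI.right_inv {F K : ℂ → ℂ} (hF : NI F) (hK : NI K) (h : F ∘ K =ᶠ[cobounded ℂ] id) :
    K ∘ F =ᶠ[cobounded ℂ] id := by
  obtain ⟨L, hL, hFL, hLF⟩ := hF.inv
  -- K = L ∘ F ∘ K = L
  have h1 : K =ᶠ[cobounded ℂ] L := by
    filter_upwards [hK.good.tendsto.eventually hLF, h] with w h2 h3
    simp only [Function.comp, id] at h2 h3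
    rw [← h2, h3]
  filter_upwards [hF.good.tendsto.eventually h1, hLF] with w h2 h3
  simp only [Function.comp, id] at h3 ⊢
  rw [h2, h3]

theorem hasRes_id : HasRes (id : ℂ → ℂ) 0 := by
  unfold HasRes
  simp

section
variable {ι : Type} {d : ι → ι → ℝ} {α β : ℝ} {e f : ι → ℂ → ℂ} {Ω : Set ℂ}

theorem Fam.sub' (h : Fam d Ω α e) (h' : Fam d Ω β f) :
    Fam d Ω (α + β) (fun i w => e i w - f i w) := by
  refine ⟨fun i => (h.diff i).sub (h'.diff i), fun i w hw => ?_, fun i j w hw => ?_, fun i => ?_⟩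
  · exact (norm_sub_le _ _).trans (add_le_add (h.bd i w hw) (h'.bd i w hw))
  · have h1 := h.lip i j w hw
    have h2 := h'.lip i j w hw
    calc ‖e i w - f i w - (e j w - f j w)‖ = ‖(e i w - e j w) - (f i w - f j w)‖ := by ring_nf
      _ ≤ ‖e i w - e j w‖ + ‖f i w - f j w‖ := norm_sub_le _ _
      _ ≤ (α + β) * d i j := by linarith
  · simpa using (h.lim i).sub (h'.lim i)

theorem Fam.congr' (h : Fam d Ω α e) (hef : ∀ i w, e i w = f i w) : Fam d Ω α f := by
  have : e = f := by funext i w; exact hef i w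
  rwa [← this]

theorem comm_step (hd : ∀ i j, 0 ≤ d i j) {a : ℝ} (ha : 0 < a) (ha1 : a ≤ 1) (hα0 : 0 ≤ α)
    (hαa : 800 * α ≤ a) (he : Fam d {w | 79 < ‖w‖} α e)
    (hres : ∀ i, HasRes (fun w => w + e i w) 0) :
    ∃ n : ι → ℂ → ℂ, Fam d {w | 84 < ‖w‖} (a * α + 128000 * α ^ 2 / a ^ 2) n ∧
      ∀ i, (∃ X, IP 2 X ∧ (fun w => w + e i w) =ᶠ[cobounded ℂ]
          X ∘ (fun w => (w + n i w) - a)) ∧
        HasRes (fun w => w + n i w) 0 := by
  obtain ⟨E, hE, hEd⟩ := fam_prim he (fun i => by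
    have := hres i
    unfold HasRes at this
    simpa using this)
  have hane : (a : ℂ) ≠ 0 := by exact_mod_cast ha.ne'
  have hna : ‖(a : ℂ)‖ = a := by rw [norm_real, Real.norm_of_nonneg ha.le]
  have hαa' : α / a ≤ 1 / 800 := by rw [div_le_iff₀ ha]; linarith
  have hαa0 : 0 ≤ α / a := by positivity
  have hαα : α ≤ α / a := by rw [le_div_iff₀ ha]; nlinarith
  set k : ι → ℂ → ℂ := fun i w => E i w / a with hk
  have hkF : Fam d {w | 80 < ‖w‖} (80 * (α / a)) k := by
    refine ⟨fun i => (hE.diff i).div_const _, fun i w hw => ?_, fun i j w hw => ?_, fun i => ?_⟩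
    · rw [hk]
      simp only
      rw [norm_div, hna, div_le_iff₀ ha]
      have := hE.bd i w hw
      calc ‖E i w‖ ≤ 80 * α := this
        _ = 80 * (α / a) * a := by field_simp
    · rw [hk]
      simp only
      rw [← sub_div, norm_div, hna, div_le_iff₀ ha]
      have := hE.lip i j w hw
      calc ‖E i w - E j w‖ ≤ 80 * α * d i j := this
        _ = 80 * (α / a) * d i j * a := by field_simp
    · have := (hE.lim i).div_const (a : ℂ)
      rwa [zero_div] at this
  have hks : Fam d {w | 82 < ‖w‖} (80 * (α / a)) (fun i w => k i (w - a)) := by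
    apply (hkF.shift (a : ℂ)).mono
    intro w hw
    have hw' : (82 : ℝ) < ‖w‖ := hw
    show (80 : ℝ) < ‖w - a‖
    have := norm_sub_norm_le w (a : ℂ)
    rw [hna] at this
    linarith
  have hD : Fam d {w | 82 < ‖w‖} (80 * (α / a) + 80 * (α / a))
      (fun i w => k i w - k i (w - a)) :=
    (hkF.mono (fun w hw => by
      have hw' : (82 : ℝ) < ‖w‖ := hw
      show (80 : ℝ) < ‖w‖
      linarith)).sub' hks
  have s82 : Sh (2 * 1) {w : ℂ | 82 < ‖w‖} {w : ℂ | 80 < ‖w‖} := by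
    have := out_sh 80 2
    norm_num at this ⊢
    exact this
  have s84 : Sh (2 * 1) {w : ℂ | 84 < ‖w‖} {w : ℂ | 82 < ‖w‖} := by
    have := out_sh 82 2
    norm_num at this ⊢
    exact this
  obtain ⟨κ, hκ, hκe⟩ := hkF.inv hd (out_open 80) (out_open 82) (δ := 1) one_pos
    (by linarith) (by positivity) (out_co 82) s82
  have he84 : Fam d {w | 84 < ‖w‖} α e := he.mono (fun w hw => by
      have hw' : (84 : ℝ) < ‖w‖ := hw
      show (79 : ℝ) < ‖w‖
      linarith)
  have hυ := hκ.comp he84 hd (out_open 82) (δ := 1) one_pos (by linarith) hα0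
    (by positivity) s84
  have hυ' : Fam d {w | 84 < ‖w‖} (400 * (α / a)) (fun i w => e i w + κ i (w + e i w)) := by
    refine hυ.le hd ?_
    rw [div_one]
    nlinarith
  have hinc := hD.incr hυ' hd (out_open 82) (δ := 1) one_pos (by linarith) (by positivity)
    (by positivity) s84
  have hψ : Fam d {w | 84 < ‖w‖} (a * α) (fun i w => e i w - (k i w - k i (w - a))) := by
    refine ⟨fun i => (he84.diff i).sub ((hD.diff i).mono ?_), fun i w hw => ?_,
      fun i j w hw => ?_, fun i => ?_⟩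
    · intro w hw
      have hw' : (84 : ℝ) < ‖w‖ := hw
      show (82 : ℝ) < ‖w‖
      linarith
    · have hw' : (84 : ℝ) < ‖w‖ := hw
      exact psi_bound ha ha1 (he.diff i) (he.bd i) (hEd i) (by linarith)
    · have hw' : (84 : ℝ) < ‖w‖ := hw
      have h1 := psi_bound (ε := fun w => e i w - e j w) (E := fun w => E i w - E j w) ha ha1
        ((he.diff i).sub (he.diff j)) (he.lip i j)
        (fun w hw => (hEd i w hw).sub (hEd j w hw)) (w := w) (by linarith)
      have h2 : e i w - (k i w - k i (w - ↑a)) - (e j w - (k j w - k j (w - ↑a)))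
          = (e i w - e j w) - ((E i w - E j w) / a - (E i (w - a) - E j (w - a)) / a) := by
        simp only [hk]
        ring
      rw [h2]
      linarith
    · have := (he.lim i).sub (hD.lim i)
      rwa [sub_zero] at this
  have hn := hψ.sub' hinc
  refine ⟨fun i w => e i w - (k i (w + (e i w + κ i (w + e i w)))
    - k i (w + (e i w + κ i (w + e i w)) - a)), ?_, ?_⟩
  · refine (hn.congr' fun i w => ?_).le hd ?_
    · ring
    · apply le_of_eq
      field_simp
      ring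
  · intro i
    have nK : NI (fun w => w + k i w) := hkF.ni (out_open 80) (out_co 80) i
    have nL : NI (fun w => w + κ i w) := hκ.ni (out_open 82) (out_co 82) i
    have nF : NI (fun w => w + e i w) := he.ni (out_open 79) (out_co 79) i
    have hKL : (fun w => w + k i w) ∘ (fun w => w + κ i w) =ᶠ[cobounded ℂ] id := by
      filter_upwards [out_co 82] with w hw
      exact hκe i w hw
    have hLK := nK.right_inv nL hKL
    -- the composed map
    have hu : Tendsto (fun w => w + (e i w + κ i (w + e i w)) - a) (cobounded ℂ)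
        (cobounded ℂ) := by
      have h1 := nL.good.tendsto.comp nF.good.tendsto
      have h2 := (good_trans (-(a : ℂ))).tendsto.comp h1
      refine h2.congr fun w => ?_
      simp only [Function.comp]
      ring
    have hNeq : ∀ᶠ w in cobounded ℂ, w + (e i w - (k i (w + (e i w + κ i (w + e i w)))
        - k i (w + (e i w + κ i (w + e i w)) - a)))
        = (w + (e i w + κ i (w + e i w)) - a) + k i (w + (e i w + κ i (w + e i w)) - a) + a := by
      filter_upwards [nF.good.tendsto.eventually (out_co 82)] with w hw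
      have h1 := hκe i _ hw
      have h2 : w + (e i w + κ i (w + e i w)) = w + e i w + κ i (w + e i w) := by ring
      rw [h2]
      linear_combination -h1
    refine ⟨⟨_, (IP_trans (a : ℂ)).conj nK.good nL.good hKL hLK, ?_⟩, ?_⟩
    · filter_upwards [hNeq, hu.eventually hLK, nF.good.tendsto.eventually (out_co 82)]
        with w h1 h2 h3
      simp only [Function.comp, id] at h2 ⊢
      rw [h1]
      have h4 : w + (e i w + κ i (w + e i w)) - ↑a + k i (w + (e i w + κ i (w + e i w)) - ↑a)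
          + ↑a - ↑a = w + (e i w + κ i (w + e i w)) - ↑a
          + k i (w + (e i w + κ i (w + e i w)) - ↑a) := by ring
      rw [h4, h2]
      have h5 := hκe i _ h3
      have h6 : w + (e i w + κ i (w + e i w)) - ↑a + ↑a = w + e i w + κ i (w + e i w) := by ring
      rw [h6, h5]
    · obtain ⟨l, hl⟩ := nK.res
      obtain ⟨m, hm⟩ := nL.res
      have h1 : l + m = 0 := ((hl.comp hm nL).congr hKL).unique hasRes_id
      have h2 := (hl.shift (a : ℂ)).comp (hm.comp (hres i) nF) (nL.comp nF)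
      rw [add_zero, h1] at h2
      refine h2.congr ?_
      filter_upwards [hNeq] with w hw
      simp only [Function.comp]
      rw [hw]
      ring_nf

end

end V13

section V14
open Complex Set Filter Topology Metric Bornology

section
variable {ι : Type} {d : ι → ι → ℝ} {α : ℝ} {e : ι → ℂ → ℂ}

/-- the constant of the reduction -/
noncomputable def CC : ℝ := 200 * 1000 * (200 * 1000)

theorem Nop (hd : ∀ i j, 0 ≤ d i j) (hα0 : 0 ≤ α)
    (hα : α ≤ 1 / (1000000000 * CC ^ 4)) (he : Fam d (XS 100 100 0) α e)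
    (hres : ∀ i, HasRes (fun w => w + e i w) 0) :
    ∃ n : ι → ℂ → ℂ, Fam d {w | 84 < ‖w‖} (α / 8) n ∧
      ∀ i, (∃ X, IP 10 X ∧ (fun w => w + e i w) =ᶠ[cobounded ℂ]
          X ∘ (fun w => (w + n i w) - ((1 / (16 * CC) : ℝ) : ℂ))) ∧
        HasRes (fun w => w + n i w) 0 := by
  have hC : CC = 40000000000 := by unfold CC; norm_num
  obtain ⟨e2, he2, h2⟩ := reduceAll hd hα0
    (hα.trans (by rw [hC]; norm_num)) he
  have he2' : Fam d {w | 79 < ‖w‖} (CC * α) e2 := he2
  have hα' : α * (1000000000 * CC ^ 4) ≤ 1 := by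
    rwa [le_div_iff₀ (by rw [hC]; norm_num)] at hα
  have ha : (0 : ℝ) < 1 / (16 * CC) := by rw [hC]; norm_num
  obtain ⟨n, hn, h3⟩ := comm_step hd (a := 1 / (16 * CC)) ha (by rw [hC]; norm_num)
    (by rw [hC]; positivity) (by rw [hC] at hα' ⊢; norm_num at hα' ⊢; linarith) he2'
    (fun i => (h2 i).2 (hres i))
  refine ⟨n, hn.le hd ?_, ?_⟩
  · have e1 : 1 / (16 * CC) * (CC * α) = α / 16 := by rw [hC]; ring
    have e2 : 128000 * (CC * α) ^ 2 / (1 / (16 * CC)) ^ 2 = 32768000 * CC ^ 4 * α * α := by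
      rw [hC]; ring
    rw [e1, e2]
    have e3 : 32768000 * CC ^ 4 * α ≤ 1 / 16 := by
      have : 0 ≤ CC ^ 4 * α := by rw [hC]; positivity
      nlinarith
    nlinarith
  · intro i
    obtain ⟨⟨X, hX, hXe⟩, -⟩ := h2 i
    obtain ⟨⟨Y, hY, hYe⟩, hr⟩ := h3 i
    refine ⟨⟨X ∘ Y, hX.comp hY, ?_⟩, hr⟩
    exact hXe.trans (ev_comp_left hYe)

end

theorem G_diff {n : ℂ → ℂ} {r : ℝ} (hr : 0 < r) (hn : DifferentiableOn ℂ n {w | r < ‖w‖})
    (hlim : Tendsto n (cobounded ℂ) (𝓝 0)) :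
    DifferentiableOn ℂ (fun z => if z = 0 then 0 else n z⁻¹) (ball 0 (1 / r)) ∧
      ∀ l, HasRes (fun w => w + n w) l →
        HasDerivAt (fun z => if z = 0 then 0 else n z⁻¹) l 0 := by
  set G : ℂ → ℂ := fun z => if z = 0 then 0 else n z⁻¹ with hG
  have hGne : ∀ z, z ≠ 0 → G z = n z⁻¹ := fun z hz => by rw [hG]; simp [hz]
  have hG0 : G 0 = 0 := by rw [hG]; simp
  refine ⟨?_, ?_⟩
  · rw [← Complex.differentiableOn_compl_singleton_and_continuousAt_iff
      (ball_mem_nhds (0 : ℂ) (show (0 : ℝ) < 1 / r by positivity))]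
    refine ⟨?_, ?_⟩
    · rintro z ⟨hz, hz0⟩
      have hz0' : z ≠ 0 := hz0
      rw [mem_ball, dist_zero_right] at hz
      have hbig : r < ‖z⁻¹‖ := by
        rw [norm_inv]
        have hp : 0 < ‖z‖ := norm_pos_iff.2 hz0'
        rw [lt_inv_comm₀ hr hp]
        simpa using hz
      have h1 : DifferentiableAt ℂ n z⁻¹ := (hn _ hbig).differentiableAt ((out_open r).mem_nhds hbig)
      have h2 : DifferentiableAt ℂ (fun z : ℂ => z⁻¹) z := differentiableAt_inv hz0'
      have h3 : DifferentiableAt ℂ (fun z => n z⁻¹) z := DifferentiableAt.comp z h1 h2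
      refine (h3.congr_of_eventuallyEq ?_).differentiableWithinAt
      filter_upwards [isOpen_ne.mem_nhds hz0'] with y hy
      exact hGne y hy
    · rw [continuousAt_iff_punctured_nhds, hG0]
      have h1 := hlim.comp tendsto_inv_punct
      refine h1.congr' ?_
      filter_upwards [self_mem_nhdsWithin] with z hz
      exact (hGne z hz).symm
  · intro l hl
    have hl' : Tendsto (fun w => w * n w) (cobounded ℂ) (𝓝 l) := by
      unfold HasRes at hl
      simpa using hl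
    rw [hasDerivAt_iff_tendsto_slope]
    have h1 := hl'.comp tendsto_inv_punct
    refine h1.congr' ?_
    filter_upwards [self_mem_nhdsWithin] with z hz
    have hz' : z ≠ 0 := hz
    rw [slope_def_field, hG0, sub_zero, sub_zero, hGne z hz']
    simp only [Function.comp]
    field_simp

theorem hasRes_zero : HasRes (fun w : ℂ => w + (fun _ : ℂ => (0 : ℂ)) w) 0 := by
  unfold HasRes
  simp

theorem main_small : ∃ ε : ℝ, 0 < ε ∧ ∀ f : ℂ → ℂ, DifferentiableOn ℂ f {w | 84 < ‖w‖} →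
    (∀ w : ℂ, 84 < ‖w‖ → ‖f w‖ ≤ ε) → Tendsto f (cobounded ℂ) (𝓝 0) →
    HasRes (fun w => w + f w) 0 →
    ∃ (X : ℂ → ℂ) (a : ℂ), IP 10 X ∧ (fun w => w + f w) =ᶠ[cobounded ℂ] X ∘ (fun w => w - a) := by
  set α : ℝ := 1 / (1000000000 * CC ^ 4) with hαdef
  have hCC : CC = 40000000000 := by unfold CC; norm_num
  have hα : 0 < α := by rw [hαdef, hCC]; norm_num
  have hα1 : α ≤ 1 := by rw [hαdef, hCC]; norm_num
  refine ⟨α / 8, by positivity, ?_⟩
  intro f hfd hfb hflim hfres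
  -- the index set
  let Adm : (ℂ → ℂ) → Prop := fun n => DifferentiableOn ℂ n {w | 84 < ‖w‖} ∧
    (∀ w : ℂ, 84 < ‖w‖ → ‖n w‖ ≤ α / 8) ∧ Tendsto n (cobounded ℂ) (𝓝 0) ∧
    HasRes (fun w => w + n w) 0
  let S : Type := {n : ℂ → ℂ // Adm n}
  let O : Type := {w : ℂ // 84 < ‖w‖}
  have : Nonempty O := ⟨⟨(85 : ℂ), by norm_num⟩⟩
  let D : S → S → ℝ := fun n m => ⨆ w : O, ‖n.1 w.1 - m.1 w.1‖
  have hbdd : ∀ n m : S, BddAbove (range fun w : O => ‖n.1 w.1 - m.1 w.1‖) := by
    intro n m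
    refine ⟨α / 4, ?_⟩
    rintro _ ⟨w, rfl⟩
    have h1 := n.2.2.1 w.1 w.2
    have h2 := m.2.2.1 w.1 w.2
    simp only
    calc ‖n.1 w.1 - m.1 w.1‖ ≤ ‖n.1 w.1‖ + ‖m.1 w.1‖ := norm_sub_le _ _
      _ ≤ α / 4 := by linarith
  have hDle : ∀ n m : S, ∀ w : ℂ, 84 < ‖w‖ → ‖n.1 w - m.1 w‖ ≤ D n m := fun n m w hw =>
    le_ciSup (hbdd n m) (⟨w, hw⟩ : O)
  have hDub : ∀ n m : S, ∀ B : ℝ, (∀ w : ℂ, 84 < ‖w‖ → ‖n.1 w - m.1 w‖ ≤ B) → D n m ≤ B :=
    fun n m B hB => ciSup_le fun w => hB w.1 w.2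
  have hD0 : ∀ n m : S, 0 ≤ D n m := fun n m =>
    (norm_nonneg _).trans (hDle n m (85 : ℂ) (by norm_num))
  let d : S → S → ℝ := fun n m => 2 / α * D n m
  have hd : ∀ n m, 0 ≤ d n m := fun n m => mul_nonneg (by positivity) (hD0 n m)
  -- families
  have hn : Fam d {w | 84 < ‖w‖} (α / 2) (fun (n : S) w => n.1 w) := by
    refine ⟨fun n => n.2.1, fun n w hw => (n.2.2.1 w hw).trans (by linarith), fun n m w hw => ?_,
      fun n => n.2.2.2.1⟩
    have h1 : α / 2 * d n m = D n m := by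
      simp only [d]; field_simp
    rw [h1]
    exact hDle n m w hw
  have hf : Fam d {w | 84 < ‖w‖} (α / 8) (fun (_ : S) w => f w) := by
    refine ⟨fun n => hfd, fun n w hw => hfb w hw, fun n m w hw => ?_, fun n => hflim⟩
    rw [sub_self, norm_zero]
    exact mul_nonneg (by positivity) (hd n m)
  have s86 : Sh (2 * 1) {w : ℂ | 86 < ‖w‖} {w : ℂ | 84 < ‖w‖} := by
    have := out_sh 84 2
    norm_num at this ⊢
    exact this
  have hn86 : Fam d {w | 86 < ‖w‖} (α / 2) (fun (n : S) w => n.1 w) := hn.mono (fun w hw => by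
      have hw' : (86 : ℝ) < ‖w‖ := hw
      show (84 : ℝ) < ‖w‖
      linarith)
  have hcomp := hf.comp hn86 hd (out_open 84) (δ := 1) one_pos (by linarith) (by positivity)
    (by positivity) s86
  have hX : XS 100 100 0 ⊆ {w : ℂ | 86 < ‖w‖} := by
    rintro w (h | h | h | h)
    · show (86 : ℝ) < ‖w‖
      have := abs_re_le_norm w
      have h1 := neg_le_abs w.re
      linarith
    · show (86 : ℝ) < ‖w‖
      have := abs_re_le_norm w
      have h1 := le_abs_self w.re
      linarith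
    · show (86 : ℝ) < ‖w‖
      have := abs_im_le_norm w
      have h1 := neg_le_abs w.im
      linarith
    · show (86 : ℝ) < ‖w‖
      have := abs_im_le_norm w
      have h1 := le_abs_self w.im
      linarith
  have he : Fam d (XS 100 100 0) α (fun (n : S) w => n.1 w + f (w + n.1 w)) := by
    refine (hcomp.mono hX).le hd ?_
    rw [div_one]
    nlinarith
  have nf : NI (fun w => w + f w) := hf.ni (out_open 84) (out_co 84) ⟨fun _ => 0,
    differentiableOn_const _, fun w _ => by simp; positivity, tendsto_const_nhds,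
      hasRes_zero⟩
  have nn : ∀ n : S, NI (fun w => w + n.1 w) := fun n => hn.ni (out_open 84) (out_co 84) n
  have hcompeq : ∀ n : S, (fun w => w + (n.1 w + f (w + n.1 w)))
      = (fun w => w + f w) ∘ (fun w => w + n.1 w) := by
    intro n
    funext w
    simp only [Function.comp]
    ring
  have hres : ∀ n : S, HasRes (fun w => w + (n.1 w + f (w + n.1 w))) 0 := by
    intro n
    rw [hcompeq n]
    have := hfres.comp n.2.2.2.2 (nn n)
    rwa [add_zero] at this
  obtain ⟨N, hN, hNX⟩ := Nop hd hα.le le_rfl he hres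
  -- the self map
  let Φ : S → S := fun n => ⟨N n, hN.diff n, fun w hw => hN.bd n w hw, hN.lim n, (hNX n).2⟩
  have hΦ : ∀ n m : S, D (Φ n) (Φ m) ≤ 1 / 4 * D n m := by
    intro n m
    apply hDub
    intro w hw
    have h1 := hN.lip n m w hw
    have h2 : α / 8 * d n m = 1 / 4 * D n m := by simp only [d]; field_simp; ring
    rw [h2] at h1
    exact h1
  let z0 : S := ⟨fun _ => 0, differentiableOn_const _, fun w _ => by simp; positivity,
    tendsto_const_nhds, hasRes_zero⟩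
  let p : ℕ → S := fun k => Φ^[k] z0
  have hp1 : ∀ k, p (k + 1) = Φ (p k) := fun k => Function.iterate_succ_apply' Φ k z0
  have hpD : ∀ k, D (p (k + 1)) (p k) ≤ α / 4 * (1 / 4) ^ k := by
    intro k
    induction k with
    | zero =>
      apply hDub
      intro w hw
      have h1 := (p 1).2.2.1 w hw
      have h2 := (p 0).2.2.1 w hw
      calc ‖(p (0 + 1)).1 w - (p 0).1 w‖ ≤ ‖(p 1).1 w‖ + ‖(p 0).1 w‖ := norm_sub_le _ _
        _ ≤ α / 4 * (1 / 4) ^ 0 := by rw [pow_zero]; linarith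
    | succ k ih =>
      rw [hp1 (k + 1)]
      conv_lhs => rw [show p (k + 1) = Φ (p k) from hp1 k]
      have h1 := hΦ (Φ (p k)) (p k)
      rw [← hp1 k] at h1 ⊢
      calc D (Φ (p (k + 1))) (p (k + 1)) = D (Φ (p (k + 1))) (Φ (p k)) := by rw [← hp1 k]
        _ ≤ 1 / 4 * D (p (k + 1)) (p k) := hΦ _ _
        _ ≤ 1 / 4 * (α / 4 * (1 / 4) ^ k) := by gcongr
        _ = α / 4 * (1 / 4) ^ (k + 1) := by rw [pow_succ]; ring
  obtain ⟨q, hqd, hqb, hqt⟩ := limit_seq (out_open 84) (C := α / 2) (p := fun k => (p k).1)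
    (fun k => (p k).2.1) (by
      intro k w hw
      refine (hDle _ _ w hw).trans ((hpD k).trans ?_)
      have h1 : α / 2 / 2 / 2 ^ k = α / 4 * (1 / 2) ^ k := by
        rw [one_div, inv_pow]; ring
      rw [h1]
      gcongr
      norm_num)
  have hgeo : Tendsto (fun k : ℕ => α / 2 / 2 ^ k) atTop (𝓝 0) := by
    have : Tendsto (fun n : ℕ => α / 2 * (1 / 2) ^ n) atTop (𝓝 (α / 2 * 0)) :=
      (tendsto_pow_atTop_nhds_zero_of_lt_one (by norm_num) (by norm_num)).const_mul _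
    rw [mul_zero] at this
    refine this.congr (fun n => ?_)
    rw [one_div, inv_pow]; rfl
  have hqlim : Tendsto q (cobounded ℂ) (𝓝 0) := by
    rw [Metric.tendsto_nhds]
    intro ε hε
    obtain ⟨k, hk⟩ := (hgeo.eventually_lt_const (half_pos hε)).exists
    have h4 := (Metric.tendsto_nhds.1 ((p k).2.2.2.1)) (ε / 2) (half_pos hε)
    filter_upwards [h4, out_co 84] with w hw1 hw2
    have h5 := hqb k w hw2
    rw [dist_zero_right] at hw1 ⊢
    calc ‖q w‖ = ‖(p k).1 w - ((p k).1 w - q w)‖ := by ring_nf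
      _ ≤ ‖(p k).1 w‖ + ‖(p k).1 w - q w‖ := norm_sub_le _ _
      _ < ε := by linarith
  have hqbd : ∀ w : ℂ, 84 < ‖w‖ → ‖q w‖ ≤ α / 8 := by
    intro w hw
    exact le_of_tendsto (hqt w hw).norm (Eventually.of_forall fun k => (p k).2.2.1 w hw)
  have nq : NI (fun w => w + q w) := by
    refine ⟨?_, ?_⟩
    · filter_upwards [out_co 84] with w hw
      exact differentiableAt_id.add ((hqd w hw).differentiableAt ((out_open 84).mem_nhds hw))
    · simpa using hqlim
  have hqres : HasRes (fun w => w + q w) 0 := by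
    obtain ⟨l, hl⟩ := nq.res
    have hGq := (G_diff (by norm_num : (0 : ℝ) < 84) hqd hqlim)
    have hdq := hGq.2 l hl
    have hGp := fun k => G_diff (by norm_num : (0 : ℝ) < 84) (p k).2.1 (p k).2.2.2.1
    have hloc : TendstoLocallyUniformlyOn (fun k : ℕ => fun z => if z = 0 then 0 else (p k).1 z⁻¹)
        (fun z => if z = 0 then 0 else q z⁻¹) atTop (ball 0 (1 / 84)) := by
      apply TendstoUniformlyOn.tendstoLocallyUniformlyOn
      rw [Metric.tendstoUniformlyOn_iff]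
      intro ε hε
      filter_upwards [hgeo.eventually_lt_const hε] with k hk z hz
      by_cases hz0 : z = 0
      · simp [hz0, hε]
      · simp only [hz0, if_false]
        rw [mem_ball, dist_zero_right] at hz
        have hbig : (84 : ℝ) < ‖z⁻¹‖ := by
          rw [norm_inv]
          have hp : 0 < ‖z‖ := norm_pos_iff.2 hz0
          rw [lt_inv_comm₀ (by norm_num) hp]
          simpa using hz
        rw [dist_comm, dist_eq_norm]
        exact lt_of_le_of_lt (hqb k _ hbig) hk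
    have hder := hloc.deriv (Eventually.of_forall fun k => (hGp k).1) isOpen_ball
    have h0 : (0 : ℂ) ∈ ball (0 : ℂ) (1 / 84) := mem_ball_self (by norm_num)
    have h1 := hder.tendsto_at h0
    have h2 : ∀ k, (deriv ∘ fun k : ℕ => fun z => if z = 0 then 0 else (p k).1 z⁻¹) k 0 = 0 := by
      intro k
      exact ((hGp k).2 0 (p k).2.2.2.2).deriv
    simp only [h2] at h1
    have h3 := tendsto_nhds_unique h1 tendsto_const_nhds
    rw [hdq.deriv] at h3
    rwa [h3] at hl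
  let Q : S := ⟨q, hqd, hqbd, hqlim, hqres⟩
  have hfix : ∀ w : ℂ, 84 < ‖w‖ → N Q w = q w := by
    intro w hw
    have h1 : Tendsto (fun k => (p (k + 1)).1 w) atTop (𝓝 (q w)) :=
      (hqt w hw).comp (tendsto_add_atTop_nat 1)
    have h2 : Tendsto (fun k => (p (k + 1)).1 w) atTop (𝓝 (N Q w)) := by
      rw [tendsto_iff_norm_sub_tendsto_zero]
      have h3 : ∀ k, ‖(p (k + 1)).1 w - N Q w‖ ≤ α / 2 / 2 ^ k := by
        intro k
        have h4 : ‖(Φ (p k)).1 w - (Φ Q).1 w‖ ≤ D (Φ (p k)) (Φ Q) := hDle _ _ w hw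
        have h5 : D (p k) Q ≤ α / 2 / 2 ^ k := hDub _ _ _ (fun w hw => hqb k w hw)
        have h6 := hΦ (p k) Q
        rw [hp1 k]
        have h7 : 0 ≤ D (p k) Q := hD0 _ _
        calc ‖(Φ (p k)).1 w - N Q w‖ ≤ D (Φ (p k)) (Φ Q) := h4
          _ ≤ 1 / 4 * D (p k) Q := h6
          _ ≤ D (p k) Q := by linarith
          _ ≤ _ := h5
      exact squeeze_zero (fun k => norm_nonneg _) h3 hgeo
    exact tendsto_nhds_unique h2 h1
  obtain ⟨⟨X, hXP, hXe⟩, -⟩ := hNX Q
  set a : ℂ := ((1 / (16 * CC) : ℝ) : ℂ) with ha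
  have hkey : (fun w => w + f w) ∘ (fun w => w + q w)
      =ᶠ[cobounded ℂ] X ∘ (fun w => (w + q w) - a) := by
    have h1 := hcompeq Q
    filter_upwards [hXe, out_co 84] with w h2 h3
    have h4 := congrFun h1 w
    simp only [Function.comp] at h2 h4 ⊢
    rw [hfix w h3] at h2
    rw [← h2]
    exact h4.symm
  obtain ⟨L, hL, hqL, hLq⟩ := nq.inv
  refine ⟨X, a, hXP, ?_⟩
  filter_upwards [hL.good.tendsto.eventually hkey, hqL] with w h1 h2
  simp only [Function.comp, id] at h1 h2 ⊢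
  rw [h2] at h1
  exact h1

theorem main_NI {F : ℂ → ℂ} (hF : NI F) (hres : HasRes F 0) :
    ∃ (X : ℂ → ℂ) (a : ℂ), IP 10 X ∧ F =ᶠ[cobounded ℂ] X ∘ (fun w => w - a) := by
  obtain ⟨ε, hε, hmain⟩ := main_small
  have hsmall : ∀ᶠ w in cobounded ℂ, ‖F w - w‖ ≤ 1 := by
    have := Metric.tendsto_nhds.1 hF.2 1 one_pos
    filter_upwards [this] with w hw
    rw [dist_zero_right] at hw
    exact hw.le
  obtain ⟨R, hR⟩ := ev_iff.1 (hF.1.and hsmall)
  set c : ℝ := max (|R| + 1) (1 / ε) with hc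
  have hc1 : 1 ≤ c := le_trans (by linarith [abs_nonneg R]) (le_max_left _ _)
  have hc0 : 0 < c := by linarith
  have hcR : R ≤ 84 * c := by
    have : |R| + 1 ≤ c := le_max_left _ _
    linarith [le_abs_self R]
  have hcε : 1 / c ≤ ε := by
    rw [div_le_iff₀ hc0]
    have h1 : 1 / ε ≤ c := le_max_right _ _
    rw [div_le_iff₀ hε] at h1
    linarith
  have hcc : (c : ℂ) ≠ 0 := by exact_mod_cast hc0.ne'
  have hnc : ‖(c : ℂ)‖ = c := by rw [norm_real, Real.norm_of_nonneg hc0.le]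
  set f : ℂ → ℂ := fun w => (c : ℂ)⁻¹ * (F (c * w) - c * w) with hf
  have hbig : ∀ w : ℂ, 84 < ‖w‖ → R < ‖(c : ℂ) * w‖ := by
    intro w hw
    rw [norm_mul, hnc]
    nlinarith
  have hfw : ∀ w, w + f w = (c : ℂ)⁻¹ * F (c * w) := by
    intro w
    simp only [hf]
    field_simp
    ring
  have h1 := hmain f (by
      intro w hw
      have h2 := (hR _ (hbig w hw)).1
      have h3 : DifferentiableAt ℂ (fun w : ℂ => (c : ℂ) * w) w := by fun_prop
      have h4 : DifferentiableAt ℂ (fun w => F (c * w)) w := DifferentiableAt.comp w h2 h3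
      exact ((h4.sub h3).const_mul _).differentiableWithinAt)
    (by
      intro w hw
      have h2 := (hR _ (hbig w hw)).2
      rw [hf]
      simp only
      rw [norm_mul, norm_inv, hnc]
      calc c⁻¹ * ‖F (c * w) - c * w‖ ≤ c⁻¹ * 1 := by gcongr
        _ = 1 / c := by ring
        _ ≤ ε := hcε)
    (by
      have h2 := (hF.2.comp (tendsto_mul_cobounded hcc)).const_mul (c : ℂ)⁻¹
      rw [mul_zero] at h2
      exact h2)
    (by
      have h2 := hres.rot hcc
      refine h2.congr (Eventually.of_forall fun w => ?_)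
      exact (hfw w).symm)
  obtain ⟨X, a, hX, hXe⟩ := h1
  refine ⟨_, c * a, hX.rot hcc, ?_⟩
  have h3 := (tendsto_mul_cobounded (inv_ne_zero hcc)).eventually hXe
  filter_upwards [h3] with w hw
  simp only [Function.comp] at hw ⊢
  rw [hfw, mul_inv_cancel_left₀ hcc] at hw
  have e1 : (c : ℂ)⁻¹ * (w - c * a) = (c : ℂ)⁻¹ * w - a := by
    field_simp
  rw [e1, ← hw, mul_inv_cancel_left₀ hcc]

end V14

section V15
open Complex Set Filter Topology Metric Bornology Asymptotics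

/-- biholomorphic germ at `0` fixing `0` -/
def IsGerm (f : ℂ → ℂ) : Prop := AnalyticAt ℂ f 0 ∧ f 0 = 0 ∧ deriv f 0 ≠ 0

/-- involution of the group of germs (the identity is allowed) -/
def IsInvolution (τ : ℂ → ℂ) : Prop := IsGerm τ ∧ τ ∘ τ =ᶠ[𝓝 0] id

/-- `f` (as a germ at `0`) is a composition of `n` involutions -/
def InI (n : ℕ) (f : ℂ → ℂ) : Prop :=
  ∃ l : List (ℂ → ℂ), l.length = n ∧ (∀ τ ∈ l, IsInvolution τ) ∧
    f =ᶠ[𝓝 0] l.foldr (fun τ g => τ ∘ g) id

noncomputable def hat (F : ℂ → ℂ) : ℂ → ℂ := fun z => if z = 0 then 0 else (F z⁻¹)⁻¹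
noncomputable def chk (f : ℂ → ℂ) : ℂ → ℂ := fun w => (f w⁻¹)⁻¹

theorem hat_ne {F : ℂ → ℂ} {z : ℂ} (hz : z ≠ 0) : hat F z = (F z⁻¹)⁻¹ := by simp [hat, hz]
theorem hat_zero {F : ℂ → ℂ} : hat F 0 = 0 := by simp [hat]

theorem ev_zero {P : ℂ → Prop} (h0 : P 0) (h : ∀ᶠ w in cobounded ℂ, P w⁻¹) :
    ∀ᶠ z in 𝓝 (0 : ℂ), P z := by
  have h1 : ∀ᶠ z in 𝓝[≠] (0 : ℂ), P z := by
    filter_upwards [tendsto_inv_punct.eventually h] with z hz
    rwa [inv_inv] at hz
  rw [eventually_nhdsWithin_iff] at h1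
  filter_upwards [h1] with z hz
  by_cases hz0 : z = 0
  · rwa [hz0]
  · exact hz hz0

theorem hat_congr {F G : ℂ → ℂ} (h : F =ᶠ[cobounded ℂ] G) : hat F =ᶠ[𝓝 0] hat G := by
  apply ev_zero (P := fun z => hat F z = hat G z)
  · rw [hat_zero, hat_zero]
  · filter_upwards [h, ne_zero_ev] with w hw hw0
    rw [hat_ne (inv_ne_zero hw0), hat_ne (inv_ne_zero hw0), inv_inv, hw]

theorem hat_id : hat id = id := by
  funext z
  by_cases hz : z = 0
  · rw [hz, hat_zero]; rfl
  · rw [hat_ne hz]; simp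

theorem hat_comp {F G : ℂ → ℂ} (hG : Good G) : hat (F ∘ G) =ᶠ[𝓝 0] hat F ∘ hat G := by
  apply ev_zero (P := fun z => hat (F ∘ G) z = (hat F ∘ hat G) z)
  · simp only [Function.comp, hat_zero]
  · filter_upwards [hG.tendsto.eventually ne_zero_ev, ne_zero_ev] with w h1 h2
    simp only [Function.comp]
    rw [hat_ne (inv_ne_zero h2), hat_ne (F := G) (inv_ne_zero h2)]
    simp only [inv_inv]
    rw [hat_ne (inv_ne_zero h1), inv_inv]
    rfl

theorem hat_germ {F : ℂ → ℂ} (hF : Good F) : IsGerm (hat F) := by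
  have ht := hF.tendsto
  obtain ⟨h1, c, hc, h2⟩ := hF
  have hder : HasDerivAt (hat F) c⁻¹ 0 := by
    rw [hasDerivAt_iff_tendsto_slope]
    have h3 := (h2.inv₀ hc).comp tendsto_inv_punct
    refine h3.congr' ?_
    filter_upwards [self_mem_nhdsWithin] with z hz
    have hz' : z ≠ 0 := hz
    rw [slope_def_field, hat_zero, sub_zero, sub_zero, hat_ne hz']
    simp only [Function.comp]
    field_simp
  refine ⟨?_, hat_zero, ?_⟩
  · apply Complex.analyticAt_of_differentiable_on_punctured_nhds_of_continuousAt _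
      hder.continuousAt
    have h4 : ∀ᶠ z in 𝓝[≠] (0 : ℂ), DifferentiableAt ℂ F z⁻¹ ∧ F z⁻¹ ≠ 0 :=
      tendsto_inv_punct.eventually (h1.and (ht.eventually ne_zero_ev))
    filter_upwards [h4, self_mem_nhdsWithin] with z hz hz0
    have hz' : z ≠ 0 := hz0
    have h5 : DifferentiableAt ℂ (fun z : ℂ => z⁻¹) z := differentiableAt_inv hz'
    have h6 : DifferentiableAt ℂ (fun z => (F z⁻¹)⁻¹) z :=
      (DifferentiableAt.comp z hz.1 h5).inv hz.2
    refine h6.congr_of_eventuallyEq ?_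
    filter_upwards [isOpen_ne.mem_nhds hz'] with y hy
    exact hat_ne hy
  · rw [hder.deriv]
    exact inv_ne_zero hc

theorem IP_InI : ∀ {n : ℕ} {F : ℂ → ℂ}, IP n F → InI n (hat F)
  | 0, F, h => ⟨[], rfl, by simp, by
      have := hat_congr h
      rw [hat_id] at this
      simpa using this⟩
  | (n + 1), F, ⟨σ, G, h1, h2, h3⟩ => by
    obtain ⟨l, hl1, hl2, hl3⟩ := IP_InI h2
    refine ⟨hat σ :: l, by simp [hl1], ?_, ?_⟩
    · intro τ hτ
      rw [List.mem_cons] at hτ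
      rcases hτ with hτ | hτ
      · rw [hτ]
        refine ⟨hat_germ h1.1, ?_⟩
        have h4 := (hat_comp h1.1 (F := σ)).symm.trans (hat_congr h1.2)
        rwa [hat_id] at h4
      · exact hl2 τ hτ
    · rw [List.foldr_cons]
      refine (hat_congr h3).trans ((hat_comp h2.good).trans ?_)
      exact hl3.fun_comp (hat σ)

theorem hat_chk {f : ℂ → ℂ} (hf : f 0 = 0) : hat (chk f) = f := by
  funext z
  by_cases hz : z = 0
  · rw [hz, hat_zero, hf]
  · rw [hat_ne hz]; simp [chk]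

theorem chk_comp (f g : ℂ → ℂ) : chk (f ∘ g) = chk f ∘ chk g := by
  funext w
  simp [chk]

theorem chk_congr {f g : ℂ → ℂ} (h : f =ᶠ[𝓝 0] g) : chk f =ᶠ[cobounded ℂ] chk g := by
  have h3 : Tendsto (fun w : ℂ => w⁻¹) (cobounded ℂ) (𝓝 0) := tendsto_inv₀_cobounded
  filter_upwards [h3.eventually h] with w hw
  simp only [chk]
  rw [hw]

theorem chk_id : chk id = id := by
  funext w; simp [chk]

theorem chk_good {f : ℂ → ℂ} (hf : IsGerm f) : Good (chk f) := by
  obtain ⟨h1, h2, h3⟩ := hf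
  have hd := h1.differentiableAt.hasDerivAt
  have hslope := hasDerivAt_iff_tendsto_slope.1 hd
  have hi : Tendsto (fun w : ℂ => w⁻¹) (cobounded ℂ) (𝓝[≠] 0) := tendsto_inv₀_cobounded'
  have hi0 : Tendsto (fun w : ℂ => w⁻¹) (cobounded ℂ) (𝓝 0) := tendsto_inv₀_cobounded
  have h4 := ((hslope.comp hi).inv₀ h3)
  refine ⟨?_, (deriv f 0)⁻¹, inv_ne_zero h3, ?_⟩
  · have h5 : ∀ᶠ w in cobounded ℂ, slope f 0 w⁻¹ ≠ 0 := (hslope.comp hi).eventually_ne h3
    have h6 : ∀ᶠ w in cobounded ℂ, AnalyticAt ℂ f w⁻¹ := hi0.eventually h1.eventually_analyticAt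
    filter_upwards [h5, h6, ne_zero_ev] with w g1 g2 g3
    have g4 : f w⁻¹ ≠ 0 := by
      intro h0
      apply g1
      rw [slope_def_field, h0, h2]
      simp
    have g5 : DifferentiableAt ℂ (fun z : ℂ => z⁻¹) w := differentiableAt_inv g3
    exact (DifferentiableAt.comp w g2.differentiableAt g5).inv g4
  · refine h4.congr' ?_
    filter_upwards [ne_zero_ev] with w hw
    simp only [Function.comp, slope_def_field, chk, h2, sub_zero]
    rw [div_inv_eq_mul, mul_inv]
    rfl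

/-- expansion at infinity: `F w = a w + c + l / w + o(1/w)` -/
def HasExp (F : ℂ → ℂ) (a c l : ℂ) : Prop :=
  Tendsto (fun w => w * (F w - a * w - c)) (cobounded ℂ) (𝓝 l)

theorem HasExp.congr {F G : ℂ → ℂ} {a c l : ℂ} (h : HasExp F a c l)
    (hFG : F =ᶠ[cobounded ℂ] G) : HasExp G a c l := by
  refine Tendsto.congr' ?_ h
  filter_upwards [hFG] with w hw
  rw [hw]

theorem tinv : Tendsto (fun w : ℂ => w⁻¹) (cobounded ℂ) (𝓝 0) := tendsto_inv₀_cobounded

theorem HasExp.ratio {F : ℂ → ℂ} {a c l : ℂ} (h : HasExp F a c l) :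
    Tendsto (fun w => F w / w) (cobounded ℂ) (𝓝 a) := by
  have h' : Tendsto (fun w => w * (F w - a * w - c)) (cobounded ℂ) (𝓝 l) := h
  have h1 := ((h'.mul tinv).mul tinv).add ((tinv.const_mul c).add_const a)
  simp only [mul_zero, zero_add] at h1
  refine h1.congr' ?_
  filter_upwards [ne_zero_ev] with w hw
  field_simp
  ring

theorem HasExp.comp {F G : ℂ → ℂ} {a c l a' c' l' : ℂ} (hF : HasExp F a c l)
    (hG : HasExp G a' c' l') (hGg : Good G) (ha' : a' ≠ 0) :
    HasExp (F ∘ G) (a * a') (a * c' + c) (a * l' + l / a') := by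
  have hF' : Tendsto (fun w => w * (F w - a * w - c)) (cobounded ℂ) (𝓝 l) := hF
  have hG' : Tendsto (fun w => w * (G w - a' * w - c')) (cobounded ℂ) (𝓝 l') := hG
  have h1 := (hG.ratio.inv₀ ha').mul (hF'.comp hGg.tendsto)
  have h2 := (hG'.const_mul a).add h1
  have e1 : a * l' + l / a' = a * l' + a'⁻¹ * l := by ring
  unfold HasExp
  rw [e1]
  refine h2.congr' ?_
  filter_upwards [ne_zero_ev, hGg.tendsto.eventually ne_zero_ev] with w hw hw2
  simp only [Function.comp]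
  field_simp
  ring

theorem HasExp.unique {F : ℂ → ℂ} {a c l a' c' l' : ℂ} (h : HasExp F a c l)
    (h' : HasExp F a' c' l') : a = a' ∧ c = c' ∧ l = l' := by
  have ha : a = a' := tendsto_nhds_unique h.ratio h'.ratio
  subst ha
  have k1 : Tendsto (fun w => w * (F w - a * w - c)) (cobounded ℂ) (𝓝 l) := h
  have k2 : Tendsto (fun w => w * (F w - a * w - c')) (cobounded ℂ) (𝓝 l') := h'
  have h3 : Tendsto (fun w => F w - a * w - c) (cobounded ℂ) (𝓝 0) := by
    have := k1.mul tinv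
    rw [mul_zero] at this
    refine this.congr' ?_
    filter_upwards [ne_zero_ev] with w hw
    field_simp
  have h4 : Tendsto (fun w => F w - a * w - c') (cobounded ℂ) (𝓝 0) := by
    have := k2.mul tinv
    rw [mul_zero] at this
    refine this.congr' ?_
    filter_upwards [ne_zero_ev] with w hw
    field_simp
  have hc : c = c' := by
    have h5 := h4.sub h3
    rw [sub_zero] at h5
    have h6 : (fun w => F w - a * w - c' - (F w - a * w - c)) = fun _ => c - c' := by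
      funext w; ring
    rw [h6] at h5
    exact sub_eq_zero.1 (tendsto_nhds_unique tendsto_const_nhds h5)
  subst hc
  exact ⟨rfl, rfl, tendsto_nhds_unique k1 k2⟩

theorem hasExp_id : HasExp id 1 0 0 := by
  unfold HasExp
  simp

/-- Taylor expansion to order three of a germ -/
theorem taylor3 {f : ℂ → ℂ} (hf : AnalyticAt ℂ f 0) (h0 : f 0 = 0) :
    ∃ a2 a3 : ℂ, (fun z => f z - (deriv f 0 * z + a2 * z ^ 2 + a3 * z ^ 3))
      =O[𝓝 0] (fun z => z ^ 4) := by
  obtain ⟨p, hp⟩ := hf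
  have h := hp.isBigO_sub_partialSum_pow 4
  have hd1 : deriv f 0 = p.coeff 1 := hp.deriv
  rw [hd1]
  refine ⟨p.coeff 2, p.coeff 3, ?_⟩
  have h00 : p.coeff 0 = 0 := by
    have := hp.coeff_zero (fun _ => (0 : ℂ))
    rw [h0] at this
    rw [FormalMultilinearSeries.coeff, ← this]
    congr 1
    exact Subsingleton.elim _ _
  have h1 : (fun z => f z - (p.coeff 1 * z + p.coeff 2 * z ^ 2 + p.coeff 3 * z ^ 3))
      = fun z => f (0 + z) - p.partialSum 4 z := by
    funext z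
    simp only [FormalMultilinearSeries.partialSum, Finset.sum_range_succ, Finset.sum_range_zero,
      FormalMultilinearSeries.apply_eq_pow_smul_coeff, smul_eq_mul, h00, zero_add]
    ring
  rw [h1]
  refine h.trans ?_
  refine IsBigO.of_norm_left ?_
  simp only [norm_pow, norm_norm]
  exact IsBigO.of_norm_right (by simpa using isBigO_refl _ _)

theorem chk_alg {a1 a2 a3 z E q : ℂ} (ha : a1 ≠ 0) (hz : z ≠ 0) (hq : q ≠ 0)
    (h : q = a1 + a2 * z + a3 * z ^ 2 + z ^ 2 * E) :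
    ((a2 ^ 2 - a1 * a3) + a2 * a3 * z + (a2 * z - a1) * E) / (a1 ^ 2 * q)
      = z⁻¹ * ((z * q)⁻¹ - 1 / a1 * z⁻¹ - -a2 / a1 ^ 2) := by
  field_simp
  linear_combination (a1 - a2 * z) * h

theorem chk_exp {f : ℂ → ℂ} {a1 a2 a3 : ℂ} (ha1 : a1 ≠ 0)
    (h : (fun z => f z - (a1 * z + a2 * z ^ 2 + a3 * z ^ 3)) =O[𝓝 0] (fun z => z ^ 4)) :
    HasExp (chk f) (1 / a1) (-a2 / a1 ^ 2) ((a2 ^ 2 - a1 * a3) / a1 ^ 3) := by
  set ε : ℂ → ℂ := fun z => (f z - (a1 * z + a2 * z ^ 2 + a3 * z ^ 3)) / z ^ 3 with hε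
  have hεlim : Tendsto ε (𝓝[≠] 0) (𝓝 0) := by
    have h1 : ε =O[𝓝[≠] 0] (fun z => z) := by
      have h2 := (h.mono (nhdsWithin_le_nhds (s := {0}ᶜ))).mul
        (isBigO_refl (fun z : ℂ => (z ^ 3)⁻¹) (𝓝[≠] 0))
      refine (h2.congr_left (fun z => ?_)).congr' EventuallyEq.rfl ?_
      · rw [hε]; rfl
      · filter_upwards [self_mem_nhdsWithin] with z hz
        have hz' : z ≠ 0 := hz
        field_simp
    exact h1.trans_tendsto (tendsto_id.mono_left nhdsWithin_le_nhds)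
  have hi : Tendsto (fun w : ℂ => w⁻¹) (cobounded ℂ) (𝓝[≠] 0) := tendsto_inv₀_cobounded'
  have he : Tendsto (fun w : ℂ => ε w⁻¹) (cobounded ℂ) (𝓝 0) := hεlim.comp hi
  have hnum : Tendsto (fun w : ℂ => (a2 ^ 2 - a1 * a3) + a2 * a3 * w⁻¹ + (a2 * w⁻¹ - a1) * ε w⁻¹)
      (cobounded ℂ) (𝓝 (a2 ^ 2 - a1 * a3)) := by
    have := ((tinv.const_mul (a2 * a3)).const_add (a2 ^ 2 - a1 * a3)).add
      (((tinv.const_mul a2).sub_const a1).mul he)
    simpa using this
  have hq : Tendsto (fun w : ℂ => a1 + a2 * w⁻¹ + a3 * w⁻¹ ^ 2 + w⁻¹ ^ 2 * ε w⁻¹)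
      (cobounded ℂ) (𝓝 a1) := by
    have h2 : Tendsto (fun w : ℂ => w⁻¹ ^ 2) (cobounded ℂ) (𝓝 0) := by
      simpa using tinv.pow 2
    have := (((tinv.const_mul a2).const_add a1).add (h2.const_mul a3)).add (h2.mul he)
    simpa using this
  have hden : Tendsto (fun w : ℂ => a1 ^ 2 * (a1 + a2 * w⁻¹ + a3 * w⁻¹ ^ 2 + w⁻¹ ^ 2 * ε w⁻¹))
      (cobounded ℂ) (𝓝 (a1 ^ 3)) := by
    have := hq.const_mul (a1 ^ 2)
    have e1 : a1 ^ 2 * a1 = a1 ^ 3 := by ring
    rwa [e1] at this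
  have hmain := hnum.div hden (pow_ne_zero 3 ha1)
  refine Tendsto.congr' ?_ hmain
  filter_upwards [ne_zero_ev, hq.eventually_ne ha1] with w hw hqw
  have hz : w⁻¹ ≠ 0 := inv_ne_zero hw
  have hfz : f w⁻¹ = w⁻¹ * (a1 + a2 * w⁻¹ + a3 * w⁻¹ ^ 2 + w⁻¹ ^ 2 * ε w⁻¹) := by
    have : ε w⁻¹ * (w⁻¹) ^ 3 = f w⁻¹ - (a1 * w⁻¹ + a2 * w⁻¹ ^ 2 + a3 * w⁻¹ ^ 3) := by
      rw [hε]; simp only; rw [div_mul_cancel₀ _ (pow_ne_zero 3 hz)]
    linear_combination -this
  simp only [chk, Pi.div_apply]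
  rw [hfz]
  have := chk_alg (a1 := a1) (a2 := a2) (a3 := a3) (z := w⁻¹) (E := ε w⁻¹) ha1 hz hqw rfl
  rw [this, inv_inv]

end V15

section V16
open Complex Set Filter Topology Metric Bornology Asymptotics

def ExpOK (F : ℂ → ℂ) : Prop := ∃ σ c : ℂ, (σ = 1 ∨ σ = -1) ∧ HasExp F σ c 0

theorem ExpOK.congr {F G : ℂ → ℂ} (h : ExpOK F) (hFG : F =ᶠ[cobounded ℂ] G) : ExpOK G := by
  obtain ⟨σ, c, h1, h2⟩ := h
  exact ⟨σ, c, h1, h2.congr hFG⟩

theorem ExpOK.comp {F G : ℂ → ℂ} (hF : ExpOK F) (hG : ExpOK G) (hGg : Good G) :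
    ExpOK (F ∘ G) := by
  obtain ⟨σ, c, h1, h2⟩ := hF
  obtain ⟨σ', c', h1', h2'⟩ := hG
  have hne : σ' ≠ 0 := by rcases h1' with h | h <;> rw [h] <;> norm_num
  have h3 := h2.comp h2' hGg hne
  rw [mul_zero, zero_div, add_zero] at h3
  refine ⟨_, _, ?_, h3⟩
  rcases h1 with h | h <;> rcases h1' with h' | h' <;> rw [h, h'] <;> simp

theorem germ_congr {f g : ℂ → ℂ} (h : IsGerm f) (hfg : f =ᶠ[𝓝 0] g) : IsGerm g := by
  obtain ⟨h1, h2, h3⟩ := h
  refine ⟨h1.congr hfg, ?_, ?_⟩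
  · rw [← hfg.self_of_nhds]; exact h2
  · rw [← hfg.deriv_eq]; exact h3

theorem germ_comp {f g : ℂ → ℂ} (hf : IsGerm f) (hg : IsGerm g) : IsGerm (f ∘ g) := by
  refine ⟨?_, ?_, ?_⟩
  · apply AnalyticAt.comp _ hg.1
    rw [hg.2.1]; exact hf.1
  · simp [hg.2.1, hf.2.1]
  · have h1 : DifferentiableAt ℂ f (g 0) := by rw [hg.2.1]; exact hf.1.differentiableAt
    rw [deriv_comp _ h1 hg.1.differentiableAt, hg.2.1]
    exact mul_ne_zero hf.2.2 hg.2.2

theorem germ_id : IsGerm (id : ℂ → ℂ) := ⟨analyticAt_id, rfl, by simp⟩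

theorem invo_id : IsInvolution (id : ℂ → ℂ) := ⟨germ_id, EventuallyEq.rfl⟩

theorem foldr_germ {l : List (ℂ → ℂ)} (h : ∀ τ ∈ l, IsInvolution τ) :
    IsGerm (l.foldr (fun τ g => τ ∘ g) id) := by
  induction l with
  | nil => exact germ_id
  | cons τ l ih =>
    rw [List.foldr_cons]
    exact germ_comp (h τ (by simp)).1 (ih fun τ hτ => h τ (by simp [hτ]))

theorem InI.germ {n : ℕ} {f : ℂ → ℂ} (h : InI n f) : IsGerm f := by
  obtain ⟨l, -, h2, h3⟩ := h
  exact germ_congr (foldr_germ h2) h3.symm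

theorem InI.succ {n : ℕ} {f : ℂ → ℂ} (h : InI n f) : InI (n + 1) f := by
  obtain ⟨l, h1, h2, h3⟩ := h
  refine ⟨id :: l, by simp [h1], ?_, ?_⟩
  · intro τ hτ
    rw [List.mem_cons] at hτ
    rcases hτ with h | h
    · rw [h]; exact invo_id
    · exact h2 τ h
  · rw [List.foldr_cons]
    exact h3

theorem InI.mono {n m : ℕ} {f : ℂ → ℂ} (h : InI n f) (hnm : n ≤ m) : InI m f := by
  obtain ⟨k, rfl⟩ := Nat.exists_eq_add_of_le hnm
  induction k with
  | zero => exact h
  | succ k ih => exact (ih (by omega)).succ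

theorem expOK_invo {τ : ℂ → ℂ} (h : IsInvolution τ) : ExpOK (chk τ) := by
  obtain ⟨a2, a3, ht⟩ := taylor3 h.1.1 h.1.2.1
  have h1 := chk_exp h.1.2.2 ht
  set a1 := deriv τ 0 with ha1
  have ha1ne : a1 ≠ 0 := h.1.2.2
  have hg := chk_good h.1
  have h2 := h1.comp h1 hg (one_div_ne_zero ha1ne)
  have h3 : chk τ ∘ chk τ =ᶠ[cobounded ℂ] id := by
    have := chk_congr h.2
    rwa [chk_comp, chk_id] at this
  obtain ⟨k1, k2, k3⟩ := (h2.congr h3).unique hasExp_id
  have hsq : (1 / a1) * (1 / a1) = 1 := k1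
  have hσ : 1 / a1 = 1 ∨ 1 / a1 = -1 := mul_self_eq_one_iff.1 hsq
  set l := (a2 ^ 2 - a1 * a3) / a1 ^ 3 with hl
  have hl0 : l = 0 := by
    have h5 : l / (1 / a1) = (1 / a1) * l := by
      rw [div_eq_iff (one_div_ne_zero ha1ne)]
      linear_combination (-l) * hsq
    rw [h5] at k3
    have h6 : (1 / a1) * l = 0 := by linear_combination k3 / 2
    rcases mul_eq_zero.1 h6 with h | h
    · exact absurd h (one_div_ne_zero ha1ne)
    · exact h
  rw [hl0] at h1
  exact ⟨_, _, hσ, h1⟩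

theorem expOK_foldr {l : List (ℂ → ℂ)} (h : ∀ τ ∈ l, IsInvolution τ) :
    ExpOK (chk (l.foldr (fun τ g => τ ∘ g) id)) := by
  induction l with
  | nil =>
    rw [List.foldr_nil, chk_id]
    exact ⟨1, 0, Or.inl rfl, hasExp_id⟩
  | cons τ l ih =>
    rw [List.foldr_cons, chk_comp]
    have h1 : ∀ τ ∈ l, IsInvolution τ := fun τ hτ => h τ (by simp [hτ])
    exact (expOK_invo (h τ (by simp))).comp (ih h1) (chk_good (foldr_germ h1))

theorem necessary {n : ℕ} {f : ℂ → ℂ} (h : InI n f) :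
    ∃ σ a : ℂ, (σ = 1 ∨ σ = -1) ∧
      (fun z => f z - (σ * z + a * z ^ 2 + σ * a ^ 2 * z ^ 3)) =O[𝓝 0] (fun z => z ^ 4) := by
  have hg := h.germ
  obtain ⟨l, -, h2, h3⟩ := h
  have h4 := (expOK_foldr h2).congr (chk_congr h3.symm)
  obtain ⟨σ, c, hσ, hexp⟩ := h4
  obtain ⟨a2, a3, ht⟩ := taylor3 hg.1 hg.2.1
  have h5 := chk_exp hg.2.2 ht
  obtain ⟨k1, k2, k3⟩ := h5.unique hexp
  have hne := hg.2.2
  have hd : deriv f 0 = σ := by
    have : deriv f 0 = 1 / σ := by rw [← k1, one_div_one_div]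
    rw [this]
    rcases hσ with h | h <;> rw [h] <;> norm_num
  rw [hd] at ht hne k3
  have h6 : a2 ^ 2 - σ * a3 = 0 := by
    rcases div_eq_zero_iff.1 k3 with h | h
    · exact h
    · exact absurd h (pow_ne_zero 3 hne)
  have h7 : a3 = σ * a2 ^ 2 := by
    rcases hσ with h | h <;> rw [h] at h6 ⊢
    · linear_combination -h6
    · linear_combination h6
  rw [h7] at ht
  exact ⟨σ, a2, hσ, ht⟩

theorem sufficient {f : ℂ → ℂ} (hg : IsGerm f) {σ a : ℂ} (hσ : σ = 1 ∨ σ = -1)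
    (h : (fun z => f z - (σ * z + a * z ^ 2 + σ * a ^ 2 * z ^ 3)) =O[𝓝 0] (fun z => z ^ 4)) :
    InI 12 f := by
  have hσ0 : σ ≠ 0 := by rcases hσ with h | h <;> rw [h] <;> norm_num
  have h1 := chk_exp hσ0 h
  have hF := chk_good hg
  have e3 : (a ^ 2 - σ * (σ * a ^ 2)) / σ ^ 3 = 0 := by
    rcases hσ with h | h <;> rw [h] <;> ring
  rw [e3] at h1
  rw [← hat_chk hg.2.1]
  rcases hσ with hσ1 | hσ1
  · -- `σ = 1`
    rw [hσ1] at h1
    have e1 : (1 : ℂ) / 1 = 1 := by norm_num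
    have e2 : -a / 1 ^ 2 = -a := by norm_num
    rw [e1, e2] at h1
    -- `F₀ = F ∘ (· + a)`
    have ht : HasExp (fun w : ℂ => w + a) 1 a 0 := by
      unfold HasExp
      simp
    have h2 := h1.comp ht (good_trans a) one_ne_zero
    have e4 : (1 : ℂ) * 1 = 1 := by norm_num
    have e5 : (1 : ℂ) * a + -a = 0 := by ring
    have e6 : (1 : ℂ) * 0 + 0 / 1 = 0 := by norm_num
    rw [e4, e5, e6] at h2
    have h3 : Tendsto (fun w => w * ((chk f ∘ fun w => w + a) w - w)) (cobounded ℂ) (𝓝 0) := by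
      refine Tendsto.congr (fun w => ?_) h2
      ring
    have hNI : NI (chk f ∘ fun w => w + a) := by
      refine ⟨(hF.comp (good_trans a)).1, ?_⟩
      have := h3.mul tinv
      rw [mul_zero] at this
      refine this.congr' ?_
      filter_upwards [ne_zero_ev] with w hw
      field_simp
    obtain ⟨X, b, hX, hXe⟩ := main_NI hNI h3
    have hIP : IP 12 (X ∘ fun w => w + (-a - b)) := hX.comp (IP_trans (-a - b))
    apply IP_InI
    refine hIP.congr ?_
    have htr : Tendsto (fun w : ℂ => w - a) (cobounded ℂ) (cobounded ℂ) := by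
      have := (good_trans (-a)).tendsto
      simpa [sub_eq_add_neg] using this
    filter_upwards [htr.eventually hXe] with w hw
    simp only [Function.comp, sub_add_cancel] at hw ⊢
    rw [hw]
    congr 1
    ring
  · -- `σ = -1`
    rw [hσ1] at h1
    have e1 : (1 : ℂ) / -1 = -1 := by norm_num
    have e2 : -a / (-1) ^ 2 = -a := by norm_num
    rw [e1, e2] at h1
    have ht : HasExp (fun w : ℂ => -a - w) (-1) (-a) 0 := by
      unfold HasExp
      have : (fun w : ℂ => w * (-a - w - -1 * w - -a)) = fun _ => 0 := by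
        funext w; ring
      rw [this]
      exact tendsto_const_nhds
    have h2 := h1.comp ht (invo_refl (-a)).1 (by norm_num)
    have e4 : (-1 : ℂ) * -1 = 1 := by norm_num
    have e5 : (-1 : ℂ) * -a + -a = 0 := by ring
    have e6 : (-1 : ℂ) * 0 + 0 / -1 = 0 := by norm_num
    rw [e4, e5, e6] at h2
    have h3 : Tendsto (fun w => w * ((chk f ∘ fun w => -a - w) w - w)) (cobounded ℂ) (𝓝 0) := by
      refine Tendsto.congr (fun w => ?_) h2
      ring
    have hNI : NI (chk f ∘ fun w => -a - w) := by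
      refine ⟨(hF.comp (invo_refl (-a)).1).1, ?_⟩
      have := h3.mul tinv
      rw [mul_zero] at this
      refine this.congr' ?_
      filter_upwards [ne_zero_ev] with w hw
      field_simp
    obtain ⟨X, b, hX, hXe⟩ := main_NI hNI h3
    have h0 : IP 1 (fun w : ℂ => (-a - b) - w) :=
      ⟨_, id, invo_refl _, EventuallyEq.rfl, EventuallyEq.rfl⟩
    have hIP : IP 11 (X ∘ fun w => (-a - b) - w) := hX.comp h0
    apply InI.succ
    apply IP_InI
    refine hIP.congr ?_
    filter_upwards [(tendsto_refl (-a)).eventually hXe] with w hw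
    simp only [Function.comp, sub_sub_cancel] at hw ⊢
    rw [hw]
    congr 1
    ring

/-- `I^∞ = I^12`, and for every `n ≥ 12` the set `I^n` consists of the germs with multiplier
`σ = ±1` and `a_3 = σ a_2 ^ 2` -/
theorem result :
    (∀ (m : ℕ) (f : ℂ → ℂ), InI m f → InI 12 f) ∧
    (∀ n : ℕ, 12 ≤ n → ∀ f : ℂ → ℂ, IsGerm f →
      (InI n f ↔ ∃ σ a : ℂ, (σ = 1 ∨ σ = -1) ∧
        (fun z => f z - (σ * z + a * z ^ 2 + σ * a ^ 2 * z ^ 3)) =O[𝓝 0] (fun z => z ^ 4))) := by
  refine ⟨?_, ?_⟩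
  · intro m f h
    obtain ⟨σ, a, hσ, hO⟩ := necessary h
    exact sufficient h.germ hσ hO
  · intro n hn f hf
    constructor
    · exact necessary
    · rintro ⟨σ, a, hσ, hO⟩
      exact (sufficient hf hσ hO).mono hn

end V16

end Pool.Agent.Results.MP_40a019_an.BoundedWidth
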